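import Pool.Agent.SWT67.Kcon

/-!
# Linear relations between the state sums at an edge
-/

set_option autoImplicit false

namespace Pool.Agent.SWT67

open Equiv Pool.Agent.SWT80 Pool.Agent.SWT45
open scoped Classical

variable {L V : Type} {n : ℕ}

theorem loc_emb {I J X : Gr V n} {x : V} (h : Gr.Loc I J X x) :
    ∃ ι : Fin 6 ↪ V, ι 0 = x ∧ ι 1 = I.r x ∧ ι 2 = I.r (I.r x) ∧ ι 3 = I.e x ∧
      ι 4 = I.r (I.e x) ∧ ι 5 = I.r (I.r (I.e x)) ∧ At ι ![I, J, X] := by
  have hx : I.r (I.r (I.r x)) = x := I.r3 x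
  have hy : I.r (I.r (I.r (I.e x))) = I.e x := I.r3 _
  have h01 : x ≠ I.r x := h.ok.ix.symm
  have h02 : x ≠ I.r (I.r x) := fun h' => h.ok.ix (I.r2 h'.symm)
  have h12 : I.r x ≠ I.r (I.r x) := fun h' => h01 (I.r_inj h')
  have h03 : x ≠ I.e x := (I.e1 x).symm
  have h13 : I.r x ≠ I.e x := h.ok.ya.symm
  have h23 : I.r (I.r x) ≠ I.e x := h.ok.yb.symm
  have h34 : I.e x ≠ I.r (I.e x) := h.ok.iy.symm
  have h35 : I.e x ≠ I.r (I.r (I.e x)) := fun h' => h.ok.iy (I.r2 h'.symm)
  have h45 : I.r (I.e x) ≠ I.r (I.r (I.e x)) := fun h' => h34 (I.r_inj h')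
  have h04 : x ≠ I.r (I.e x) := fun h' => h23 (I.r_inj (hx.trans h'))
  have h14 : I.r x ≠ I.r (I.e x) := fun h' => h03 (I.r_inj h')
  have h24 : I.r (I.r x) ≠ I.r (I.e x) := fun h' => h13 (I.r_inj h')
  have h05 : x ≠ I.r (I.r (I.e x)) := fun h' => h13 (by
    rw [← hy]
    exact congrArg I.r h')
  have h15 : I.r x ≠ I.r (I.r (I.e x)) := fun h' => h04 (I.r_inj h')
  have h25 : I.r (I.r x) ≠ I.r (I.r (I.e x)) := fun h' => h14 (I.r_inj h')
  have inj : Function.Injective (![x, I.r x, I.r (I.r x), I.e x, I.r (I.e x),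
      I.r (I.r (I.e x))] : Fin 6 → V) := by
    intro i j hij
    fin_cases i <;> fin_cases j <;> first
      | rfl
      | exact absurd hij h01 | exact absurd hij h02 | exact absurd hij h03 | exact absurd hij h04
      | exact absurd hij h05 | exact absurd hij h12 | exact absurd hij h13 | exact absurd hij h14
      | exact absurd hij h15 | exact absurd hij h23 | exact absurd hij h24 | exact absurd hij h25
      | exact absurd hij h34 | exact absurd hij h35 | exact absurd hij h45
      | exact absurd hij.symm h01 | exact absurd hij.symm h02 | exact absurd hij.symm h03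
      | exact absurd hij.symm h04 | exact absurd hij.symm h05 | exact absurd hij.symm h12
      | exact absurd hij.symm h13 | exact absurd hij.symm h14 | exact absurd hij.symm h15
      | exact absurd hij.symm h23 | exact absurd hij.symm h24 | exact absurd hij.symm h25
      | exact absurd hij.symm h34 | exact absurd hij.symm h35 | exact absurd hij.symm h45
  refine ⟨⟨_, inj⟩, rfl, rfl, rfl, rfl, rfl, rfl, ?_⟩
  constructor
  · intro D
    fin_cases D
    · rfl
    · exact h.eJ
    · exact h.eX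
  · rfl
  · intro D i
    fin_cases D
    · fin_cases i
      · rfl
      · rfl
      · exact hx
      · rfl
      · rfl
      · exact hy
    · fin_cases i
      · exact h.j1
      · exact h.j6
      · exact h.j2
      · exact h.j4
      · exact h.j3
      · exact h.j5
    · fin_cases i
      · exact h.x1
      · exact h.x2
      · exact h.x6
      · exact h.x4
      · exact h.x3
      · exact h.x5
  · intro D v hv
    have h1 : ¬ I.vt x v := by
      rintro (h' | h' | h')
      · exact hv ⟨0, h'.symm⟩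
      · exact hv ⟨1, h'.symm⟩
      · exact hv ⟨2, h'.symm⟩
    have h2 : ¬ I.vt (I.e x) v := by
      rintro (h' | h' | h')
      · exact hv ⟨3, h'.symm⟩
      · exact hv ⟨4, h'.symm⟩
      · exact hv ⟨5, h'.symm⟩
    have h3 := h.oth v h1 h2
    fin_cases D
    · rfl
    · exact h3.1
    · exact h3.2

/-- The labellings outside the edge `{x, y}`. -/
noncomputable def Ou [Fintype V] [Fintype L] (S : LS L) (G : Gr V n) (A : V → L → Prop) (x y : V)
    (l0 : L) : Finset (V → L) :=
  Finset.univ.filter fun t => t x = l0 ∧ t y = l0 ∧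
    ∀ v, v ≠ x → v ≠ y → A v (t v) ∧ t (G.e v) = S.du (t v)

theorem Z_decomp [Fintype V] [Fintype L] {S : LS L} (hS : S.Ok) {G : Gr V n} {A : V → L → Prop}
    {x y : V} (he : G.e x = y) (hA : Adm S G A) (l0 : L) :
    Z S G A = ∑ t ∈ Ou S G A x y l0, ∑ l ∈ Finset.univ.filter (A x), wt S G (up S x y t l) := by
  have hy : G.e y = x := by rw [← he, G.e2]
  have hxy : y ≠ x := by rw [← he]; exact G.e1 x
  have ne1 : ∀ v, v ≠ x → v ≠ y → G.e v ≠ x := fun v _ h2 h' => h2 (by
    rw [← he, ← h', G.e2])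
  have ne2 : ∀ v, v ≠ x → v ≠ y → G.e v ≠ y := fun v h1 _ h' => h1 (by
    rw [← hy, ← h', G.e2])
  have ux : ∀ (t : V → L) l, up S x y t l x = l := fun t l => if_pos rfl
  have uy : ∀ (t : V → L) l, up S x y t l y = S.du l := fun t l => by
    unfold up
    rw [if_neg hxy, if_pos rfl]
  have uo : ∀ (t : V → L) l v, v ≠ x → v ≠ y → up S x y t l v = t v := fun t l v h1 h2 => by
    unfold up
    rw [if_neg h1, if_neg h2]
  have inv1 : ∀ s : V → L, IsSt S G A s →
      up S x y (fun v => if v = x ∨ v = y then l0 else s v) (s x) = s := by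
    intro s hs
    funext v
    by_cases h1 : v = x
    · rw [h1, ux]
    · by_cases h2 : v = y
      · rw [h2, uy, ← hs.2 x, he]
      · rw [uo _ _ v h1 h2, if_neg fun h' => h'.elim h1 h2]
  rw [← Finset.sum_product']
  unfold Z
  refine Finset.sum_bij' (fun s _ => ((fun v => if v = x ∨ v = y then l0 else s v), s x))
    (fun q _ => up S x y q.1 q.2) ?_ ?_ ?_ ?_ ?_
  · intro s hs
    have hs' := (Finset.mem_filter.1 hs).2
    refine Finset.mem_product.2 ⟨Finset.mem_filter.2 ⟨Finset.mem_univ _, ?_, ?_, ?_⟩,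
      Finset.mem_filter.2 ⟨Finset.mem_univ _, hs'.1 x⟩⟩
    · exact if_pos (Or.inl rfl)
    · exact if_pos (Or.inr rfl)
    · intro v h1 h2
      show A v (if v = x ∨ v = y then l0 else s v) ∧
        (if G.e v = x ∨ G.e v = y then l0 else s (G.e v)) =
          S.du (if v = x ∨ v = y then l0 else s v)
      rw [if_neg (fun h' : v = x ∨ v = y => h'.elim h1 h2),
        if_neg (fun h' : G.e v = x ∨ G.e v = y => h'.elim (ne1 v h1 h2) (ne2 v h1 h2))]
      exact ⟨hs'.1 v, hs'.2 v⟩
  · intro q hq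
    have hq1 := (Finset.mem_filter.1 (Finset.mem_product.1 hq).1).2
    have hq2 := (Finset.mem_filter.1 (Finset.mem_product.1 hq).2).2
    refine Finset.mem_filter.2 ⟨Finset.mem_univ _, ?_, ?_⟩
    · intro v
      by_cases h1 : v = x
      · rw [h1, ux]
        exact hq2
      · by_cases h2 : v = y
        · rw [h2, uy, ← he]
          exact hA _ _ hq2
        · rw [uo _ _ v h1 h2]
          exact (hq1.2.2 v h1 h2).1
    · intro v
      by_cases h1 : v = x
      · rw [h1, he, ux, uy]
      · by_cases h2 : v = y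
        · rw [h2, hy, ux, uy, hS.du_du]
        · rw [uo _ _ v h1 h2, uo _ _ _ (ne1 v h1 h2) (ne2 v h1 h2)]
          exact (hq1.2.2 v h1 h2).2
  · intro s hs
    exact inv1 s (Finset.mem_filter.1 hs).2
  · intro q hq
    have hq1 := (Finset.mem_filter.1 (Finset.mem_product.1 hq).1).2
    refine Prod.ext (funext fun v => ?_) (ux _ _)
    show (if v = x ∨ v = y then l0 else up S x y q.1 q.2 v) = q.1 v
    by_cases h1 : v = x
    · rw [if_pos (Or.inl h1), h1, hq1.1]
    · by_cases h2 : v = y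
      · rw [if_pos (Or.inr h2), h2, hq1.2.1]
      · rw [if_neg (fun h' : v = x ∨ v = y => h'.elim h1 h2), uo _ _ v h1 h2]
  · intro s hs
    show wt S G s = wt S G (up S x y (fun v => if v = x ∨ v = y then l0 else s v) (s x))
    rw [inv1 s (Finset.mem_filter.1 hs).2]

theorem Ou_eq [Fintype V] [Fintype L] {S : LS L} {G G' : Gr V n} {A A' : V → L → Prop} {x y : V}
    {l0 : L} (he : G'.e = G.e) (hA : ∀ v, v ≠ x → v ≠ y → ∀ l, A' v l ↔ A v l) :
    Ou S G' A' x y l0 = Ou S G A x y l0 := by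
  unfold Ou
  ext t
  simp only [Finset.mem_filter, Finset.mem_univ, true_and]
  refine and_congr Iff.rfl (and_congr Iff.rfl ?_)
  refine forall_congr' fun v => forall_congr' fun h1 => forall_congr' fun h2 => ?_
  rw [hA v h1 h2, he]

theorem loc : S_loc := by
  intro L _ S hS V _ n I J X x h AI AJ AX hI hJ hX hleg hAA α β γ hloc
  rcases isEmpty_or_nonempty L with hL | hL
  · have hz : ∀ (G : Gr V n) (A : V → L → Prop), Z S G A = 0 := by
      intro G A
      unfold Z
      refine Finset.sum_eq_zero fun s _ => ?_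
      exact (hL.false (s x)).elim
    rw [hz, hz, hz]
    ring
  obtain ⟨l0⟩ := hL
  obtain ⟨ι, i0, i1, i2, i3, i4, i5, hAt⟩ := loc_emb h
  have eJ : J.e x = I.e x := by rw [h.eJ]
  have eX : X.e x = I.e x := by rw [h.eX]
  rw [Z_decomp hS (x := x) (y := I.e x) rfl hI l0, Z_decomp hS (x := x) (y := I.e x) eJ hJ l0,
    Z_decomp hS (x := x) (y := I.e x) eX hX l0,
    Ou_eq (G := I) (G' := J) (A := AI) h.eJ fun v h1 h2 l => (hAA v h1 h2 l).1,
    Ou_eq (G := I) (G' := X) (A := AI) h.eX fun v h1 h2 l => (hAA v h1 h2 l).2,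
    Finset.mul_sum, Finset.mul_sum, Finset.mul_sum, ← Finset.sum_add_distrib,
    ← Finset.sum_add_distrib]
  refine Finset.sum_eq_zero fun t ht => ?_
  have ht' := (Finset.mem_filter.1 ht).2
  have hSok : Sok S ι ((![I, J, X] : Fin 3 → Gr V n) 0) t := by
    constructor
    · intro v h1 h2
      rw [i0] at h1
      rw [i3] at h2
      exact (ht'.2.2 v h1 h2).2
    · intro v hv
      have hv' : I.r v = v := hv
      have h1 : v ≠ x := fun h' => h.ok.ix (by rw [← h']; exact hv')
      have h2 : v ≠ I.e x := fun h' => h.ok.iy (by rw [← h']; exact hv')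
      exact hleg v _ hv' (ht'.2.2 v h1 h2).1
  obtain ⟨K, hK⟩ := kconst hS hAt hSok
  have kI : ∀ l, wt S I (up S x (I.e x) t l) = K * (sI (S.odd (t (ι 1))) (S.odd (t (ι 2)))
      (S.odd (t (ι 4))) (S.odd (t (ι 5))) (S.pos l) * (S.T l (t (ι 1)) (t (ι 2)) *
        S.T (S.du l) (t (ι 4)) (t (ι 5)))) := fun l => by
    have h1 := hK 0 l
    rw [i0, i3] at h1
    exact h1
  have kJ : ∀ l, wt S J (up S x (I.e x) t l) = K * (sJ (S.odd (t (ι 1))) (S.odd (t (ι 2)))
      (S.odd (t (ι 4))) (S.odd (t (ι 5))) (S.pos l) * (S.T l (t (ι 2)) (t (ι 4)) *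
        S.T (S.du l) (t (ι 5)) (t (ι 1)))) := fun l => by
    have h1 := hK 1 l
    rw [i0, i3] at h1
    exact h1
  have kX : ∀ l, wt S X (up S x (I.e x) t l) = K * (sX (S.odd (t (ι 1))) (S.odd (t (ι 2)))
      (S.odd (t (ι 4))) (S.odd (t (ι 5))) (S.pos l) * (S.T l (t (ι 1)) (t (ι 4)) *
        S.T (S.du l) (t (ι 5)) (t (ι 2)))) := fun l => by
    have h1 := hK 2 l
    rw [i0, i3] at h1
    exact h1
  have al : ∀ i : Fin 6, i ≠ 0 → i ≠ 3 → AI (ι i) (t (ι i)) := by
    intro i h0 h3
    refine (ht'.2.2 (ι i) ?_ ?_).1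
    · rw [← i0]
      exact fun h' => h0 (ι.injective h')
    · rw [← i3]
      exact fun h' => h3 (ι.injective h')
  have hl := hloc (t (ι 1)) (t (ι 2)) (t (ι 4)) (t (ι 5))
    (by rw [← i1]; exact al 1 (by decide) (by decide))
    (by rw [← i2]; exact al 2 (by decide) (by decide))
    (by rw [← i4]; exact al 4 (by decide) (by decide))
    (by rw [← i5]; exact al 5 (by decide) (by decide))
  simp only [kI, kJ, kX]
  rw [← Finset.mul_sum, ← Finset.mul_sum, ← Finset.mul_sum]
  have e1 : α * (K * tI S (AI x) (t (ι 1)) (t (ι 2)) (t (ι 4)) (t (ι 5))) +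
      β * (K * tJ S (AJ x) (t (ι 1)) (t (ι 2)) (t (ι 4)) (t (ι 5))) +
      γ * (K * tX S (AX x) (t (ι 1)) (t (ι 2)) (t (ι 4)) (t (ι 5))) = 0 := by
    linear_combination K * hl
  exact e1

end Pool.Agent.SWT67
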