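import Pool.Agent.SWT45.Stmts

/-!
# Systems of representatives of the trivalent vertices
-/

set_option autoImplicit false

namespace Pool.Agent.SWT67

open Equiv Pool.Agent.SWT80 Pool.Agent.SWT45
open scoped Classical

variable {V : Type}

theorem rep : S_rep := by
  intro V _ r h3
  have inj : ∀ {a b : V}, Fintype.equivFin V a = Fintype.equivFin V b → a = b := fun h =>
    (Fintype.equivFin V).injective h
  refine ⟨Finset.univ.filter fun v => r v ≠ v ∧
    Fintype.equivFin V v < Fintype.equivFin V (r v) ∧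
    Fintype.equivFin V v < Fintype.equivFin V (r (r v)), ?_, ?_, ?_⟩
  · intro v hv
    exact (Finset.mem_filter.1 hv).2.1
  · intro v hv
    have n1 : Fintype.equivFin V v ≠ Fintype.equivFin V (r v) := fun h => hv (inj h).symm
    have n2 : Fintype.equivFin V (r v) ≠ Fintype.equivFin V (r (r v)) := fun h =>
      hv (r.injective (inj h)).symm
    have n3 : Fintype.equivFin V (r (r v)) ≠ Fintype.equivFin V v := fun h => by
      apply hv
      have h1 := h3 v
      rw [inj h] at h1
      exact h1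
    have h1 : r (r v) ≠ r v := fun h => hv (r.injective h)
    have h2 : r (r (r v)) ≠ r (r v) := fun h => h1 (r.injective h)
    simp only [Finset.mem_filter, Finset.mem_univ, true_and]
    rw [h3 v]
    have e1 : r (r (r v)) = v := h3 v
    rcases lt_trichotomy (Fintype.equivFin V v) (Fintype.equivFin V (r v)) with a | a | a
    · rcases lt_trichotomy (Fintype.equivFin V v) (Fintype.equivFin V (r (r v))) with b | b | b
      · exact Or.inl ⟨hv, a, b⟩
      · exact (n3 b.symm).elim
      · refine Or.inr (Or.inr ⟨?_, b, ?_⟩)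
        · rw [e1] at h2
          exact h2
        · exact b.trans a
    · exact (n1 a).elim
    · rcases lt_trichotomy (Fintype.equivFin V (r v)) (Fintype.equivFin V (r (r v))) with b | b | b
      · exact Or.inr (Or.inl ⟨h1, b, a⟩)
      · exact (n2 b).elim
      · refine Or.inr (Or.inr ⟨?_, b.trans a, b⟩)
        rw [e1] at h2
        exact h2
  · intro v hv
    have h := (Finset.mem_filter.1 hv).2
    constructor
    · intro hw
      have h' := (Finset.mem_filter.1 hw).2.2.2
      rw [h3] at h'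
      exact absurd (h.2.1.trans h') (lt_irrefl _)
    · intro hw
      have h' := (Finset.mem_filter.1 hw).2.2.1
      rw [h3] at h'
      exact absurd (h.2.2.trans h') (lt_irrefl _)

theorem rep_eq {r : Perm V} {Q : Finset V} (hQ : IsRep r Q) {v w : V} (hv : v ∈ Q) (hw : w ∈ Q)
    (h : w = v ∨ w = r v ∨ w = r (r v)) : w = v := by
  rcases h with h | h | h
  · exact h
  · rw [h] at hw
    exact ((hQ.un v hv).1 hw).elim
  · rw [h] at hw
    exact ((hQ.un v hv).2 hw).elim

theorem rep_prod {r : Perm V} {Q Q' : Finset V} {f : V → ℤ} (h3 : ∀ v, r (r (r v)) = v)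
    (hQ : IsRep r Q) (hQ' : IsRep r Q') (hf : ∀ v, f (r v) = f v) :
    ∏ v ∈ Q, f v = ∏ v ∈ Q', f v := by
  have key : ∀ v ∈ Q, ∃ w ∈ Q', w = v ∨ w = r v ∨ w = r (r v) := by
    intro v hv
    rcases hQ'.ex v (hQ.nf v hv) with h | h | h
    · exact ⟨_, h, Or.inl rfl⟩
    · exact ⟨_, h, Or.inr (Or.inl rfl)⟩
    · exact ⟨_, h, Or.inr (Or.inr rfl)⟩
  choose! g hg1 hg2 using key
  have tr : ∀ {a b c : V}, (a = b ∨ a = r b ∨ a = r (r b)) → (c = b ∨ c = r b ∨ c = r (r b)) →
      a = c ∨ a = r c ∨ a = r (r c) := by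
    intro a b c h1 h2
    rcases h2 with rfl | rfl | rfl
    · exact h1
    · rw [h3]
      rcases h1 with h | h | h
      · exact Or.inr (Or.inr h)
      · exact Or.inl h
      · exact Or.inr (Or.inl h)
    · rw [h3]
      rcases h1 with h | h | h
      · exact Or.inr (Or.inl h)
      · exact Or.inr (Or.inr h)
      · exact Or.inl h
  have sy : ∀ {a b : V}, (a = b ∨ a = r b ∨ a = r (r b)) → b = a ∨ b = r a ∨ b = r (r a) := by
    intro a b h
    rcases h with rfl | rfl | rfl
    · exact Or.inl rfl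
    · exact Or.inr (Or.inr (h3 b).symm)
    · exact Or.inr (Or.inl (h3 b).symm)
  refine Finset.prod_bij (fun v _ => g v) (fun v hv => hg1 v hv) ?_ ?_ ?_
  · intro v hv w hw h
    refine rep_eq hQ hw hv ?_
    have h1 := hg2 v hv
    have h2 := hg2 w hw
    rw [h] at h1
    exact tr (sy h1) (sy h2)
  · intro u hu
    obtain ⟨v, hv, hvu⟩ : ∃ v ∈ Q, v = u ∨ v = r u ∨ v = r (r u) := by
      rcases hQ.ex u (hQ'.nf u hu) with h | h | h
      · exact ⟨_, h, Or.inl rfl⟩
      · exact ⟨_, h, Or.inr (Or.inl rfl)⟩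
      · exact ⟨_, h, Or.inr (Or.inr rfl)⟩
    refine ⟨v, hv, ?_⟩
    refine rep_eq hQ' hu (hg1 v hv) ?_
    exact tr (hg2 v hv) (sy hvu)
  · intro v hv
    rcases hg2 v hv with h | h | h
    · rw [h]
    · rw [h, hf]
    · rw [h, hf, hf]

theorem vp_eq : S_vp := by
  intro V _ r Q f h3 hQ hf
  have h : ∃ Q, IsRep r Q := ⟨Q, hQ⟩
  unfold vp
  rw [dif_pos h]
  exact rep_prod h3 h.choose_spec hQ hf

end Pool.Agent.SWT67
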