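import Pool.Agent.SWT45.Stmts

/-!
# The sign of a labelling does not depend on the permutation
-/

set_option autoImplicit false

namespace Pool.Agent.SWT67

open Equiv Pool.Agent.SWT80 Pool.Agent.SWT45
open scoped Classical

variable {V : Type}

theorem inv_ap (k : Perm V) (v : V) : k⁻¹ (k v) = v := k.symm_apply_apply v

theorem ap_inv (k : Perm V) (v : V) : k (k⁻¹ v) = v := k.apply_symm_apply v

/-- `v` and `r v` are odd. -/
def fst (r : Perm V) (o : V → Bool) (v : V) : Prop := o v = true ∧ o (r v) = true

theorem par_ne {e r : Perm V} {o p : V → Bool} (h : Par2 e r o p) {v : V} (hv : o v = true) :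
    r v ≠ v := fun h' => by
  have := h.ol v h'
  rw [this] at hv
  cases hv

theorem par_r {e r : Perm V} {o p : V → Bool} (h : Par2 e r o p) {v : V} (hv : o v = true) :
    (o (r v) = true ∧ o (r (r v)) = false) ∨ (o (r v) = false ∧ o (r (r v)) = true) := by
  have h1 := h.o3 v
  rw [hv] at h1
  cases h2 : o (r v) <;> cases h3 : o (r (r v)) <;> rw [h2, h3] at h1 <;> simp_all

theorem fst_r {e r : Perm V} {o p : V → Bool} (h : Par2 e r o p) {v : V} (hv : fst r o v) :
    ¬ fst r o (r v) := by
  rintro ⟨_, h2⟩
  rcases par_r h hv.1 with h3 | h3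
  · rw [h3.2] at h2
    cases h2
  · have := hv.2
    rw [h3.1] at this
    cases this

theorem fst_or {e r : Perm V} {o p : V → Bool} (h3 : ∀ v, r (r (r v)) = v)
    (h : Par2 e r o p) {v : V} (hv : o v = true) :
    fst r o v ∨ ∃ u, fst r o u ∧ r u = v := by
  rcases par_r h hv with h4 | h4
  · exact Or.inl ⟨hv, h4.1⟩
  · exact Or.inr ⟨r (r v), ⟨h4.2, by rw [h3]; exact hv⟩, h3 v⟩

theorem isK_neg {e r : Perm V} {o p : V → Bool} {κ : Perm V} (h2 : ∀ v, e (e v) = v)
    (h : Par2 e r o p) (hκ : IsK e r o p κ) {v : V} (hv : o v = true) (hp : p v = false) :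
    fst r o (κ (e v)) ∧ κ v = r (κ (e v)) := by
  have h4 := hκ.map (e v) (by rw [h.oe]; exact hv) (by rw [h.pe v hv, hp]; rfl)
  rw [h2] at h4
  exact ⟨⟨h4.1, h4.2.1⟩, h4.2.2⟩

/-- The half-edge which `κ` maps to a first one is positive. -/
theorem isK_fst {e r : Perm V} {o p : V → Bool} {κ : Perm V} (h2 : ∀ v, e (e v) = v)
    (h : Par2 e r o p) (hκ : IsK e r o p κ) {v : V} (hv : fst r o (κ v)) :
    o v = true ∧ p v = true := by
  have ho : o v = true := by
    by_contra h4
    have h5 := hκ.fix v (by simpa using h4)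
    rw [h5] at hv
    exact h4 hv.1
  refine ⟨ho, ?_⟩
  by_contra h4
  have h5 := isK_neg h2 h hκ ho (by simpa using h4)
  rw [h5.2] at hv
  exact fst_r h h5.1 hv

theorem sign_unique [Fintype V] {e r : Perm V} {o p : V → Bool} {κ κ' : Perm V}
    (h2 : ∀ v, e (e v) = v) (h3 : ∀ v, r (r (r v)) = v)
    (h : Par2 e r o p) (hκ : IsK e r o p κ) (hκ' : IsK e r o p κ') :
    Perm.sign κ = Perm.sign κ' := by
  obtain ⟨τ, hτ⟩ : ∃ τ : Perm V, τ = κ' * κ⁻¹ := ⟨_, rfl⟩
  have t1 : ∀ v, τ (κ v) = κ' v := fun v => by
    rw [hτ, Perm.mul_apply, inv_ap]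
  have t2 : ∀ u, fst r o u → fst r o (τ u) ∧ τ (r u) = r (τ u) := by
    intro u hu
    obtain ⟨v, rfl⟩ := κ.surjective u
    obtain ⟨ho, hp⟩ := isK_fst h2 h hκ hu
    have h4 := hκ.map v ho hp
    have h5 := hκ'.map v ho hp
    rw [t1, ← h4.2.2, t1]
    exact ⟨⟨h5.1, h5.2.1⟩, h5.2.2⟩
  have t3 : ∀ u, o u = false → τ u = u := by
    intro u hu
    have h4 := t1 u
    rw [hκ.fix u hu, hκ'.fix u hu] at h4
    exact h4
  have t4 : ∀ u, fst r o (τ u) ↔ fst r o u := by
    intro u
    constructor
    · intro h4
      by_contra h5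
      by_cases h6 : o u = true
      · rcases fst_or h3 h h6 with h7 | ⟨w, hw, rfl⟩
        · exact h5 h7
        · have h7 := t2 w hw
          rw [h7.2] at h4
          exact fst_r h h7.1 h4
      · rw [t3 u (by simpa using h6)] at h4
        exact h5 h4
    · intro h4
      exact (t2 u h4).1
  obtain ⟨σ, hσ⟩ : ∃ σ : Perm V, σ = Perm.ofSubtype (τ.subtypePerm t4) := ⟨_, rfl⟩
  have s1 : ∀ u, fst r o u → σ u = τ u := by
    intro u hu
    rw [hσ, Perm.ofSubtype_apply_of_mem _ hu]
    rfl
  have s2 : ∀ u, ¬ fst r o u → σ u = u := by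
    intro u hu
    rw [hσ, Perm.ofSubtype_apply_of_not_mem _ hu]
  have key : τ = σ * (r * σ * r⁻¹) := by
    ext x
    rw [Perm.mul_apply, Perm.mul_apply, Perm.mul_apply]
    by_cases hx : fst r o x
    · have h4 : ¬ fst r o (r⁻¹ x) := by
        intro h5
        have h6 := fst_r h h5
        rw [ap_inv] at h6
        exact h6 hx
      rw [s2 _ h4, ap_inv, s1 x hx]
    · by_cases h6 : o x = true
      · rcases fst_or h3 h h6 with h7 | ⟨w, hw, rfl⟩
        · exact (hx h7).elim
        · have h7 := t2 w hw
          rw [inv_ap, s1 w hw, s2 _ (fst_r h h7.1), h7.2]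
      · have h4 : ¬ fst r o (r⁻¹ x) := by
          rintro ⟨_, h5⟩
          rw [ap_inv] at h5
          exact h6 h5
        rw [s2 _ h4, ap_inv, s2 _ hx, t3 x (by simpa using h6)]
  have h4 : Perm.sign τ = 1 := by
    rw [key, map_mul, map_mul, map_mul, map_inv, mul_comm (Perm.sign r), mul_assoc,
      mul_inv_cancel, mul_one, Int.units_mul_self]
  have h5 : κ' = τ * κ := by
    rw [hτ, mul_assoc, inv_mul_cancel, mul_one]
  rw [h5, map_mul, h4, one_mul]

theorem sg_eq : S_sg := by
  intro V _ e r κ o p h2 h3 h hκ
  have h4 : ∃ κ, IsK e r o p κ := ⟨κ, hκ⟩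
  unfold sg
  rw [dif_pos h4, sign_unique h2 h3 h h4.choose_spec hκ]

theorem exists_isK : S_ex := by
  intro V _ e r o p h2 h3 h
  have c1 : (Finset.univ.filter fun v => o v = true ∧ p v = true).card =
      (Finset.univ.filter fun v => o v = true ∧ ¬ p v = true).card := by
    refine Finset.card_bij (fun v _ => e v) ?_ ?_ ?_
    · intro v hv
      simp only [Finset.mem_filter, Finset.mem_univ, true_and] at hv ⊢
      rw [h.oe, h.pe v hv.1, hv.2]
      exact ⟨hv.1, by simp⟩
    · intro a _ b _ hab
      exact e.injective hab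
    · intro v hv
      simp only [Finset.mem_filter, Finset.mem_univ, true_and] at hv
      refine ⟨e v, ?_, h2 v⟩
      simp only [Finset.mem_filter, Finset.mem_univ, true_and]
      rw [h.oe, h.pe v hv.1]
      exact ⟨hv.1, by simpa using hv.2⟩
  have c2 : (Finset.univ.filter fun v => o v = true ∧ fst r o v).card =
      (Finset.univ.filter fun v => o v = true ∧ ¬ fst r o v).card := by
    refine Finset.card_bij (fun v _ => r v) ?_ ?_ ?_
    · intro v hv
      simp only [Finset.mem_filter, Finset.mem_univ, true_and] at hv ⊢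
      exact ⟨hv.2.2, fst_r h hv.2⟩
    · intro a _ b _ hab
      exact r.injective hab
    · intro v hv
      simp only [Finset.mem_filter, Finset.mem_univ, true_and] at hv
      rcases fst_or h3 h hv.1 with h7 | ⟨w, hw, rfl⟩
      · exact (hv.2 h7).elim
      · refine ⟨w, ?_, rfl⟩
        simp only [Finset.mem_filter, Finset.mem_univ, true_and]
        exact ⟨hw.1, hw⟩
  have c3 := Finset.card_filter_add_card_filter_not (s := Finset.univ.filter fun v => o v = true)
    (fun v => p v = true)
  have c4 := Finset.card_filter_add_card_filter_not (s := Finset.univ.filter fun v => o v = true)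
    (fun v => fst r o v)
  simp only [Finset.filter_filter] at c3 c4
  have c5 : (Finset.univ.filter fun v => o v = true ∧ p v = true).card =
      (Finset.univ.filter fun v => fst r o v).card := by
    have h4 : (Finset.univ.filter fun v => o v = true ∧ fst r o v) =
        Finset.univ.filter fun v => fst r o v := by
      ext v
      simp only [Finset.mem_filter, Finset.mem_univ, true_and]
      exact ⟨fun h => h.2, fun h => ⟨h.1, h⟩⟩
    rw [h4] at c2 c4
    omega
  have c6 : Fintype.card {v // o v = true ∧ p v = true} = Fintype.card {v // fst r o v} := by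
    rw [Fintype.card_subtype, Fintype.card_subtype]
    exact c5
  let β : {v // o v = true ∧ p v = true} ≃ {v // fst r o v} := Fintype.equivOfCardEq c6
  let β' : V → V := fun v => if h : o v = true ∧ p v = true then (β ⟨v, h⟩).1 else v
  have b1 : ∀ v, o v = true → p v = true → fst r o (β' v) := by
    intro v ho hp
    show fst r o (if h : o v = true ∧ p v = true then (β ⟨v, h⟩).1 else v)
    rw [dif_pos ⟨ho, hp⟩]
    exact (β ⟨v, ⟨ho, hp⟩⟩).2
  have b2 : ∀ v w, o v = true → p v = true → o w = true → p w = true → β' v = β' w → v = w := by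
    intro v w hv hv' hw hw' h4
    have h5 : (β ⟨v, ⟨hv, hv'⟩⟩).1 = (β ⟨w, ⟨hw, hw'⟩⟩).1 := by
      have h6 : β' v = (β ⟨v, ⟨hv, hv'⟩⟩).1 := dif_pos _
      have h7 : β' w = (β ⟨w, ⟨hw, hw'⟩⟩).1 := dif_pos _
      rw [← h6, ← h7, h4]
    have h6 := β.injective (Subtype.ext h5)
    exact congrArg Subtype.val h6
  let f : V → V := fun v => if o v = false then v else if p v = true then β' v else r (β' (e v))
  have f0 : ∀ v, o v = false → f v = v := fun v hv => if_pos hv
  have f1 : ∀ v, o v = true → p v = true → f v = β' v := by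
    intro v hv hp
    show (if o v = false then v else if p v = true then β' v else r (β' (e v))) = _
    rw [if_neg (by rw [hv]; simp), if_pos hp]
  have f2 : ∀ v, o v = true → p v = false → f v = r (β' (e v)) := by
    intro v hv hp
    show (if o v = false then v else if p v = true then β' v else r (β' (e v))) = _
    rw [if_neg (by rw [hv]; simp), if_neg (by rw [hp]; simp)]
  have g1 : ∀ v, o v = true → p v = false → fst r o (β' (e v)) := by
    intro v hv hp
    exact b1 _ (by rw [h.oe]; exact hv) (by rw [h.pe v hv, hp]; rfl)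
  have fo : ∀ v, o v = true → o (f v) = true := by
    intro v hv
    cases hp : p v with
    | true => rw [f1 v hv hp]; exact (b1 v hv hp).1
    | false => rw [f2 v hv hp]; exact (g1 v hv hp).2
  have finj : Function.Injective f := by
    intro v w hvw
    cases hv : o v with
    | false =>
      cases hw : o w with
      | false => rw [f0 v hv, f0 w hw] at hvw; exact hvw
      | true =>
        have h4 := fo w hw
        rw [← hvw, f0 v hv, hv] at h4
        cases h4
    | true =>
      cases hw : o w with
      | false =>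
        have h4 := fo v hv
        rw [hvw, f0 w hw, hw] at h4
        cases h4
      | true =>
        cases hp : p v with
        | true =>
          cases hq : p w with
          | true =>
            rw [f1 v hv hp, f1 w hw hq] at hvw
            exact b2 v w hv hp hw hq hvw
          | false =>
            rw [f1 v hv hp, f2 w hw hq] at hvw
            have h4 := b1 v hv hp
            rw [hvw] at h4
            exact (fst_r h (g1 w hw hq) h4).elim
        | false =>
          cases hq : p w with
          | true =>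
            rw [f2 v hv hp, f1 w hw hq] at hvw
            have h4 := b1 w hw hq
            rw [← hvw] at h4
            exact (fst_r h (g1 v hv hp) h4).elim
          | false =>
            rw [f2 v hv hp, f2 w hw hq] at hvw
            have h4 := b2 (e v) (e w) (by rw [h.oe]; exact hv) (by rw [h.pe v hv, hp]; rfl)
              (by rw [h.oe]; exact hw) (by rw [h.pe w hw, hq]; rfl) (r.injective hvw)
            exact e.injective h4
  refine ⟨Equiv.ofBijective f (Finite.injective_iff_bijective.1 finj), ?_, ?_⟩
  · intro v hv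
    exact f0 v hv
  · intro v hv hp
    have h4 : o (e v) = true := by rw [h.oe]; exact hv
    have h5 : p (e v) = false := by rw [h.pe v hv, hp]; rfl
    show o (f v) = true ∧ o (r (f v)) = true ∧ f (e v) = r (f v)
    rw [f1 v hv hp, f2 _ h4 h5, h2]
    exact ⟨(b1 v hv hp).1, (b1 v hv hp).2, rfl⟩

end Pool.Agent.SWT67
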