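import Mathlib
import Pool.Agent.SWT80.Ops
import Pool.Agent.SWT93.Stmts

/-!
# The calculus of opened edges

`opn G h` is the graph `G` with the edge `{h, e h}` opened: the half-edge `h` gets the new leg
number `n`, the half-edge `e h` gets the new leg number `n + 1`.
-/

set_option autoImplicit false

namespace Pool.Agent.SWT67

open Equiv Pool.Agent.SWT49 Pool.Agent.SWT80 Pool.Agent.SWT93
open Pool.Agent.SWT80.Gr (opn opn_r opn_r_new opn_leg_l opn_leg_0 opn_leg_1 opn_e_h opn_e_eh
  opn_e_o insE insE_h insE_eh insE_o)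

variable {V W : Type} {n : ℕ}

/-- The exchange of the last two positions. -/
def swL (n : ℕ) : Perm (Fin (n + 2)) := swap (Fin.natAdd n 0) (Fin.natAdd n 1)

theorem swL_castAdd (i : Fin n) : swL n (Fin.castAdd 2 i) = Fin.castAdd 2 i :=
  swap_apply_of_ne_of_ne (castAdd_ne_natAdd i _) (castAdd_ne_natAdd i _)

theorem swL_zero : swL n (Fin.natAdd n 0) = Fin.natAdd n 1 := swap_apply_left _ _

theorem swL_one : swL n (Fin.natAdd n 1) = Fin.natAdd n 0 := swap_apply_right _ _

theorem swL_inv : (swL n)⁻¹ = swL n := swap_inv _ _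

theorem opn_e_f (G : Gr V n) (h : V) : (opn G h).e (Sum.inr false) = Sum.inl h := rfl

theorem opn_e_t (G : Gr V n) (h : V) : (opn G h).e (Sum.inr true) = Sum.inl (G.e h) := rfl

/-- Every leg of the opened graph. -/
theorem leg_cases {n : ℕ} {P : Fin (n + 2) → Prop} (h1 : ∀ i : Fin n, P (Fin.castAdd 2 i))
    (h2 : P (Fin.natAdd n 0)) (h3 : P (Fin.natAdd n 1)) (i : Fin (n + 2)) : P i := by
  refine Fin.addCases h1 (fun j => ?_) i
  fin_cases j
  · exact h2
  · exact h3

theorem gr_ext {n : ℕ} {G G' : Gr V n} (he : ∀ v, G.e v = G'.e v) (hr : ∀ v, G.r v = G'.r v)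
    (hl : ∀ i, G.leg i = G'.leg i) : G = G' :=
  Gr.ext (Equiv.ext he) (Equiv.ext hr) (funext hl)

/-! ### Isomorphisms -/

theorem opn_map (f : V ≃ W) (G : Gr V n) (h : V) :
    (opn G h).map (Gr.exm f) = opn (G.map f) (f h) := by
  refine Gr.map_eq ?_ ?_ ?_
  · rintro (v | t)
    · show (opn (G.map f) (f h)).e (Sum.inl (f v)) = _
      by_cases h1 : v = h
      · subst h1
        rw [opn_e_h, opn_e_h]
        rfl
      by_cases h2 : v = G.e h
      · subst h2
        rw [opn_e_eh, ← Gr.map_e, opn_e_eh]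
        rfl
      rw [opn_e_o G h h1 h2, opn_e_o _ _ (fun h' => h1 (f.injective h'))
        (fun h' => h2 (f.injective (h'.trans (G.map_e f h)))), Gr.map_e]
      rfl
    · cases t
      · rfl
      · show Sum.inl ((G.map f).e (f h)) = _
        rw [Gr.map_e]
        rfl
  · rintro (v | t)
    · show Sum.inl ((G.map f).r (f v)) = _
      rw [Gr.map_r]
      rfl
    · rfl
  · refine leg_cases (fun i => ?_) ?_ ?_
    · rw [opn_leg_l, opn_leg_l]
      rfl
    · rw [opn_leg_0, opn_leg_0]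
      rfl
    · rw [opn_leg_1, opn_leg_1]
      rfl

/-- An isomorphism between opened graphs comes from an isomorphism of the graphs. -/
theorem of_opn_map {G : Gr V n} {G' : Gr W n} {h : V} {h' : W} {f : V ⊕ Bool ≃ W ⊕ Bool}
    (hf : (opn G h).map f = opn G' h') :
    ∃ g : V ≃ W, G.map g = G' ∧ g h = h' ∧ f = Gr.exm g := by
  have hF : f (Sum.inr false) = Sum.inr false := by
    have h1 : ((opn G h).map f).leg (Fin.natAdd n 0) = (opn G' h').leg (Fin.natAdd n 0) := by
      rw [hf]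
    rw [Gr.map_leg, opn_leg_0, opn_leg_0] at h1
    exact h1
  have hT : f (Sum.inr true) = Sum.inr true := by
    have h1 : ((opn G h).map f).leg (Fin.natAdd n 1) = (opn G' h').leg (Fin.natAdd n 1) := by
      rw [hf]
    rw [Gr.map_leg, opn_leg_1, opn_leg_1] at h1
    exact h1
  have hB : ∀ t, f (Sum.inr t) = Sum.inr t := by
    intro t
    cases t
    · exact hF
    · exact hT
  have h1 : ∀ v, ∃ w, f (Sum.inl v) = Sum.inl w := by
    intro v
    rcases h2 : f (Sum.inl v) with w | t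
    · exact ⟨w, rfl⟩
    · rw [← hB t] at h2
      cases f.injective h2
  have h2 : ∀ w, ∃ v, f.symm (Sum.inl w) = Sum.inl v := by
    intro w
    rcases h3 : f.symm (Sum.inl w) with v | t
    · exact ⟨v, rfl⟩
    · rw [Equiv.symm_apply_eq, hB] at h3
      cases h3
  choose a ha using h1
  choose b hb using h2
  let g : V ≃ W := ⟨a, b, fun v => by
    have h3 := hb (a v)
    rw [← ha, Equiv.symm_apply_apply] at h3
    exact (Sum.inl.inj h3).symm, fun w => by
    have h3 := ha (b w)
    rw [← hb, Equiv.apply_symm_apply] at h3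
    exact (Sum.inl.inj h3).symm⟩
  have hg : f = Gr.exm g := by
    refine Equiv.ext fun w => ?_
    rcases w with v | t
    · exact ha v
    · exact hB t
  have hh : g h = h' := by
    have h3 : ((opn G h).map f).e (f (Sum.inr false)) = (opn G' h').e (Sum.inr false) := by
      rw [hf, hF]
    rw [Gr.map_e, opn_e_f, opn_e_f, ha] at h3
    exact Sum.inl.inj h3
  refine ⟨g, ?_, hh, hg⟩
  rw [hg, opn_map, hh] at hf
  refine gr_ext ?_ ?_ ?_
  · intro v
    have h3 : insE (G.map g) h' (Sum.inl v) = insE G' h' (Sum.inl v) := by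
      show (opn (G.map g) h').e (Sum.inl v) = (opn G' h').e (Sum.inl v)
      rw [hf]
    have h4 : (G.map g).e h' = G'.e h' := by
      have h5 : (opn (G.map g) h').e (Sum.inr true) = (opn G' h').e (Sum.inr true) := by
        rw [hf]
      exact Sum.inl.inj h5
    by_cases h5 : v = h'
    · rw [h5, h4]
    by_cases h6 : v = G'.e h'
    · rw [h6, G'.e2, ← h4, (G.map g).e2]
    rw [insE_o _ h5 (by rw [h4]; exact h6), insE_o _ h5 h6] at h3
    exact Sum.inl.inj h3
  · intro v
    have h3 : (opn (G.map g) h').r (Sum.inl v) = (opn G' h').r (Sum.inl v) := by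
      rw [hf]
    exact Sum.inl.inj h3
  · intro i
    have h3 : (opn (G.map g) h').leg (Fin.castAdd 2 i) = (opn G' h').leg (Fin.castAdd 2 i) := by
      rw [hf]
    rw [opn_leg_l, opn_leg_l] at h3
    exact Sum.inl.inj h3

theorem opn_inj {G G' : Gr V n} {h h' : V} (hf : opn G h = opn G' h') : G = G' ∧ h = h' := by
  have h1 : (opn G h).map (Equiv.refl _) = opn G' h' := by
    rw [← hf]
    exact gr_ext (fun _ => rfl) (fun _ => rfl) (fun _ => rfl)
  obtain ⟨g, h2, h3, h4⟩ := of_opn_map h1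
  have h5 : g = Equiv.refl _ := by
    refine Equiv.ext fun v => ?_
    have h6 : Gr.exm g (Sum.inl v) = Sum.inl v := by
      rw [← h4]
      rfl
    exact Sum.inl.inj h6
  subst h5
  refine ⟨?_, h3⟩
  rw [← h2]
  exact gr_ext (fun _ => rfl) (fun _ => rfl) (fun _ => rfl)

/-! ### Permutations of the legs -/

theorem opn_smul (g : Perm (Fin n)) (G : Gr V n) (h : V) :
    opn (g • G) h = pq g (1 : Perm (Fin 2)) • opn G h := by
  refine gr_ext (fun _ => rfl) (fun _ => rfl) ?_
  refine leg_cases (fun i => ?_) ?_ ?_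
  · rw [opn_leg_l, Gr.smul_leg, Gr.smul_leg, pq_inv, pq_l, opn_leg_l]
  · rw [opn_leg_0, Gr.smul_leg, pq_inv, pq_r, inv_one, Perm.one_apply, opn_leg_0]
  · rw [opn_leg_1, Gr.smul_leg, pq_inv, pq_r, inv_one, Perm.one_apply, opn_leg_1]

/-- The other half of the edge. -/
theorem opn_eh (G : Gr V n) (h : V) :
    opn G (G.e h) = (swL n • opn G h).map (Equiv.sumCongr (Equiv.refl V) Equiv.boolNot) := by
  symm
  refine Gr.map_eq ?_ ?_ ?_
  · rintro (v | t)
    · show (opn G (G.e h)).e (Sum.inl v) = _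
      rw [Gr.smul_e]
      by_cases h1 : v = h
      · subst h1
        rw [opn_e_h]
        have h2 := opn_e_eh G (h := G.e v)
        rw [G.e2] at h2
        exact h2
      by_cases h2 : v = G.e h
      · subst h2
        rw [opn_e_eh, opn_e_h]
        rfl
      rw [opn_e_o G h h1 h2, opn_e_o G _ h2 (by rw [G.e2]; exact h1)]
      rfl
    · cases t
      · show Sum.inl (G.e (G.e h)) = Sum.inl h
        rw [G.e2]
      · rfl
  · rintro (v | t)
    · rfl
    · rfl
  · refine leg_cases (fun i => ?_) ?_ ?_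
    · rw [opn_leg_l, Gr.smul_leg, swL_inv, swL_castAdd, opn_leg_l]
      rfl
    · rw [opn_leg_0, Gr.smul_leg, swL_inv, swL_zero, opn_leg_1]
      rfl
    · rw [opn_leg_1, Gr.smul_leg, swL_inv, swL_one, opn_leg_0]
      rfl

/-! ### Reversals -/

theorem opn_vt (G : Gr V n) (h x v : V) :
    (opn G h).vt (Sum.inl x) (Sum.inl v) ↔ G.vt x v := by
  unfold Gr.vt
  rw [opn_r, opn_r]
  constructor
  · rintro (h1 | h1 | h1)
    · exact Or.inl (Sum.inl.inj h1)
    · exact Or.inr (Or.inl (Sum.inl.inj h1))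
    · exact Or.inr (Or.inr (Sum.inl.inj h1))
  · rintro (h1 | h1 | h1)
    · exact Or.inl (congrArg Sum.inl h1)
    · exact Or.inr (Or.inl (congrArg Sum.inl h1))
    · exact Or.inr (Or.inr (congrArg Sum.inl h1))

theorem opn_vt' (G : Gr V n) (h x : V) (t : Bool) : ¬ (opn G h).vt (Sum.inl x) (Sum.inr t) := by
  unfold Gr.vt
  rw [opn_r, opn_r]
  rintro (h1 | h1 | h1) <;> cases h1

theorem opn_flip (G : Gr V n) (h x : V) : opn (G.flip x) h = (opn G h).flip (Sum.inl x) := by
  refine gr_ext (fun w => ?_) (fun w => ?_) (fun _ => rfl)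
  · rcases w with v | t
    · rfl
    · cases t <;> rfl
  · rw [Gr.flip_r]
    rcases w with v | t
    · rw [opn_r, Gr.flip_r]
      by_cases h1 : G.vt x v
      · rw [Gr.fr_pos h1, Gr.fr_pos ((opn_vt G h x v).2 h1), opn_r, opn_r]
      · rw [Gr.fr_neg h1, Gr.fr_neg (fun h2 => h1 ((opn_vt G h x v).1 h2)), opn_r]
    · rw [Gr.fr_neg (opn_vt' G h x t)]
      rfl

/-! ### The relation IHX -/

theorem opn_ok {G : Gr V n} {h x : V} (hx : x ≠ h) (hx' : x ≠ G.e h) :
    Gr.Ok (opn G h) (Sum.inl x) ↔ Gr.Ok G x := by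
  have h1 : (opn G h).e (Sum.inl x) = Sum.inl (G.e x) := opn_e_o G h hx hx'
  constructor
  · intro h2
    refine ⟨fun h3 => h2.ix ?_, fun h3 => h2.iy ?_, fun h3 => h2.ya ?_, fun h3 => h2.yb ?_⟩
    · rw [opn_r, h3]
    · rw [h1, opn_r, h3]
    · rw [h1, opn_r, h3]
    · rw [h1, opn_r, opn_r, h3]
  · intro h2
    refine ⟨fun h3 => h2.ix ?_, fun h3 => h2.iy ?_, fun h3 => h2.ya ?_, fun h3 => h2.yb ?_⟩
    · exact Sum.inl.inj h3
    · rw [h1] at h3
      exact Sum.inl.inj h3
    · rw [h1] at h3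
      exact Sum.inl.inj h3
    · rw [h1] at h3
      exact Sum.inl.inj h3

theorem opn_loc {I J X : Gr V n} {h x : V} (hx : x ≠ h) (hx' : x ≠ I.e h)
    (hL : Gr.Loc I J X x) : Gr.Loc (opn I h) (opn J h) (opn X h) (Sum.inl x) := by
  have h1 : (opn I h).e (Sum.inl x) = Sum.inl (I.e x) := opn_e_o I h hx hx'
  refine ⟨(opn_ok hx hx').2 hL.ok, ?_, ?_, ?_, ?_, ?_, ?_, ?_, ?_, ?_, ?_, ?_, ?_, ?_, ?_, ?_, ?_,
    ?_⟩
  · exact congrArg Sum.inl hL.j1
  · rw [h1]
    exact congrArg Sum.inl hL.j2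
  · rw [h1]
    exact congrArg Sum.inl hL.j3
  · rw [h1]
    exact congrArg Sum.inl hL.j4
  · rw [h1]
    exact congrArg Sum.inl hL.j5
  · rw [h1]
    exact congrArg Sum.inl hL.j6
  · exact congrArg Sum.inl hL.x1
  · rw [h1]
    exact congrArg Sum.inl hL.x2
  · rw [h1]
    exact congrArg Sum.inl hL.x3
  · rw [h1]
    exact congrArg Sum.inl hL.x4
  · rw [h1]
    exact congrArg Sum.inl hL.x5
  · rw [h1]
    exact congrArg Sum.inl hL.x6
  · rw [h1]
    rintro (v | t) h2 h3
    · rw [opn_vt] at h2 h3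
      obtain ⟨h4, h5⟩ := hL.oth v h2 h3
      exact ⟨congrArg Sum.inl h4, congrArg Sum.inl h5⟩
    · exact ⟨rfl, rfl⟩
  · refine Equiv.ext fun w => ?_
    show insE J h w = insE I h w
    rcases w with v | t
    · unfold insE
      rw [hL.eJ]
    · cases t
      · rfl
      · show Sum.inl (J.e h) = Sum.inl (I.e h)
        rw [hL.eJ]
  · refine Equiv.ext fun w => ?_
    show insE X h w = insE I h w
    rcases w with v | t
    · unfold insE
      rw [hL.eX]
    · cases t
      · rfl
      · show Sum.inl (X.e h) = Sum.inl (I.e h)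
        rw [hL.eX]
  · show Fin.append (fun i => Sum.inl (J.leg i)) _ = Fin.append (fun i => Sum.inl (I.leg i)) _
    rw [hL.lJ]
  · show Fin.append (fun i => Sum.inl (X.leg i)) _ = Fin.append (fun i => Sum.inl (I.leg i)) _
    rw [hL.lX]

end Pool.Agent.SWT67
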