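import Mathlib
import Pool.Agent.SWT36.LocShape
import Pool.Agent.SWT67.Opn

/-!
# Two opened edges; connected components
-/

set_option autoImplicit false

namespace Pool.Agent.SWT67

open Equiv Pool.Agent.SWT49 Pool.Agent.SWT80 Pool.Agent.SWT93
open Pool.Agent.SWT80.Gr (opn opn_r opn_r_new opn_leg_l opn_leg_0 opn_leg_1 opn_e_h opn_e_eh
  opn_e_o)

variable {V W : Type} {n : ℕ}

/-! ### The relation IHX of an opened graph -/

theorem loc_unique {I J X J' X' : Gr V n} {x : V} (h : Gr.Loc I J X x)
    (h' : Gr.Loc I J' X' x) : J = J' ∧ X = X' :=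
  ⟨(SWT36.shJ h).uniq (SWT36.shJ h'), (SWT36.shX h).uniq (SWT36.shX h')⟩

theorem ok_opn {G : Gr V n} {h : V} {w : V ⊕ Bool} (hw : Gr.Ok (opn G h) w) :
    ∃ x, w = Sum.inl x ∧ x ≠ h ∧ x ≠ G.e h ∧ Gr.Ok G x := by
  rcases w with x | t
  · have h1 : x ≠ h := by
      rintro rfl
      apply hw.iy
      rw [opn_e_h]
      rfl
    have h2 : x ≠ G.e h := by
      rintro rfl
      apply hw.iy
      rw [opn_e_eh]
      rfl
    exact ⟨x, rfl, h1, h2, (opn_ok h1 h2).1 hw⟩
  · exact absurd rfl hw.ix

/-- Every IHX triple of an opened graph is an opened IHX triple. -/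
theorem loc_of_opn {I : Gr V n} {J' X' : Gr (V ⊕ Bool) (n + 2)} {h : V} {w : V ⊕ Bool}
    (hL : Gr.Loc (opn I h) J' X' w) :
    ∃ x J X, w = Sum.inl x ∧ x ≠ h ∧ x ≠ I.e h ∧ Gr.Loc I J X x ∧ J' = opn J h ∧
      X' = opn X h := by
  obtain ⟨x, rfl, h1, h2, h3⟩ := ok_opn hL.ok
  obtain ⟨J, X, h4⟩ := SWT36.exists_loc h3
  obtain ⟨h5, h6⟩ := loc_unique hL (opn_loc h1 h2 h4)
  exact ⟨x, J, X, rfl, h1, h2, h4, h5, h6⟩

/-! ### Two openings -/

/-- The exchange of the two pairs of new half-edges. -/
def sg2 (V : Type) : (V ⊕ Bool) ⊕ Bool ≃ (V ⊕ Bool) ⊕ Bool where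
  toFun w := match w with
    | Sum.inl (Sum.inl v) => Sum.inl (Sum.inl v)
    | Sum.inl (Sum.inr t) => Sum.inr t
    | Sum.inr t => Sum.inl (Sum.inr t)
  invFun w := match w with
    | Sum.inl (Sum.inl v) => Sum.inl (Sum.inl v)
    | Sum.inl (Sum.inr t) => Sum.inr t
    | Sum.inr t => Sum.inl (Sum.inr t)
  left_inv := by
    rintro ((v | t) | t) <;> rfl
  right_inv := by
    rintro ((v | t) | t) <;> rfl

/-- The exchange of the last two pairs of positions. -/
def swP (n : ℕ) : Perm (Fin (n + 2 + 2)) :=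
  swap (Fin.natAdd (n + 2) 0) (Fin.castAdd 2 (Fin.natAdd n 0)) *
    swap (Fin.natAdd (n + 2) 1) (Fin.castAdd 2 (Fin.natAdd n 1))

section

theorem ne4 {a b : ℕ} {i : Fin a} {j : Fin b} (h : a = b) (hij : i.val ≠ j.val) :
    Fin.cast h i ≠ j := fun h' => hij (congrArg Fin.val h')

theorem swP_o (i : Fin n) :
    swP n (Fin.castAdd 2 (Fin.castAdd 2 i)) = Fin.castAdd 2 (Fin.castAdd 2 i) := by
  have h0 := i.isLt
  unfold swP
  rw [Perm.mul_apply, swap_apply_of_ne_of_ne (a := Fin.natAdd (n + 2) 1)
    (b := Fin.castAdd 2 (Fin.natAdd n 1)), swap_apply_of_ne_of_ne]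
  all_goals
    intro h
    have h1 := congrArg Fin.val h
    simp at h1
    omega

theorem swP_a (j : Fin 2) :
    swP n (Fin.castAdd 2 (Fin.natAdd n j)) = Fin.natAdd (n + 2) j := by
  unfold swP
  revert j
  apply Gr.fin2
  · rw [Perm.mul_apply, swap_apply_of_ne_of_ne (a := Fin.natAdd (n + 2) 1)
      (b := Fin.castAdd 2 (Fin.natAdd n 1)), swap_apply_right]
    all_goals
      intro h
      have h1 := congrArg Fin.val h
      simp at h1
      try omega
  · rw [Perm.mul_apply, swap_apply_right, swap_apply_of_ne_of_ne]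
    all_goals
      intro h
      have h1 := congrArg Fin.val h
      simp at h1
      try omega

theorem swP_b (j : Fin 2) :
    swP n (Fin.natAdd (n + 2) j) = Fin.castAdd 2 (Fin.natAdd n j) := by
  unfold swP
  revert j
  apply Gr.fin2
  · rw [Perm.mul_apply, swap_apply_of_ne_of_ne (a := Fin.natAdd (n + 2) 1)
      (b := Fin.castAdd 2 (Fin.natAdd n 1)), swap_apply_left]
    all_goals
      intro h
      have h1 := congrArg Fin.val h
      simp at h1
      try omega
  · rw [Perm.mul_apply, swap_apply_left, swap_apply_of_ne_of_ne]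
    all_goals
      intro h
      have h1 := congrArg Fin.val h
      simp at h1
      try omega

theorem swP_swP : swP n * swP n = 1 := by
  refine perm_ext (fun i => ?_) (fun j => ?_)
  · induction i using Fin.addCases with
    | left i => rw [Perm.mul_apply, swP_o, swP_o, Perm.one_apply]
    | right j => rw [Perm.mul_apply, swP_a, swP_b, Perm.one_apply]
  · rw [Perm.mul_apply, swP_b, swP_a, Perm.one_apply]

theorem swP_inv : (swP n)⁻¹ = swP n := by
  rw [inv_eq_iff_mul_eq_one, swP_swP]

end

/-- Two openings of different edges commute. -/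
theorem opn_comm (G : Gr V n) {h k : V} (h1 : k ≠ h) (h2 : k ≠ G.e h) :
    opn (opn G k) (Sum.inl h) = (swP n • opn (opn G h) (Sum.inl k)).map (sg2 V) := by
  have h3 : h ≠ G.e k := fun h' => h2 (by rw [h', G.e2])
  have ek : (opn G k).e (Sum.inl h) = Sum.inl (G.e h) := opn_e_o G k h1.symm h3
  have eh : (opn G h).e (Sum.inl k) = Sum.inl (G.e k) := opn_e_o G h h1 h2
  have ne : G.e h ≠ G.e k := fun h' => h1 (G.e_inj h').symm
  symm
  refine Gr.map_eq ?_ ?_ ?_
  · rintro ((v | t) | t)
    · show (opn (opn G k) (Sum.inl h)).e (Sum.inl (Sum.inl v)) = _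
      rw [Gr.smul_e]
      by_cases k1 : v = h
      · subst k1
        rw [opn_e_h, opn_e_o (opn G v) _ (fun h' => h1 (Sum.inl.inj h').symm)
          (by rw [eh]; exact fun h' => h3 (Sum.inl.inj h')), opn_e_h]
        rfl
      by_cases k2 : v = G.e h
      · subst k2
        have e1 := opn_e_eh (opn G k) (Sum.inl h)
        rw [ek] at e1
        rw [e1, opn_e_o (opn G h) _ (fun h' => h2 (Sum.inl.inj h').symm)
          (by rw [eh]; exact fun h' => ne (Sum.inl.inj h')), opn_e_eh]
        rfl
      rw [opn_e_o (opn G k) _ (fun h' => k1 (Sum.inl.inj h'))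
        (by rw [ek]; exact fun h' => k2 (Sum.inl.inj h'))]
      by_cases k3 : v = k
      · subst k3
        rw [opn_e_h, opn_e_h]
        rfl
      by_cases k4 : v = G.e k
      · subst k4
        have e1 := opn_e_eh (opn G h) (Sum.inl k)
        rw [eh] at e1
        rw [opn_e_eh, e1]
        rfl
      rw [opn_e_o G k k3 k4, opn_e_o (opn G h) _ (fun h' => k3 (Sum.inl.inj h'))
        (by rw [eh]; exact fun h' => k4 (Sum.inl.inj h')), opn_e_o G h k1 k2]
      rfl
    · show (opn (opn G k) (Sum.inl h)).e (Sum.inr t) = _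
      rw [Gr.smul_e, opn_e_o (opn G h) _ (fun h' => by cases h')
        (by rw [eh]; exact fun h' => by cases h')]
      cases t
      · rfl
      · show Sum.inl ((opn G k).e (Sum.inl h)) = _
        rw [ek]
        rfl
    · show (opn (opn G k) (Sum.inl h)).e (Sum.inl (Sum.inr t)) = _
      rw [Gr.smul_e, opn_e_o (opn G k) _ (fun h' => by cases h')
        (by rw [ek]; exact fun h' => by cases h')]
      cases t
      · rfl
      · show Sum.inl ((opn G k).e (Sum.inr true)) = sg2 V (Sum.inl ((opn G h).e (Sum.inl k)))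
        rw [eh]
        rfl
  · rintro ((v | t) | t) <;> rfl
  · intro i
    rw [Gr.smul_leg, swP_inv]
    induction i using Fin.addCases with
    | left i =>
      rw [opn_leg_l]
      induction i using Fin.addCases with
      | left i => rw [opn_leg_l, swP_o, opn_leg_l, opn_leg_l]; rfl
      | right j =>
        rw [swP_a]
        revert j
        apply Gr.fin2
        · rw [opn_leg_0, opn_leg_0]
          rfl
        · rw [opn_leg_1, opn_leg_1]
          rfl
    | right j =>
      rw [swP_b, opn_leg_l]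
      revert j
      apply Gr.fin2
      · rw [opn_leg_0, opn_leg_0]
        rfl
      · rw [opn_leg_1, opn_leg_1]
        rfl

/-! ### Connected components -/

theorem card_opn [Finite V] : Nat.card (V ⊕ Bool) = Nat.card V + 2 := by
  rw [Nat.card_sum]
  simp

/-- The unions of components of `G`, in the opened graph. -/
def opS (G : Gr V n) (h : V) (S : Set V) : Set (V ⊕ Bool) := fun w => match w with
  | Sum.inl v => v ∈ S
  | Sum.inr false => h ∈ S
  | Sum.inr true => G.e h ∈ S

theorem cld_opS {G : Gr V n} {h : V} {S : Set V}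
    (he : ∀ v ∈ S, v ≠ h → v ≠ G.e h → G.e v ∈ S) (hr : ∀ v ∈ S, G.r v ∈ S) :
    Cld (opn G h) (opS G h S) where
  e := by
    rintro (v | t) hv
    · by_cases h1 : v = h
      · subst h1
        rw [opn_e_h]
        exact hv
      by_cases h2 : v = G.e h
      · subst h2
        rw [opn_e_eh]
        exact hv
      rw [opn_e_o G h h1 h2]
      exact he v hv h1 h2
    · cases t
      · exact hv
      · exact hv
  r := by
    rintro (v | t) hv
    · exact hr v hv
    · exact hv

theorem gconn_of_opn {G : Gr V n} {h : V} (hG : GConn (opn G h)) : GConn G := by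
  intro S hS hne
  have h1 := hG (opS G h S) (cld_opS (fun v hv _ _ => hS.e v hv) hS.r)
    (by
      obtain ⟨v, hv⟩ := hne
      exact ⟨Sum.inl v, hv⟩)
  refine Set.eq_univ_of_forall fun v => ?_
  have h2 : Sum.inl v ∈ opS G h S := by
    rw [h1]
    exact Set.mem_univ _
  exact h2

/-- The opened graph is connected if and only if the edge is not a bridge. -/
theorem gconn_opn_iff {G : Gr V n} {h : V} (hG : GConn G) :
    GConn (opn G h) ↔ ∀ T : Set V, (∀ v ∈ T, v ≠ h → v ≠ G.e h → G.e v ∈ T) →
      (∀ v ∈ T, G.r v ∈ T) → h ∈ T → G.e h ∈ T := by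
  constructor
  · intro h1 T he hr hT
    have h2 := h1 (opS G h T) (cld_opS he hr) ⟨Sum.inl h, hT⟩
    have h3 : Sum.inl (G.e h) ∈ opS G h T := by
      rw [h2]
      exact Set.mem_univ _
    exact h3
  · intro h1 S hS hne
    have fl : Sum.inr false ∈ S ↔ Sum.inl h ∈ S := by
      constructor
      · exact fun h2 => hS.e _ h2
      · intro h2
        have h3 := hS.e _ h2
        rwa [opn_e_h] at h3
    have tr : Sum.inr true ∈ S ↔ Sum.inl (G.e h) ∈ S := by
      constructor
      · exact fun h2 => hS.e _ h2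
      · intro h2
        have h3 := hS.e _ h2
        rwa [opn_e_eh] at h3
    have key : ∀ T : Set (V ⊕ Bool), Cld (opn G h) T → Sum.inl h ∈ T →
        Sum.inl (G.e h) ∈ T := by
      intro T hT h2
      refine h1 {v | Sum.inl v ∈ T} (fun v hv k1 k2 => ?_) (fun v hv => hT.r _ hv) h2
      have h3 := hT.e _ hv
      rwa [opn_e_o G h k1 k2] at h3
    have hC : Cld (opn G h) Sᶜ := by
      constructor
      · intro v hv h2
        apply hv
        have h3 := hS.e _ h2
        rwa [Gr.e2] at h3
      · intro v hv h2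
        apply hv
        have h3 := hS.r _ (hS.r _ h2)
        rwa [Gr.r3] at h3
    have key2 : Sum.inl (G.e h) ∈ S → Sum.inl h ∈ S := by
      intro h2
      by_contra h3
      exact key _ hC h3 h2
    have key3 : Sum.inl h ∈ S ↔ Sum.inl (G.e h) ∈ S := ⟨key S hS, key2⟩
    have h4 : Cld G {v | Sum.inl v ∈ S} := by
      constructor
      · intro v hv
        by_cases k1 : v = h
        · rw [k1] at hv ⊢
          exact key3.1 hv
        by_cases k2 : v = G.e h
        · rw [k2] at hv ⊢
          show Sum.inl (G.e (G.e h)) ∈ S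
          rw [G.e2]
          exact key3.2 hv
        have h3 := hS.e _ hv
        rwa [opn_e_o G h k1 k2] at h3
      · exact fun v hv => hS.r _ hv
    have h5 : ∃ v, Sum.inl v ∈ S := by
      obtain ⟨v | t, hv⟩ := hne
      · exact ⟨v, hv⟩
      · cases t
        · exact ⟨h, fl.1 hv⟩
        · exact ⟨G.e h, tr.1 hv⟩
    have h6 := hG _ h4 h5
    have h7 : ∀ v, Sum.inl v ∈ S := by
      intro v
      have h8 : v ∈ {v | Sum.inl v ∈ S} := by
        rw [h6]
        exact Set.mem_univ _
      exact h8
    refine Set.eq_univ_of_forall ?_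
    rintro (v | t)
    · exact h7 v
    · cases t
      · exact fl.2 (h7 h)
      · exact tr.2 (h7 _)

end Pool.Agent.SWT67
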