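import Mathlib
import Pool.Agent.SWT67.Opn2
import Pool.Agent.SWT84.Cy

/-!
# Every connected graph is an opened graph; cycles of opened graphs
-/

set_option autoImplicit false

namespace Pool.Agent.SWT67

open Equiv Pool.Agent.SWT49 Pool.Agent.SWT80 Pool.Agent.SWT93
open Pool.Agent.SWT80.Gr (opn opn_r opn_r_new opn_leg_l opn_leg_0 opn_leg_1 opn_e_h opn_e_eh
  opn_e_o)

variable {V W : Type} {n : ℕ}

/-! ### Joining the last two legs -/

section glue

variable (T : Gr V (n + 2))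

/-- The half-edges which are not the last two legs. -/
def GV : Type := {v : V // v ≠ T.leg (Fin.natAdd n 0) ∧ v ≠ T.leg (Fin.natAdd n 1)}

instance [Finite V] : Finite (GV T) := Subtype.finite

open Classical in
/-- The edges after the joining of the last two legs. -/
noncomputable def glE (v : V) : V :=
  if T.e v = T.leg (Fin.natAdd n 0) then T.e (T.leg (Fin.natAdd n 1)) else
    if T.e v = T.leg (Fin.natAdd n 1) then T.e (T.leg (Fin.natAdd n 0)) else T.e v

variable {T}

theorem glE_p : glE T (T.e (T.leg (Fin.natAdd n 0))) = T.e (T.leg (Fin.natAdd n 1)) :=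
  if_pos (T.e2 _)

theorem last_ne : T.leg (Fin.natAdd n 0) ≠ T.leg (Fin.natAdd n 1) := by
  apply T.leg_ne
  intro h
  have h1 := congrArg Fin.val h
  simp at h1

theorem glE_q : glE T (T.e (T.leg (Fin.natAdd n 1))) = T.e (T.leg (Fin.natAdd n 0)) := by
  unfold glE
  rw [T.e2, if_neg last_ne.symm, if_pos rfl]

theorem glE_o {v : V} (h1 : v ≠ T.e (T.leg (Fin.natAdd n 0)))
    (h2 : v ≠ T.e (T.leg (Fin.natAdd n 1))) : glE T v = T.e v := by
  unfold glE
  rw [if_neg (fun h => h1 (by rw [← h, T.e2])), if_neg (fun h => h2 (by rw [← h, T.e2]))]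

theorem glE2 (v : V) (h1 : v ≠ T.leg (Fin.natAdd n 0)) (h2 : v ≠ T.leg (Fin.natAdd n 1)) :
    glE T (glE T v) = v := by
  by_cases k1 : v = T.e (T.leg (Fin.natAdd n 0))
  · rw [k1, glE_p, glE_q]
  by_cases k2 : v = T.e (T.leg (Fin.natAdd n 1))
  · rw [k2, glE_q, glE_p]
  rw [glE_o k1 k2, glE_o (fun h => h1 (T.e_inj h)) (fun h => h2 (T.e_inj h)), T.e2]

theorem glE1 (v : V) : glE T v ≠ v := by
  by_cases k1 : v = T.e (T.leg (Fin.natAdd n 0))
  · rw [k1, glE_p]
    exact fun h => last_ne (T.e_inj h).symm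
  by_cases k2 : v = T.e (T.leg (Fin.natAdd n 1))
  · rw [k2, glE_q]
    exact fun h => last_ne (T.e_inj h)
  rw [glE_o k1 k2]
  exact T.e1 v

theorem glE_mem (hT : T.e (T.leg (Fin.natAdd n 0)) ≠ T.leg (Fin.natAdd n 1)) (v : V) :
    glE T v ≠ T.leg (Fin.natAdd n 0) ∧ glE T v ≠ T.leg (Fin.natAdd n 1) := by
  have hT' : T.e (T.leg (Fin.natAdd n 1)) ≠ T.leg (Fin.natAdd n 0) := fun h => hT (by
    rw [← h, T.e2])
  by_cases k1 : v = T.e (T.leg (Fin.natAdd n 0))
  · rw [k1, glE_p]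
    exact ⟨hT', T.e1 _⟩
  by_cases k2 : v = T.e (T.leg (Fin.natAdd n 1))
  · rw [k2, glE_q]
    exact ⟨T.e1 _, hT⟩
  rw [glE_o k1 k2]
  exact ⟨fun h => k1 (by rw [← h, T.e2]), fun h => k2 (by rw [← h, T.e2])⟩

theorem r_mem (v : GV T) : T.r v.1 ≠ T.leg (Fin.natAdd n 0) ∧
    T.r v.1 ≠ T.leg (Fin.natAdd n 1) := by
  constructor
  · intro h
    exact v.2.1 (T.r_inj (h.trans (T.r_leg _).symm))
  · intro h
    exact v.2.2 (T.r_inj (h.trans (T.r_leg _).symm))

/-- The last two legs are joined. -/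
noncomputable def glue (T : Gr V (n + 2))
    (hT : T.e (T.leg (Fin.natAdd n 0)) ≠ T.leg (Fin.natAdd n 1)) : Gr (GV T) n where
  e := Function.Involutive.toPerm (fun v => ⟨glE T v.1, glE_mem hT v.1⟩)
    (fun v => Subtype.ext (glE2 v.1 v.2.1 v.2.2))
  r := Gr.perm3 (fun v => ⟨T.r v.1, r_mem v⟩) (fun v => Subtype.ext (T.r3 v.1))
  leg := fun i => ⟨T.leg (Fin.castAdd 2 i), T.leg_ne (castAdd_ne_natAdd _ _),
    T.leg_ne (castAdd_ne_natAdd _ _)⟩
  e2 v := Subtype.ext (glE2 v.1 v.2.1 v.2.2)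
  e1 v h := glE1 v.1 (congrArg Subtype.val h)
  r3 v := Subtype.ext (T.r3 v.1)
  inj i j h := Fin.castAdd_injective n 2 (T.inj (congrArg Subtype.val h))
  fix v := by
    rw [Gr.perm3_apply]
    constructor
    · intro h
      obtain ⟨i, hi⟩ := (T.fix v.1).1 (congrArg Subtype.val h)
      revert hi
      refine leg_cases (P := fun i => T.leg i = v.1 → _) (fun i hi => ?_) (fun hi => ?_)
        (fun hi => ?_) i
      · exact ⟨i, Subtype.ext hi⟩
      · exact absurd hi.symm v.2.1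
      · exact absurd hi.symm v.2.2
    · rintro ⟨i, hi⟩
      apply Subtype.ext
      have h1 := congrArg Subtype.val hi
      show T.r v.1 = v.1
      rw [← h1, T.r_leg]

theorem glue_e (hT : T.e (T.leg (Fin.natAdd n 0)) ≠ T.leg (Fin.natAdd n 1)) (v : GV T) :
    ((glue T hT).e v).1 = glE T v.1 := rfl

theorem glue_r (hT : T.e (T.leg (Fin.natAdd n 0)) ≠ T.leg (Fin.natAdd n 1)) (v : GV T) :
    ((glue T hT).r v).1 = T.r v.1 := rfl

theorem glue_leg (hT : T.e (T.leg (Fin.natAdd n 0)) ≠ T.leg (Fin.natAdd n 1)) (i : Fin n) :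
    ((glue T hT).leg i).1 = T.leg (Fin.castAdd 2 i) := rfl

variable (T) in
/-- The half-edges of the opened joined graph. -/
noncomputable def glF : GV T ⊕ Bool ≃ V :=
  Equiv.ofBijective (fun w => match w with
    | Sum.inl v => v.1
    | Sum.inr false => T.leg (Fin.natAdd n 0)
    | Sum.inr true => T.leg (Fin.natAdd n 1)) (by
    constructor
    · rintro (v | t) (w | u) h
      · exact congrArg Sum.inl (Subtype.ext h)
      · cases u
        · exact absurd h v.2.1
        · exact absurd h v.2.2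
      · cases t
        · exact absurd h.symm w.2.1
        · exact absurd h.symm w.2.2
      · cases t <;> cases u
        · rfl
        · exact absurd h last_ne
        · exact absurd h.symm last_ne
        · rfl
    · intro v
      by_cases h1 : v = T.leg (Fin.natAdd n 0)
      · exact ⟨Sum.inr false, h1.symm⟩
      by_cases h2 : v = T.leg (Fin.natAdd n 1)
      · exact ⟨Sum.inr true, h2.symm⟩
      exact ⟨Sum.inl ⟨v, h1, h2⟩, rfl⟩)

theorem glF_l (v : GV T) : glF T (Sum.inl v) = v.1 := rfl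

theorem glF_f : glF T (Sum.inr false) = T.leg (Fin.natAdd n 0) := rfl

theorem glF_t : glF T (Sum.inr true) = T.leg (Fin.natAdd n 1) := rfl

/-- The opening of the new edge. -/
theorem opn_glue (hT : T.e (T.leg (Fin.natAdd n 0)) ≠ T.leg (Fin.natAdd n 1)) :
    (opn (glue T hT) ⟨T.e (T.leg (Fin.natAdd n 0)), T.e1 _, hT⟩).map (glF T) = T := by
  have hT' : T.e (T.leg (Fin.natAdd n 1)) ≠ T.leg (Fin.natAdd n 0) := fun h => hT (by
    rw [← h, T.e2])
  have hh : (glue T hT).e ⟨T.e (T.leg (Fin.natAdd n 0)), T.e1 _, hT⟩ =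
      ⟨T.e (T.leg (Fin.natAdd n 1)), hT', T.e1 _⟩ := Subtype.ext glE_p
  refine Gr.map_eq ?_ ?_ ?_
  · rintro (v | t)
    · by_cases k1 : v = ⟨T.e (T.leg (Fin.natAdd n 0)), T.e1 _, hT⟩
      · subst k1
        rw [opn_e_h, glF_l, glF_f, T.e2]
      by_cases k2 : v = ⟨T.e (T.leg (Fin.natAdd n 1)), hT', T.e1 _⟩
      · have e1 := opn_e_eh (glue T hT) ⟨T.e (T.leg (Fin.natAdd n 0)), T.e1 _, hT⟩
        rw [hh] at e1
        subst k2
        rw [e1, glF_l, glF_t, T.e2]
      rw [opn_e_o _ _ k1 (by rw [hh]; exact k2), glF_l, glF_l, glue_e, glE_o]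
      · exact fun h => k1 (Subtype.ext h)
      · exact fun h => k2 (Subtype.ext h)
    · cases t
      · rfl
      · rw [opn_e_t, hh]
        rfl
  · rintro (v | t)
    · rfl
    · cases t
      · exact T.r_leg _
      · exact T.r_leg _
  · refine leg_cases (fun i => ?_) ?_ ?_
    · rw [opn_leg_l]
      rfl
    · rw [opn_leg_0]
      rfl
    · rw [opn_leg_1]
      rfl

end glue

/-- Every graph in which the last two legs are not joined to each other is an opened graph. -/
theorem exists_opn [Finite V] (T : Gr V (n + 2))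
    (hT : T.e (T.leg (Fin.natAdd n 0)) ≠ T.leg (Fin.natAdd n 1)) :
    ∃ (U : Type) (_ : Finite U) (G : Gr U n) (h : U) (f : U ⊕ Bool ≃ V),
      (opn G h).map f = T :=
  ⟨GV T, inferInstance, glue T hT, _, glF T, opn_glue hT⟩

/-! ### Connected graphs -/

theorem gconn_map {G : Gr V n} (hG : GConn G) (f : V ≃ W) : GConn (G.map f) := by
  intro S hS hne
  have h1 : Cld G (f ⁻¹' S) := by
    constructor
    · intro v hv
      have h2 := hS.e _ hv
      rwa [Gr.map_e] at h2
    · intro v hv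
      have h2 := hS.r _ hv
      rwa [Gr.map_r] at h2
  have h2 : (f ⁻¹' S).Nonempty := by
    obtain ⟨w, hw⟩ := hne
    exact ⟨f.symm w, by rw [Set.mem_preimage, Equiv.apply_symm_apply]; exact hw⟩
  have h3 := hG _ h1 h2
  refine Set.eq_univ_of_forall fun w => ?_
  have h4 : f.symm w ∈ f ⁻¹' S := by
    rw [h3]
    trivial
  rwa [Set.mem_preimage, Equiv.apply_symm_apply] at h4

theorem map_symm_map (G : Gr V n) (f : V ≃ W) : (G.map f).map f.symm = G := by
  refine Gr.map_eq (fun w => ?_) (fun w => ?_) (fun i => ?_)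
  · obtain ⟨v, rfl⟩ := f.surjective w
    rw [Equiv.symm_apply_apply, Gr.map_e, Equiv.symm_apply_apply]
  · obtain ⟨v, rfl⟩ := f.surjective w
    rw [Equiv.symm_apply_apply, Gr.map_r, Equiv.symm_apply_apply]
  · rw [Gr.map_leg, Equiv.symm_apply_apply]

theorem gconn_of_map {G : Gr V n} {f : V ≃ W} (hG : GConn (G.map f)) : GConn G := by
  have h1 := gconn_map hG f.symm
  rwa [map_symm_map] at h1

theorem gconn_smul {G : Gr V n} (g : Perm (Fin n)) : GConn (g • G) ↔ GConn G :=
  ⟨fun h S hS => h S ⟨hS.e, hS.r⟩, fun h S hS => h S ⟨hS.e, hS.r⟩⟩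

/-- In a connected graph with at least three legs no two legs are joined to each other. -/
theorem leg_e_ne {G : Gr V n} (hG : GConn G) (h3 : 3 ≤ n) (i j : Fin n) :
    G.e (G.leg i) ≠ G.leg j := by
  intro h
  have h1 : Cld G {v | v = G.leg i ∨ v = G.leg j} := by
    constructor
    · rintro v (hv | hv)
      · exact Or.inr (by rw [hv, h])
      · refine Or.inl ?_
        rw [hv, ← h, G.e2]
    · rintro v (hv | hv)
      · exact Or.inl (by rw [hv, G.r_leg])
      · exact Or.inr (by rw [hv, G.r_leg])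
  have h2 := hG _ h1 ⟨G.leg i, Or.inl rfl⟩
  have h4 : ∀ k, k = i ∨ k = j := by
    intro k
    have h5 : G.leg k ∈ {v | v = G.leg i ∨ v = G.leg j} := by
      rw [h2]
      trivial
    rcases h5 with h5 | h5
    · exact Or.inl (G.inj h5)
    · exact Or.inr (G.inj h5)
  have h6 : Fintype.card (Fin n) ≤ 2 := by
    rw [← Finset.card_univ]
    refine (Finset.card_le_card (t := {i, j}) ?_).trans (Finset.card_le_two)
    intro k _
    rcases h4 k with h7 | h7
    · rw [h7]; exact Finset.mem_insert_self _ _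
    · rw [h7]; exact Finset.mem_insert_of_mem (Finset.mem_singleton_self _)
  rw [Fintype.card_fin] at h6
  omega

/-- The half-edge next to a leg is not a leg. -/
theorem e_leg_inner {G : Gr V n} (hG : GConn G) (h3 : 3 ≤ n) (i : Fin n) :
    G.r (G.e (G.leg i)) ≠ G.e (G.leg i) := by
  intro h
  obtain ⟨j, hj⟩ := (G.fix _).1 h
  exact leg_e_ne hG h3 i j hj.symm

/-- Every connected graph with `n + 2` legs, `n ≥ 1`, is an opened graph. -/
theorem exists_opn_conn [Finite V] (T : Gr V (n + 2)) (hT : GConn T) (hn : 1 ≤ n) :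
    ∃ (U : Type) (_ : Finite U) (G : Gr U n) (h : U) (f : U ⊕ Bool ≃ V),
      (opn G h).map f = T := exists_opn T (leg_e_ne hT (by omega) _ _)

/-- The opened edge of a connected graph is not the edge of a leg. -/
theorem opn_inner {G : Gr V n} {h : V} (hG : GConn (opn G h)) (hn : 1 ≤ n) :
    G.r h ≠ h ∧ G.r (G.e h) ≠ G.e h := by
  have h0 := e_leg_inner hG (by omega) (Fin.natAdd n 0)
  have h1 := e_leg_inner hG (by omega) (Fin.natAdd n 1)
  rw [opn_leg_0, opn_e_f, opn_r] at h0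
  rw [opn_leg_1, opn_e_t, opn_r] at h1
  exact ⟨fun h => h0 (congrArg Sum.inl h), fun h => h1 (congrArg Sum.inl h)⟩

/-- Every connected graph with `n + 4` legs, `n ≥ 1`, is a graph with two different opened
edges. -/
theorem exists_opn2 [Finite V] (T : Gr V (n + 2 + 2)) (hT : GConn T) (hn : 1 ≤ n) :
    ∃ (U : Type) (_ : Finite U) (G : Gr U n) (h k : U) (f : (U ⊕ Bool) ⊕ Bool ≃ V),
      k ≠ h ∧ k ≠ G.e h ∧ (opn (opn G h) (Sum.inl k)).map f = T := by
  obtain ⟨U', _, G', k', f', hf'⟩ := exists_opn_conn T hT (by omega)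
  have hc : GConn (opn G' k') := by
    rw [← hf'] at hT
    exact gconn_of_map hT
  obtain ⟨i1, i2⟩ := opn_inner hc (by omega)
  obtain ⟨U, _, G, h, f, hf⟩ := exists_opn_conn G' (gconn_of_opn hc) hn
  subst hf
  obtain ⟨w, rfl⟩ := f.surjective k'
  have hw : (opn G h).r w ≠ w := by
    intro h1
    apply i1
    rw [Gr.map_r, h1]
  have hw' : (opn G h).r ((opn G h).e w) ≠ (opn G h).e w := by
    intro h1
    apply i2
    rw [Gr.map_e, Gr.map_r, h1]
  rcases w with k | t
  · refine ⟨U, inferInstance, G, h, k, (Gr.exm f).trans f', ?_, ?_, ?_⟩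
    · rintro rfl
      rw [opn_e_h] at hw'
      exact hw' rfl
    · rintro rfl
      rw [opn_e_eh] at hw'
      exact hw' rfl
    · rw [← hf', ← opn_map]
      rfl
  · exact absurd rfl hw

/-! ### Cycles -/

theorem cy_opn {G : Gr V n} {h : V} {R : Set V} (hR : SWT84.Cy G R) (hh : h ∉ R) :
    SWT84.Cy (opn G h) (Sum.inl '' R) := by
  have hm : ∀ v : V, (Sum.inl v : V ⊕ Bool) ∈ Sum.inl '' R ↔ v ∈ R := fun v =>
    Sum.inl_injective.mem_set_image
  constructor
  · rintro _ ⟨v, hv, rfl⟩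
    have h1 : v ≠ h := fun h' => hh (h' ▸ hv)
    have h2 : v ≠ G.e h := by
      rintro rfl
      exact hh (hR.e_iff.1 hv)
    rw [opn_e_o G h h1 h2, hm]
    exact hR.e v hv
  · rintro _ ⟨v, hv, rfl⟩
    rw [opn_r, opn_r, hm, hm]
    exact hR.two v hv

theorem cy_of_opn {G : Gr V n} {h : V} {R' : Set (V ⊕ Bool)} (hR : SWT84.Cy (opn G h) R') :
    ∃ R : Set V, R' = Sum.inl '' R ∧ SWT84.Cy G R ∧ h ∉ R ∧ G.e h ∉ R := by
  have hn : ∀ t, (Sum.inr t : V ⊕ Bool) ∉ R' := fun t ht => hR.ne_leg ht rfl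
  have h1 : Sum.inl h ∉ R' := by
    intro h2
    have h3 := hR.e _ h2
    rw [opn_e_h] at h3
    exact hn _ h3
  have h2 : Sum.inl (G.e h) ∉ R' := by
    intro h2
    have h3 := hR.e _ h2
    rw [opn_e_eh] at h3
    exact hn _ h3
  refine ⟨{v | Sum.inl v ∈ R'}, ?_, ⟨fun v hv => ?_, fun v hv => ?_⟩, h1, h2⟩
  · ext w
    constructor
    · intro hw
      rcases w with v | t
      · exact ⟨v, hw, rfl⟩
      · exact absurd hw (hn t)
    · rintro ⟨v, hv, rfl⟩
      exact hv
  · have h3 := hR.e _ hv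
    rwa [opn_e_o G h (fun h' => h1 (h' ▸ hv)) (fun h' => h2 (h' ▸ hv))] at h3
  · exact hR.two _ hv

theorem cy_opn_iff {G : Gr V n} {h : V} {R : Set V} :
    SWT84.Cy (opn G h) (Sum.inl '' R) ↔ SWT84.Cy G R ∧ h ∉ R := by
  constructor
  · intro hR
    obtain ⟨R1, h1, h2, h3, _⟩ := cy_of_opn hR
    have h4 : R = R1 := Set.image_injective.2 Sum.inl_injective h1
    rw [h4]
    exact ⟨h2, h3⟩
  · exact fun h1 => cy_opn h1.1 h1.2

theorem on_opn {G : Gr V n} {h v : V} {R : Set V} :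
    SWT84.Cy.On (opn G h) (Sum.inl '' R) (Sum.inl v) ↔ SWT84.Cy.On G R v := by
  unfold SWT84.Cy.On
  rw [opn_r, Sum.inl_injective.mem_set_image, Sum.inl_injective.mem_set_image]

end Pool.Agent.SWT67
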