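import Mathlib
import Pool.Agent.SWT65.Ops
import Pool.Agent.SWT67.Opn3

/-!
# The calculus of two opened edges
-/

set_option autoImplicit false

namespace Pool.Agent.SWT67

open Equiv Pool.Agent.SWT49 Pool.Agent.SWT65 Pool.Agent.SWT80 Pool.Agent.SWT93

variable {V W : Type} {n : ℕ}

section

variable (G : Gr V n) {h k v : V}

theorem opn2_r (v : V) : (opn2 G h k).r (Sum.inl (Sum.inl v)) = Sum.inl (Sum.inl (G.r v)) := rfl

theorem opn2_leg_l (i : Fin n) :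
    (opn2 G h k).leg (Fin.castAdd 2 (Fin.castAdd 2 i)) = Sum.inl (Sum.inl (G.leg i)) := by
  show ((G.opn h).opn (Sum.inl k)).leg _ = _
  rw [Gr.opn_leg_l, Gr.opn_leg_l]

theorem opn2_leg_0 : (opn2 G h k).leg (Fin.castAdd 2 (Fin.natAdd n 0)) =
    Sum.inl (Sum.inr false) := by
  show ((G.opn h).opn (Sum.inl k)).leg _ = _
  rw [Gr.opn_leg_l, Gr.opn_leg_0]

theorem opn2_leg_1 : (opn2 G h k).leg (Fin.castAdd 2 (Fin.natAdd n 1)) =
    Sum.inl (Sum.inr true) := by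
  show ((G.opn h).opn (Sum.inl k)).leg _ = _
  rw [Gr.opn_leg_l, Gr.opn_leg_1]

theorem opn2_leg_2 : (opn2 G h k).leg (Fin.natAdd (n + 2) 0) = Sum.inr false :=
  Gr.opn_leg_0 _ _

theorem opn2_leg_3 : (opn2 G h k).leg (Fin.natAdd (n + 2) 1) = Sum.inr true :=
  Gr.opn_leg_1 _ _

theorem opn_e_inl (h1 : k ≠ h) (h2 : k ≠ G.e h) :
    (G.opn h).e (Sum.inl k) = Sum.inl (G.e k) := Gr.opn_e_o G h h1 h2

/-- The edges of the graph with two opened edges: the four ends. -/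
theorem opn2_e_h (h1 : k ≠ h) (h2 : k ≠ G.e h) :
    (opn2 G h k).e (Sum.inl (Sum.inl h)) = Sum.inl (Sum.inr false) := by
  have h3 : h ≠ G.e k := fun h' => h2 (by rw [h', G.e2])
  show ((G.opn h).opn (Sum.inl k)).e _ = _
  rw [Gr.opn_e_o (G.opn h) _ (fun h' => h1 (Sum.inl.inj h').symm)
    (by rw [opn_e_inl G h1 h2]; exact fun h' => h3 (Sum.inl.inj h')), Gr.opn_e_h]

theorem opn2_e_eh (h1 : k ≠ h) (h2 : k ≠ G.e h) :
    (opn2 G h k).e (Sum.inl (Sum.inl (G.e h))) = Sum.inl (Sum.inr true) := by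
  have h3 : G.e h ≠ G.e k := fun h' => h1 (G.e_inj h').symm
  show ((G.opn h).opn (Sum.inl k)).e _ = _
  rw [Gr.opn_e_o (G.opn h) _ (fun h' => h2 (Sum.inl.inj h').symm)
    (by rw [opn_e_inl G h1 h2]; exact fun h' => h3 (Sum.inl.inj h')), Gr.opn_e_eh]

theorem opn2_e_k : (opn2 G h k).e (Sum.inl (Sum.inl k)) = Sum.inr false :=
  Gr.opn_e_h _ _

theorem opn2_e_ek (h1 : k ≠ h) (h2 : k ≠ G.e h) :
    (opn2 G h k).e (Sum.inl (Sum.inl (G.e k))) = Sum.inr true := by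
  have h3 := Gr.opn_e_eh (G.opn h) (Sum.inl k)
  rw [opn_e_inl G h1 h2] at h3
  exact h3

theorem opn2_e_o (h1 : k ≠ h) (h2 : k ≠ G.e h) (k1 : v ≠ h) (k2 : v ≠ G.e h) (k3 : v ≠ k)
    (k4 : v ≠ G.e k) : (opn2 G h k).e (Sum.inl (Sum.inl v)) = Sum.inl (Sum.inl (G.e v)) := by
  show ((G.opn h).opn (Sum.inl k)).e _ = _
  rw [Gr.opn_e_o (G.opn h) _ (fun h' => k3 (Sum.inl.inj h'))
    (by rw [opn_e_inl G h1 h2]; exact fun h' => k4 (Sum.inl.inj h')), Gr.opn_e_o G h k1 k2]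

end

/-! ### Isomorphisms, permutations, reversals -/

theorem opn2_map (f : V ≃ W) (G : Gr V n) (h k : V) :
    (opn2 G h k).map (Gr.exm (Gr.exm f)) = opn2 (G.map f) (f h) (f k) := by
  show ((G.opn h).opn (Sum.inl k)).map _ = ((G.map f).opn (f h)).opn (Sum.inl (f k))
  rw [opn_map, opn_map]
  rfl

/-- An isomorphism between graphs with two opened edges comes from an isomorphism of the
graphs. -/
theorem of_opn2_map {G : Gr V n} {G' : Gr W n} {h k : V} {h' k' : W}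
    {f : (V ⊕ Bool) ⊕ Bool ≃ (W ⊕ Bool) ⊕ Bool} (hf : (opn2 G h k).map f = opn2 G' h' k') :
    ∃ g : V ≃ W, G.map g = G' ∧ g h = h' ∧ g k = k' ∧ f = Gr.exm (Gr.exm g) := by
  obtain ⟨g1, h1, h2, h3⟩ := of_opn_map hf
  obtain ⟨g, h4, h5, h6⟩ := of_opn_map h1
  refine ⟨g, h4, h5, ?_, by rw [h3, h6]⟩
  rw [h6] at h2
  exact Sum.inl.inj h2

theorem opn2_smul (g : Perm (Fin n)) (G : Gr V n) (h k : V) :
    opn2 (g • G) h k = pq (pq g (1 : Perm (Fin 2))) (1 : Perm (Fin 2)) • opn2 G h k := by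
  show ((g • G).opn h).opn (Sum.inl k) = _ • (G.opn h).opn (Sum.inl k)
  rw [opn_smul, opn_smul]

theorem opn2_flip (G : Gr V n) (h k x : V) :
    opn2 (G.flip x) h k = (opn2 G h k).flip (Sum.inl (Sum.inl x)) := by
  show ((G.flip x).opn h).opn (Sum.inl k) = ((G.opn h).opn (Sum.inl k)).flip _
  rw [opn_flip, opn_flip]

/-- The other half of the second edge. -/
theorem opn2_ek {G : Gr V n} {h k : V} (h1 : k ≠ h) (h2 : k ≠ G.e h) :
    opn2 G h (G.e k) = (swL (n + 2) • opn2 G h k).map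
      (Equiv.sumCongr (Equiv.refl (V ⊕ Bool)) Equiv.boolNot) := by
  have h3 := opn_eh (G.opn h) (Sum.inl k)
  rw [opn_e_inl G h1 h2] at h3
  exact h3

/-- The other half of the first edge. -/
theorem opn2_eh (G : Gr V n) (h k : V) :
    opn2 G (G.e h) k = (pq (swL n) (1 : Perm (Fin 2)) • opn2 G h k).map
      (Gr.exm (Equiv.sumCongr (Equiv.refl V) Equiv.boolNot)) := by
  show (G.opn (G.e h)).opn (Sum.inl k) = _
  rw [opn_eh]
  have h3 := opn_map (Equiv.sumCongr (Equiv.refl V) Equiv.boolNot) (swL n • G.opn h) (Sum.inl k)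
  have h4 : (Equiv.sumCongr (Equiv.refl V) Equiv.boolNot) (Sum.inl k) = Sum.inl k := rfl
  rw [h4] at h3
  rw [← h3, opn_smul]
  rfl

/-- The exchange of the two edges. -/
theorem opn2_comm (G : Gr V n) {h k : V} (h1 : k ≠ h) (h2 : k ≠ G.e h) :
    opn2 G k h = (swP n • opn2 G h k).map (sg2 V) := opn_comm G h1 h2

/-! ### The relation IHX -/

theorem opn2_loc {I J X : Gr V n} {h k x : V} (hk : k ≠ h) (hk' : k ≠ I.e h) (h1 : x ≠ h)
    (h2 : x ≠ I.e h) (h3 : x ≠ k) (h4 : x ≠ I.e k) (hL : Gr.Loc I J X x) :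
    Gr.Loc (opn2 I h k) (opn2 J h k) (opn2 X h k) (Sum.inl (Sum.inl x)) := by
  refine opn_loc (fun h' => h3 (Sum.inl.inj h')) ?_ (opn_loc h1 h2 hL)
  rw [opn_e_inl I hk hk']
  exact fun h' => h4 (Sum.inl.inj h')

/-- Every IHX triple of a graph with two opened edges comes from an IHX triple. -/
theorem loc_of_opn2 {I : Gr V n} {J' X' : Gr ((V ⊕ Bool) ⊕ Bool) (n + 2 + 2)} {h k : V}
    {w : (V ⊕ Bool) ⊕ Bool} (hk : k ≠ h) (hk' : k ≠ I.e h)
    (hL : Gr.Loc (opn2 I h k) J' X' w) :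
    ∃ x J X, w = Sum.inl (Sum.inl x) ∧ x ≠ h ∧ x ≠ I.e h ∧ x ≠ k ∧ x ≠ I.e k ∧
      Gr.Loc I J X x ∧ J' = opn2 J h k ∧ X' = opn2 X h k := by
  obtain ⟨x1, J1, X1, rfl, e1, e2, e3, rfl, rfl⟩ := loc_of_opn hL
  obtain ⟨x, J, X, rfl, e4, e5, e6, rfl, rfl⟩ := loc_of_opn e3
  refine ⟨x, J, X, rfl, e4, e5, fun h' => e1 (congrArg _ h'), fun h' => e2 ?_, e6, rfl, rfl⟩
  rw [opn_e_inl I hk hk', h']

/-! ### Connected graphs, cycles -/

theorem card_opn2 [Finite V] : Nat.card ((V ⊕ Bool) ⊕ Bool) = Nat.card V + 4 := by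
  rw [card_opn, card_opn]

theorem gconn_of_opn2 {G : Gr V n} {h k : V} (hG : GConn (opn2 G h k)) :
    GConn (G.opn h) ∧ GConn G := ⟨gconn_of_opn hG, gconn_of_opn (gconn_of_opn hG)⟩

/-- In a connected graph with two opened edges the two edges are different, and they are not the
edges of legs. -/
theorem opn2_inner {G : Gr V n} {h k : V} (hG : GConn (opn2 G h k)) (hn : 1 ≤ n) :
    k ≠ h ∧ k ≠ G.e h ∧ G.r h ≠ h ∧ G.r (G.e h) ≠ G.e h ∧ G.r k ≠ k ∧ G.r (G.e k) ≠ G.e k := by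
  obtain ⟨i1, i2⟩ := opn_inner (gconn_of_opn hG) hn
  obtain ⟨i3, i4⟩ := opn_inner (n := n + 2) hG (by omega)
  have h1 : k ≠ h := by
    rintro rfl
    rw [Gr.opn_e_h] at i4
    exact i4 rfl
  have h2 : k ≠ G.e h := by
    rintro rfl
    rw [Gr.opn_e_eh] at i4
    exact i4 rfl
  refine ⟨h1, h2, i1, i2, fun h' => i3 (congrArg Sum.inl h'), fun h' => i4 ?_⟩
  rw [opn_e_inl G h1 h2]
  exact congrArg Sum.inl h'

/-- Every connected graph with `n + 4` legs, `n ≥ 1`, is a graph with two opened edges. -/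
theorem exists_opn2' [Finite V] (T : Gr V (n + 2 + 2)) (hT : GConn T) (hn : 1 ≤ n) :
    ∃ (U : Type) (_ : Finite U) (G : Gr U n) (h k : U) (f : (U ⊕ Bool) ⊕ Bool ≃ V),
      k ≠ h ∧ k ≠ G.e h ∧ (opn2 G h k).map f = T := exists_opn2 T hT hn

theorem cy_of_opn2 {G : Gr V n} {h k : V} {R' : Set ((V ⊕ Bool) ⊕ Bool)} (h1 : k ≠ h)
    (h2 : k ≠ G.e h) (hR : SWT84.Cy (opn2 G h k) R') :
    ∃ R : Set V, R' = Sum.inl '' (Sum.inl '' R) ∧ SWT84.Cy G R ∧ h ∉ R ∧ G.e h ∉ R ∧ k ∉ R ∧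
      G.e k ∉ R := by
  obtain ⟨R1, e1, e2, e3, e4⟩ := cy_of_opn hR
  obtain ⟨R, e5, e6, e7, e8⟩ := cy_of_opn e2
  subst e5
  rw [opn_e_inl G h1 h2] at e4
  exact ⟨R, e1, e6, e7, e8, fun h' => e3 ⟨k, h', rfl⟩, fun h' => e4 ⟨_, h', rfl⟩⟩

theorem cy_opn2 {G : Gr V n} {h k : V} {R : Set V} (hR : SWT84.Cy G R) (hh : h ∉ R)
    (hk : k ∉ R) : SWT84.Cy (opn2 G h k) (Sum.inl '' (Sum.inl '' R)) := by
  refine cy_opn (cy_opn hR hh) ?_
  rw [Sum.inl_injective.mem_set_image]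
  exact hk

end Pool.Agent.SWT67
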