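import Mathlib
import Pool.Agent.SWT67.Opn4
import Pool.Agent.SWT65.Stmts

/-!
# A new leg at the ends of an opened edge

The sum of the values of the two graphs in which the new leg is attached next to one end and next to
the other end of an opened edge is zero, if the opened edge may be moved past the leg.
-/

set_option autoImplicit false

namespace Pool.Agent.SWT67

open Equiv Pool.Agent.SWT49 Pool.Agent.SWT80 Pool.Agent.SWT93 Pool.Agent.SWT65

variable {V W M : Type} {n : ℕ}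

/-! ### The edges of the special legs -/

section

variable {G : Gr V n} {h k : V}

theorem opn2_e_0 (h1 : k ≠ h) (h2 : k ≠ G.e h) :
    (opn2 G h k).e (Sum.inl (Sum.inr false)) = Sum.inl (Sum.inl h) := by
  rw [← opn2_e_h G h1 h2, (opn2 G h k).e2]

theorem opn2_e_1 (h1 : k ≠ h) (h2 : k ≠ G.e h) :
    (opn2 G h k).e (Sum.inl (Sum.inr true)) = Sum.inl (Sum.inl (G.e h)) := by
  rw [← opn2_e_eh G h1 h2, (opn2 G h k).e2]

theorem opn2_e_2 : (opn2 G h k).e (Sum.inr false) = Sum.inl (Sum.inl k) := by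
  rw [← opn2_e_k (G := G) (h := h), (opn2 G h k).e2]

theorem opn2_e_3 (h1 : k ≠ h) (h2 : k ≠ G.e h) :
    (opn2 G h k).e (Sum.inr true) = Sum.inl (Sum.inl (G.e k)) := by
  rw [← opn2_e_ek G h1 h2, (opn2 G h k).e2]

end

/-! ### A new leg on an edge -/

section

variable (G : Gr V n) (j : Fin (n + 1)) (h : V)

theorem add_e_h : (add G j h).e (Sum.inl h) = Sum.inr 0 := addE_h G h

theorem add_e_eh : (add G j h).e (Sum.inl (G.e h)) = Sum.inr 1 := addE_eh G h

theorem add_e_o {v : V} (h1 : v ≠ h) (h2 : v ≠ G.e h) :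
    (add G j h).e (Sum.inl v) = Sum.inl (G.e v) := addE_o G h1 h2

theorem add_e_0 : (add G j h).e (Sum.inr 0) = Sum.inl h := rfl

theorem add_e_1 : (add G j h).e (Sum.inr 1) = Sum.inl (G.e h) := rfl

theorem add_e_2 : (add G j h).e (Sum.inr 2) = Sum.inr 3 := rfl

theorem add_e_3 : (add G j h).e (Sum.inr 3) = Sum.inr 2 := rfl

theorem add_r (v : V) : (add G j h).r (Sum.inl v) = Sum.inl (G.r v) := rfl

theorem add_r_0 : (add G j h).r (Sum.inr 0) = Sum.inr 1 := rfl

theorem add_r_1 : (add G j h).r (Sum.inr 1) = Sum.inr 2 := rfl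

theorem add_r_2 : (add G j h).r (Sum.inr 2) = Sum.inr 0 := rfl

theorem add_r_3 : (add G j h).r (Sum.inr 3) = Sum.inr 3 := rfl

theorem add_leg_new : (add G j h).leg j = Sum.inr 3 := addL_new G j

theorem add_leg_old (i : Fin n) : (add G j h).leg (j.succAbove i) = Sum.inl (G.leg i) :=
  addL_old G j i

end

theorem fin4 {P : Fin 4 → Prop} (h0 : P 0) (h1 : P 1) (h2 : P 2) (h3 : P 3) (t : Fin 4) : P t := by
  fin_cases t
  · exact h0
  · exact h1
  · exact h2
  · exact h3

/-- Isomorphisms. -/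
theorem add_map (f : V ≃ W) (G : Gr V n) (j : Fin (n + 1)) (h : V) :
    (add G j h).map (Equiv.sumCongr f (Equiv.refl (Fin 4))) = add (G.map f) j (f h) := by
  refine Gr.map_eq ?_ ?_ ?_
  · rintro (v | t)
    · show (add (G.map f) j (f h)).e (Sum.inl (f v)) = _
      by_cases h1 : v = h
      · subst h1
        rw [add_e_h, add_e_h]
        rfl
      by_cases h2 : v = G.e h
      · subst h2
        rw [add_e_eh, ← Gr.map_e, add_e_eh]
        rfl
      rw [add_e_o G j h h1 h2, add_e_o, Gr.map_e]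
      · rfl
      · exact fun h' => h1 (f.injective h')
      · rw [Gr.map_e]
        exact fun h' => h2 (f.injective h')
    · revert t
      refine fin4 ?_ ?_ ?_ ?_
      · rfl
      · show Sum.inl ((G.map f).e (f h)) = Sum.inl (f (G.e h))
        rw [Gr.map_e]
      · rfl
      · rfl
  · rintro (v | t)
    · show Sum.inl ((G.map f).r (f v)) = Sum.inl (f (G.r v))
      rw [Gr.map_r]
    · revert t
      exact fin4 rfl rfl rfl rfl
  · intro i
    rcases Fin.eq_self_or_eq_succAbove j i with rfl | ⟨i, rfl⟩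
    · rw [add_leg_new, add_leg_new]
      rfl
    · rw [add_leg_old, add_leg_old]
      rfl

theorem gconn_add {G : Gr V n} (hG : GConn G) (j : Fin (n + 1)) (h : V) : GConn (add G j h) := by
  intro S hS hne
  have k0 : Sum.inl h ∈ S ↔ Sum.inr 0 ∈ S := by
    constructor
    · intro h1
      have h2 := hS.e _ h1
      rw [add_e_h] at h2
      exact h2
    · exact fun h1 => hS.e _ h1
  have k1 : Sum.inl (G.e h) ∈ S ↔ Sum.inr 1 ∈ S := by
    constructor
    · intro h1
      have h2 := hS.e _ h1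
      rw [add_e_eh] at h2
      exact h2
    · exact fun h1 => hS.e _ h1
  have k2 : Sum.inr 0 ∈ S → Sum.inr 1 ∈ S := fun h1 => hS.r _ h1
  have k3 : Sum.inr 1 ∈ S → Sum.inr 2 ∈ S := fun h1 => hS.r _ h1
  have k4 : Sum.inr 2 ∈ S → Sum.inr 0 ∈ S := fun h1 => hS.r _ h1
  have k5 : Sum.inr 2 ∈ S → Sum.inr 3 ∈ S := fun h1 => hS.e _ h1
  have k6 : Sum.inr 3 ∈ S → Sum.inr 2 ∈ S := fun h1 => hS.e _ h1
  have h1 : {v : V | Sum.inl v ∈ S} = Set.univ := by
    refine hG _ ⟨?_, fun v hv => hS.r _ hv⟩ ?_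
    · intro v hv
      by_cases h1 : v = h
      · subst h1
        exact k1.2 (k2 (k0.1 hv))
      by_cases h2 : v = G.e h
      · subst h2
        show Sum.inl (G.e (G.e h)) ∈ S
        rw [G.e2]
        exact k0.2 (k4 (k3 (k1.1 hv)))
      have h3 := hS.e _ hv
      rw [add_e_o G j h h1 h2] at h3
      exact h3
    · obtain ⟨w, hw⟩ := hne
      rcases w with v | t
      · exact ⟨v, hw⟩
      · refine ⟨h, ?_⟩
        show Sum.inl h ∈ S
        revert hw
        revert t
        exact fin4 k0.2 (fun h1 => k0.2 (k4 (k3 h1))) (fun h1 => k0.2 (k4 h1))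
          fun h1 => k0.2 (k4 (k6 h1))
  have h2 : ∀ v : V, Sum.inl v ∈ S := fun v => by
    have h3 : v ∈ {v : V | Sum.inl v ∈ S} := by
      rw [h1]
      exact Set.mem_univ v
    exact h3
  have h4 := k0.1 (h2 h)
  ext w
  refine ⟨fun _ => Set.mem_univ _, fun _ => ?_⟩
  rcases w with v | t
  · exact h2 v
  · exact fin4 (P := fun t => Sum.inr t ∈ S) h4 (k2 h4) (k3 (k2 h4)) (k5 (k3 (k2 h4))) t

theorem card_add [Finite V] : Nat.card (V ⊕ Fin 4) = Nat.card V + 4 := by
  rw [Nat.card_sum, Nat.card_fin]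

theorem one_add [Finite V] {G : Gr V n} (hG : One G) (j : Fin (n + 1)) (h : V) :
    One (add G j h) :=
  ⟨gconn_add hG.conn j h, by rw [card_add, hG.card]; omega⟩

/-- The exchange of the two ends of the edge with the new leg. -/
theorem add_eh (G : Gr V n) (j : Fin (n + 1)) (h : V) :
    ((add G j h).flip (Sum.inr 0)).map (Equiv.sumCongr (Equiv.refl V) (Equiv.swap 0 1)) =
      add G j (G.e h) := by
  have hin : ∀ t : Fin 4, t ≠ 3 → (add G j h).vt (Sum.inr 0) (Sum.inr t) := by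
    refine fin4 ?_ ?_ ?_ ?_
    · exact fun _ => Or.inl rfl
    · exact fun _ => Or.inr (Or.inl rfl)
    · exact fun _ => Or.inr (Or.inr rfl)
    · exact fun h1 => absurd rfl h1
  have s0 : (Equiv.swap (0 : Fin 4) 1) 0 = 1 := by decide
  have s1 : (Equiv.swap (0 : Fin 4) 1) 1 = 0 := by decide
  have s2 : (Equiv.swap (0 : Fin 4) 1) 2 = 2 := by decide
  have s3 : (Equiv.swap (0 : Fin 4) 1) 3 = 3 := by decide
  refine Gr.map_eq ?_ ?_ ?_
  · rintro (v | t)
    · show (add G j (G.e h)).e (Sum.inl v) = _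
      rw [Gr.flip_e]
      by_cases h1 : v = h
      · subst h1
        rw [add_e_h]
        show _ = Sum.inr ((Equiv.swap (0 : Fin 4) 1) 0)
        rw [s0]
        have h2 := add_e_eh G j (G.e v)
        rw [G.e2] at h2
        exact h2
      by_cases h2 : v = G.e h
      · subst h2
        rw [add_e_eh]
        show _ = Sum.inr ((Equiv.swap (0 : Fin 4) 1) 1)
        rw [s1]
        exact add_e_h G j (G.e h)
      rw [add_e_o G j h h1 h2, add_e_o G j (G.e h) h2 (by rw [G.e2]; exact h1)]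
      rfl
    · show (add G j (G.e h)).e (Sum.inr ((Equiv.swap (0 : Fin 4) 1) t)) = _
      rw [Gr.flip_e]
      revert t
      refine fin4 ?_ ?_ ?_ ?_
      · rw [s0]
        show Sum.inl (G.e (G.e h)) = Sum.inl h
        rw [G.e2]
      · rw [s1]
        rfl
      · rw [s2]
        show _ = Sum.inr ((Equiv.swap (0 : Fin 4) 1) 3)
        rw [s3]
        rfl
      · rw [s3]
        show _ = Sum.inr ((Equiv.swap (0 : Fin 4) 1) 2)
        rw [s2]
        rfl
  · rintro (v | t)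
    · show Sum.inl (G.r v) = _
      rw [Gr.flip_r, Gr.fr_neg]
      · rfl
      · rintro (h1 | h1 | h1)
        · cases h1
        · rw [add_r_0] at h1
          cases h1
        · rw [add_r_0, add_r_1] at h1
          cases h1
    · show (add G j (G.e h)).r (Sum.inr ((Equiv.swap (0 : Fin 4) 1) t)) = _
      rw [Gr.flip_r]
      revert t
      refine fin4 ?_ ?_ ?_ ?_
      · rw [s0, Gr.fr_pos (hin 0 (by decide)), add_r_0, add_r_1, add_r_1]
        show _ = Sum.inr ((Equiv.swap (0 : Fin 4) 1) 2)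
        rw [s2]
      · rw [s1, Gr.fr_pos (hin 1 (by decide)), add_r_1, add_r_2, add_r_0]
        show _ = Sum.inr ((Equiv.swap (0 : Fin 4) 1) 0)
        rw [s0]
      · rw [s2, Gr.fr_pos (hin 2 (by decide)), add_r_2, add_r_2, add_r_0]
        show _ = Sum.inr ((Equiv.swap (0 : Fin 4) 1) 1)
        rw [s1]
      · rw [s3, Gr.fr_neg, add_r_3, add_r_3]
        · show _ = Sum.inr ((Equiv.swap (0 : Fin 4) 1) 3)
          rw [s3]
        · rintro (h1 | h1 | h1)
          · exact absurd (Sum.inr.inj h1) (by decide)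
          · rw [add_r_0] at h1
            exact absurd (Sum.inr.inj h1) (by decide)
          · rw [add_r_0, add_r_1] at h1
            exact absurd (Sum.inr.inj h1) (by decide)
  · intro i
    rw [Gr.flip_leg]
    rcases Fin.eq_self_or_eq_succAbove j i with rfl | ⟨i, rfl⟩
    · rw [add_leg_new, add_leg_new]
      show _ = Sum.inr ((Equiv.swap (0 : Fin 4) 1) 3)
      rw [s3]
    · rw [add_leg_old, add_leg_old]
      rfl

/-- The new leg on the other side of the edge. -/
theorem add_neg [AddCommGroup M] {F : (V : Type) → Gr V (n + 1) → M} (hF : Rel F) [Finite V]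
    (G : Gr V n) (j : Fin (n + 1)) (h : V) : F _ (add G j (G.e h)) = - F _ (add G j h) := by
  rw [← add_eh, hF.iso, hF.as]
  rw [add_r_0]
  exact fun h1 => absurd (Sum.inr.inj h1) (by decide)

/-! ### The new leg and the opened edges -/

/-- The rearrangement of the half-edges. -/
def rr (U : Type) : ((U ⊕ Bool) ⊕ Bool) ⊕ Fin 4 ≃ ((U ⊕ Fin 4) ⊕ Bool) ⊕ Bool where
  toFun
    | Sum.inl (Sum.inl (Sum.inl u)) => Sum.inl (Sum.inl (Sum.inl u))
    | Sum.inl (Sum.inl (Sum.inr t)) => Sum.inl (Sum.inr t)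
    | Sum.inl (Sum.inr t) => Sum.inr t
    | Sum.inr a => Sum.inl (Sum.inl (Sum.inr a))
  invFun
    | Sum.inl (Sum.inl (Sum.inl u)) => Sum.inl (Sum.inl (Sum.inl u))
    | Sum.inl (Sum.inr t) => Sum.inl (Sum.inl (Sum.inr t))
    | Sum.inr t => Sum.inl (Sum.inr t)
    | Sum.inl (Sum.inl (Sum.inr a)) => Sum.inr a
  left_inv := by rintro (((u | t) | t) | a) <;> rfl
  right_inv := by rintro (((u | a) | t) | t) <;> rfl

section

variable (G : Gr V n)

/-- The legs. -/
theorem rr_leg (x : (V ⊕ Bool) ⊕ Bool) (y b a : V) (u : V ⊕ Fin 4) (i : Fin (n + 2 + 2 + 1)) :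
    (opn2 (add G 0 y) (Sum.inl b) u).leg i = rr V ((add (opn2 G b a) 0 x).leg i) := by
  rcases Fin.eq_zero_or_eq_succ i with rfl | ⟨i, rfl⟩
  · rw [add_leg_new]
    have h1 := opn2_leg_l (add G 0 y) (h := Sum.inl b) (k := u) 0
    rw [add_leg_new] at h1
    exact h1
  · have h2 : (Fin.succ i : Fin (n + 2 + 2 + 1)) = Fin.succAbove 0 i := by
      rw [Fin.succAbove_zero]
    have h3 : (add (opn2 G b a) 0 x).leg (Fin.succ i) = Sum.inl ((opn2 G b a).leg i) := by
      rw [h2, add_leg_old]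
    rw [h3]
    clear h3 h2
    revert i
    refine leg_cases (n := n + 2) (leg_cases (n := n) ?_ ?_ ?_) ?_ ?_
    · intro i
      rw [opn2_leg_l]
      have h1 := opn2_leg_l (add G 0 y) (h := Sum.inl b) (k := u) (Fin.succ i)
      have h3 := add_leg_old G 0 y i
      rw [Fin.succAbove_zero] at h3
      rw [h3] at h1
      exact h1
    · rw [opn2_leg_0]
      have h1 := opn2_leg_0 (add G 0 y) (h := Sum.inl b) (k := u)
      refine Eq.trans ?_ h1
      congr 1
    · rw [opn2_leg_1]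
      have h1 := opn2_leg_1 (add G 0 y) (h := Sum.inl b) (k := u)
      refine Eq.trans ?_ h1
      congr 1
    · rw [opn2_leg_2]
      have h1 := opn2_leg_2 (add G 0 y) (h := Sum.inl b) (k := u)
      refine Eq.trans ?_ h1
      congr 1
    · rw [opn2_leg_3]
      have h1 := opn2_leg_3 (add G 0 y) (h := Sum.inl b) (k := u)
      refine Eq.trans ?_ h1
      congr 1

/-- It is enough to look at one half of every edge. -/
theorem half_e {G : Gr V n} {G' : Gr W n} {f : V ≃ W} {v : V} (h : G'.e (f v) = f (G.e v)) :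
    G'.e (f (G.e v)) = f (G.e (G.e v)) := by
  rw [← h, G'.e2, G.e2]

theorem rr_r (x : (V ⊕ Bool) ⊕ Bool) (y b a : V) (u : V ⊕ Fin 4)
    (w : ((V ⊕ Bool) ⊕ Bool) ⊕ Fin 4) :
    (opn2 (add G 0 y) (Sum.inl b) u).r (rr V w) = rr V ((add (opn2 G b a) 0 x).r w) := by
  rcases w with ((v | t) | t) | t
  · rfl
  · rfl
  · rfl
  · revert t
    exact fin4 rfl rfl rfl rfl

end

section

variable (G : Gr V n) {h k : V}

/-- The leg is next to the end of the first special leg. -/
theorem rr_one (h1 : k ≠ h) (h2 : k ≠ G.e h) :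
    (add (opn2 G h (G.e k)) 0 (Sum.inr false)).map (rr V) =
      opn2 (add G 0 k) (Sum.inl h) (Sum.inr 0) := by
  have n1 : G.e k ≠ h := fun h' => h2 (by rw [← h', G.e2])
  have n2 : G.e k ≠ G.e h := fun h' => h1 (G.e_inj h')
  have m1 : (Sum.inr 0 : V ⊕ Fin 4) ≠ Sum.inl h := Sum.inr_ne_inl
  have e1 : (add G 0 k).e (Sum.inl h) = Sum.inl (G.e h) :=
    add_e_o G 0 k (fun h' => h1 h'.symm) (fun h' => n1 h'.symm)
  have m2 : (Sum.inr 0 : V ⊕ Fin 4) ≠ (add G 0 k).e (Sum.inl h) := by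
    rw [e1]
    exact Sum.inr_ne_inl
  have e3 : (opn2 G h (G.e k)).e (Sum.inr false) = Sum.inl (Sum.inl (G.e k)) := opn2_e_2
  have so : ∀ v, v ≠ G.e k → (add (opn2 G h (G.e k)) 0 (Sum.inr false)).e
      (Sum.inl (Sum.inl (Sum.inl v))) =
        Sum.inl ((opn2 G h (G.e k)).e (Sum.inl (Sum.inl v))) := fun v hv =>
    add_e_o (opn2 G h (G.e k)) 0 (Sum.inr false) Sum.inl_ne_inr
      (by rw [e3]; exact fun h' => hv (Sum.inl.inj (Sum.inl.inj h')))
  have sh : (add (opn2 G h (G.e k)) 0 (Sum.inr false)).e (Sum.inl (Sum.inl (Sum.inl h))) =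
      Sum.inl (Sum.inl (Sum.inr false)) := by
    rw [so _ n1.symm, opn2_e_h _ n1 n2]
  have seh : (add (opn2 G h (G.e k)) 0 (Sum.inr false)).e (Sum.inl (Sum.inl (Sum.inl (G.e h)))) =
      Sum.inl (Sum.inl (Sum.inr true)) := by
    rw [so _ n2.symm, opn2_e_eh _ n1 n2]
  have sk : (add (opn2 G h (G.e k)) 0 (Sum.inr false)).e (Sum.inl (Sum.inl (Sum.inl k))) =
      Sum.inl (Sum.inr true) := by
    have h4 := opn2_e_ek _ n1 n2
    rw [G.e2] at h4
    rw [so _ (G.e1 k).symm, h4]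
  have sek : (add (opn2 G h (G.e k)) 0 (Sum.inr false)).e (Sum.inl (Sum.inl (Sum.inl (G.e k)))) =
      Sum.inr 1 := by
    have h3 := add_e_eh (opn2 G h (G.e k)) 0 (Sum.inr false)
    rw [e3] at h3
    exact h3
  refine Gr.map_eq ?_ (rr_r G _ _ _ _ _) (rr_leg G _ _ _ _ _)
  have key : ∀ v : V, (opn2 (add G 0 k) (Sum.inl h) (Sum.inr 0)).e
      (rr V (Sum.inl (Sum.inl (Sum.inl v)))) =
        rr V ((add (opn2 G h (G.e k)) 0 (Sum.inr false)).e (Sum.inl (Sum.inl (Sum.inl v)))) := by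
    intro v
    show (opn2 (add G 0 k) (Sum.inl h) (Sum.inr 0)).e (Sum.inl (Sum.inl (Sum.inl v))) = _
    by_cases k1 : v = G.e k
    · subst k1
      rw [sek, opn2_e_o _ m1 m2, add_e_eh]
      · rfl
      · exact fun h' => n1 (Sum.inl.inj h')
      · rw [e1]
        exact fun h' => n2 (Sum.inl.inj h')
      · exact Sum.inl_ne_inr
      · show Sum.inl (G.e k) ≠ Sum.inl k
        exact fun h' => G.e1 k (Sum.inl.inj h')
    by_cases k2 : v = h
    · subst k2
      rw [sh, opn2_e_h _ m1 m2]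
      rfl
    by_cases k3 : v = G.e h
    · subst k3
      rw [seh]
      have h3 := opn2_e_eh _ m1 m2
      rw [e1] at h3
      exact h3
    by_cases k4 : v = k
    · subst k4
      rw [sk]
      exact opn2_e_ek _ m1 m2
    rw [so _ k1, opn2_e_o _ m1 m2, add_e_o, opn2_e_o _ n1 n2 k2 k3 k1]
    · rfl
    · rw [G.e2]
      exact k4
    · exact k4
    · exact k1
    · exact fun h' => k2 (Sum.inl.inj h')
    · rw [e1]
      exact fun h' => k3 (Sum.inl.inj h')
    · exact Sum.inl_ne_inr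
    · show Sum.inl v ≠ Sum.inl k
      exact fun h' => k4 (Sum.inl.inj h')
  have kf : (opn2 (add G 0 k) (Sum.inl h) (Sum.inr 0)).e (rr V (Sum.inl (Sum.inr false))) =
      rr V ((add (opn2 G h (G.e k)) 0 (Sum.inr false)).e (Sum.inl (Sum.inr false))) := by
    rw [add_e_h]
    exact opn2_e_2
  have k2 : (opn2 (add G 0 k) (Sum.inl h) (Sum.inr 0)).e (rr V (Sum.inr 2)) =
      rr V ((add (opn2 G h (G.e k)) 0 (Sum.inr false)).e (Sum.inr 2)) := by
    rw [add_e_2]
    show (opn2 (add G 0 k) (Sum.inl h) (Sum.inr 0)).e (Sum.inl (Sum.inl (Sum.inr 2))) =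
      Sum.inl (Sum.inl (Sum.inr 3))
    rw [opn2_e_o _ m1 m2, add_e_2]
    · exact Sum.inr_ne_inl
    · rw [e1]
      exact Sum.inr_ne_inl
    · exact fun h' => absurd (Sum.inr.inj h') (by decide)
    · exact Sum.inr_ne_inl
  rintro (((v | t) | t) | t)
  · exact key v
  · cases t
    · have h3 := half_e (key h)
      rw [sh] at h3
      exact h3
    · have h3 := half_e (key (G.e h))
      rw [seh] at h3
      exact h3
  · cases t
    · exact kf
    · have h3 := half_e (key k)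
      rw [sk] at h3
      exact h3
  · revert t
    refine fin4 ?_ ?_ k2 (half_e k2)
    · have h3 := half_e kf
      rw [add_e_h] at h3
      exact h3
    · have h3 := half_e (key (G.e k))
      rw [sek] at h3
      exact h3

/-- The leg is next to the end of the second special leg. -/
theorem rr_two (h1 : k ≠ h) (h2 : k ≠ G.e h) :
    (add (opn2 G h (G.e k)) 0 (Sum.inl (Sum.inl k))).map (rr V) =
      opn2 (add G 0 k) (Sum.inl h) (Sum.inl (G.e k)) := by
  have n1 : G.e k ≠ h := fun h' => h2 (by rw [← h', G.e2])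
  have n2 : G.e k ≠ G.e h := fun h' => h1 (G.e_inj h')
  have m1 : (Sum.inl (G.e k) : V ⊕ Fin 4) ≠ Sum.inl h := fun h' => n1 (Sum.inl.inj h')
  have e1 : (add G 0 k).e (Sum.inl h) = Sum.inl (G.e h) :=
    add_e_o G 0 k (fun h' => h1 h'.symm) (fun h' => n1 h'.symm)
  have m2 : (Sum.inl (G.e k) : V ⊕ Fin 4) ≠ (add G 0 k).e (Sum.inl h) := by
    rw [e1]
    exact fun h' => n2 (Sum.inl.inj h')
  have e2 : (add G 0 k).e (Sum.inl (G.e k)) = Sum.inr 1 := add_e_eh _ _ _
  have e3 : (opn2 G h (G.e k)).e (Sum.inl (Sum.inl k)) = Sum.inr true := by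
    have h4 := opn2_e_ek _ n1 n2
    rw [G.e2] at h4
    exact h4
  have so : ∀ v, v ≠ k → (add (opn2 G h (G.e k)) 0 (Sum.inl (Sum.inl k))).e
      (Sum.inl (Sum.inl (Sum.inl v))) =
        Sum.inl ((opn2 G h (G.e k)).e (Sum.inl (Sum.inl v))) := fun v hv =>
    add_e_o (opn2 G h (G.e k)) 0 (Sum.inl (Sum.inl k))
      (fun h' => hv (Sum.inl.inj (Sum.inl.inj h'))) (by rw [e3]; exact Sum.inl_ne_inr)
  have sh : (add (opn2 G h (G.e k)) 0 (Sum.inl (Sum.inl k))).e (Sum.inl (Sum.inl (Sum.inl h))) =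
      Sum.inl (Sum.inl (Sum.inr false)) := by
    rw [so _ h1.symm, opn2_e_h _ n1 n2]
  have seh : (add (opn2 G h (G.e k)) 0 (Sum.inl (Sum.inl k))).e
      (Sum.inl (Sum.inl (Sum.inl (G.e h)))) = Sum.inl (Sum.inl (Sum.inr true)) := by
    rw [so _ h2.symm, opn2_e_eh _ n1 n2]
  have sek : (add (opn2 G h (G.e k)) 0 (Sum.inl (Sum.inl k))).e
      (Sum.inl (Sum.inl (Sum.inl (G.e k)))) = Sum.inl (Sum.inr false) := by
    rw [so _ (G.e1 k), opn2_e_k]
  have sk : (add (opn2 G h (G.e k)) 0 (Sum.inl (Sum.inl k))).e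
      (Sum.inl (Sum.inl (Sum.inl k))) = Sum.inr 0 := add_e_h _ _ _
  refine Gr.map_eq ?_ (rr_r G _ _ _ _ _) (rr_leg G _ _ _ _ _)
  have key : ∀ v : V, (opn2 (add G 0 k) (Sum.inl h) (Sum.inl (G.e k))).e
      (rr V (Sum.inl (Sum.inl (Sum.inl v)))) =
        rr V ((add (opn2 G h (G.e k)) 0 (Sum.inl (Sum.inl k))).e
          (Sum.inl (Sum.inl (Sum.inl v)))) := by
    intro v
    show (opn2 (add G 0 k) (Sum.inl h) (Sum.inl (G.e k))).e (Sum.inl (Sum.inl (Sum.inl v))) = _
    by_cases k1 : v = G.e k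
    · subst k1
      rw [sek, opn2_e_k]
      rfl
    by_cases k2 : v = h
    · subst k2
      rw [sh, opn2_e_h _ m1 m2]
      rfl
    by_cases k3 : v = G.e h
    · subst k3
      rw [seh]
      have h3 := opn2_e_eh _ m1 m2
      rw [e1] at h3
      exact h3
    by_cases k4 : v = k
    · subst k4
      rw [sk, opn2_e_o _ m1 m2, add_e_h]
      · rfl
      · exact fun h' => h1 (Sum.inl.inj h')
      · rw [e1]
        exact fun h' => h2 (Sum.inl.inj h')
      · exact fun h' => G.e1 _ (Sum.inl.inj h').symm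
      · rw [e2]
        exact Sum.inl_ne_inr
    rw [so _ k4, opn2_e_o _ m1 m2, add_e_o _ _ _ k4 k1, opn2_e_o _ n1 n2 k2 k3 k1]
    · rfl
    · rw [G.e2]
      exact k4
    · exact fun h' => k2 (Sum.inl.inj h')
    · rw [e1]
      exact fun h' => k3 (Sum.inl.inj h')
    · exact fun h' => k1 (Sum.inl.inj h')
    · rw [e2]
      exact Sum.inl_ne_inr
  have kf : (opn2 (add G 0 k) (Sum.inl h) (Sum.inl (G.e k))).e (rr V (Sum.inl (Sum.inr true))) =
      rr V ((add (opn2 G h (G.e k)) 0 (Sum.inl (Sum.inl k))).e (Sum.inl (Sum.inr true))) := by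
    have h3 := add_e_eh (opn2 G h (G.e k)) 0 (Sum.inl (Sum.inl k))
    rw [e3] at h3
    rw [h3]
    have h4 := opn2_e_3 m1 m2
    rw [e2] at h4
    exact h4
  have k2 : (opn2 (add G 0 k) (Sum.inl h) (Sum.inl (G.e k))).e (rr V (Sum.inr 2)) =
      rr V ((add (opn2 G h (G.e k)) 0 (Sum.inl (Sum.inl k))).e (Sum.inr 2)) := by
    rw [add_e_2]
    show (opn2 (add G 0 k) (Sum.inl h) (Sum.inl (G.e k))).e (Sum.inl (Sum.inl (Sum.inr 2))) =
      Sum.inl (Sum.inl (Sum.inr 3))
    rw [opn2_e_o _ m1 m2, add_e_2]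
    · exact Sum.inr_ne_inl
    · rw [e1]
      exact Sum.inr_ne_inl
    · exact Sum.inr_ne_inl
    · rw [e2]
      exact fun h' => absurd (Sum.inr.inj h') (by decide)
  rintro (((v | t) | t) | t)
  · exact key v
  · cases t
    · have h3 := half_e (key h)
      rw [sh] at h3
      exact h3
    · have h3 := half_e (key (G.e h))
      rw [seh] at h3
      exact h3
  · cases t
    · have h3 := half_e (key (G.e k))
      rw [sek] at h3
      exact h3
    · exact kf
  · revert t
    refine fin4 ?_ ?_ k2 (half_e k2)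
    · have h3 := half_e (key k)
      rw [sk] at h3
      exact h3
    · have h3 := half_e kf
      have h4 := add_e_eh (opn2 G h (G.e k)) 0 (Sum.inl (Sum.inl k))
      rw [e3] at h4
      rw [h4] at h3
      exact h3

end

/-- The opened edge is moved past the new leg. -/
theorem tv_add [AddCommGroup M] (W : (V : Type) → Gr V (n + 1 + 2 + 2) → M) (hW : Rel W)
    (tv : ∀ (V : Type) [Finite V] (G : Gr V (n + 1)) (h x y z : V),
      (y = G.r x ∧ z = G.r (G.r x) ∨ z = G.r x ∧ y = G.r (G.r x)) → (∃ i, G.e z = G.leg i) →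
      One (opn2 G h x) → W _ (opn2 G h x) = W _ (opn2 G h (G.e y)))
    {V : Type} [Finite V] (K : Gr V (n + 2 + 2)) (hK : One K) (hn : 1 ≤ n) :
    W _ (add K 0 (K.e (K.leg (Fin.natAdd (n + 2) 0)))) +
      W _ (add K 0 (K.e (K.leg (Fin.natAdd (n + 2) 1)))) = 0 := by
  obtain ⟨U, hU, G, h, k0, f, h1, h2, rfl⟩ := exists_opn2' K hK.conn hn
  obtain ⟨k, rfl⟩ : ∃ k, k0 = G.e k := ⟨G.e k0, (G.e2 k0).symm⟩
  have n1 : k ≠ h := fun h' => h2 (by rw [h'])
  have n2 : k ≠ G.e h := fun h' => h1 (by rw [h', G.e2])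
  have hK' : One (opn2 G h (G.e k)) := by
    refine ⟨gconn_of_map hK.conn, ?_⟩
    rw [← hK.card]
    exact Nat.card_congr f
  have a1 : W _ (add ((opn2 G h (G.e k)).map f) 0 (((opn2 G h (G.e k)).map f).e
      (((opn2 G h (G.e k)).map f).leg (Fin.natAdd (n + 2) 0)))) =
        - W _ (opn2 (add G 0 k) (Sum.inl h) (Sum.inr 0)) := by
    rw [← rr_one G n1 n2, hW.iso, Gr.map_leg, opn2_leg_2, Gr.map_e, ← add_map, hW.iso]
    exact add_neg (n := n + 2 + 2) hW _ _ _
  have a2 : W _ (add ((opn2 G h (G.e k)).map f) 0 (((opn2 G h (G.e k)).map f).e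
      (((opn2 G h (G.e k)).map f).leg (Fin.natAdd (n + 2) 1)))) =
        W _ (opn2 (add G 0 k) (Sum.inl h) (Sum.inl (G.e k))) := by
    rw [← rr_two G n1 n2, hW.iso, Gr.map_leg, opn2_leg_3, Gr.map_e, ← add_map, hW.iso,
      opn2_e_3 h1 h2, G.e2]
  rw [a1, a2]
  have a3 := tv _ (add G 0 k) (Sum.inl h) (Sum.inr 0) (Sum.inr 1) (Sum.inr 2)
    (Or.inl ⟨rfl, rfl⟩) ⟨0, by rw [add_leg_new]; rfl⟩ (by
      rw [← rr_one G n1 n2]
      have h3 := one_add hK' 0 (Sum.inr false)
      exact ⟨gconn_map h3.conn _, by rw [← Nat.card_congr (rr U)]; exact h3.card⟩)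
  rw [a3]
  exact neg_add_cancel _

end Pool.Agent.SWT67

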