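import Mathlib
import Pool.Agent.SWT67.TvAdd
import Pool.Agent.SWT36.LocShape

/-!
# A new leg on the three edges at a vertex

The sum of the values of the three graphs in which the new leg is attached to one of the three
edges at a vertex is zero.
-/

set_option autoImplicit false

namespace Pool.Agent.SWT67

open Equiv Pool.Agent.SWT49 Pool.Agent.SWT80 Pool.Agent.SWT93 Pool.Agent.SWT65

variable {V W M : Type} {n : ℕ}

section

variable (G : Gr V n) (j : Fin (n + 1)) {h : V}

/-- The six half-edges. -/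
theorem vt_ne (hh : G.r h ≠ h) : G.r (G.r h) ≠ h ∧ G.r (G.r h) ≠ G.r h :=
  ⟨fun h' => hh (G.r2 h'), fun h' => hh (G.r_inj h')⟩

theorem add_vt_new {h u : V} (t : Fin 4) : ¬ (add G j h).vt (Sum.inl u) (Sum.inr t) := by
  rintro (h1 | h1 | h1)
  · cases h1
  · rw [add_r] at h1
    cases h1
  · rw [add_r, add_r] at h1
    cases h1

theorem add_vt_old {h u : V} : ¬ (add G j h).vt (Sum.inr 0) (Sum.inl u) := by
  rintro (h1 | h1 | h1)
  · cases h1
  · rw [add_r_0] at h1
    cases h1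
  · rw [add_r_0, add_r_1] at h1
    cases h1

theorem add_vt_inl {h u v : V} : (add G j h).vt (Sum.inl u) (Sum.inl v) ↔ G.vt u v := by
  constructor
  · rintro (h1 | h1 | h1)
    · exact Or.inl (Sum.inl.inj h1)
    · exact Or.inr (Or.inl (Sum.inl.inj h1))
    · exact Or.inr (Or.inr (Sum.inl.inj h1))
  · rintro (h1 | h1 | h1)
    · exact Or.inl (congrArg Sum.inl h1)
    · exact Or.inr (Or.inl (congrArg Sum.inl h1))
    · exact Or.inr (Or.inr (congrArg Sum.inl h1))

theorem add_vt_3 {h : V} : ¬ (add G j h).vt (Sum.inr 0) (Sum.inr 3) := by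
  rintro (h1 | h1 | h1)
  · exact absurd (Sum.inr.inj h1) (by decide)
  · rw [add_r_0] at h1
    exact absurd (Sum.inr.inj h1) (by decide)
  · rw [add_r_0, add_r_1] at h1
    exact absurd (Sum.inr.inj h1) (by decide)

theorem add_vt_in {h : V} {t : Fin 4} (ht : t ≠ 3) : (add G j h).vt (Sum.inr 0) (Sum.inr t) := by
  refine fin4 (P := fun t => t ≠ 3 → (add G j h).vt (Sum.inr 0) (Sum.inr t)) ?_ ?_ ?_ ?_ t ht
  · exact fun _ => Or.inl rfl
  · exact fun _ => Or.inr (Or.inl rfl)
  · exact fun _ => Or.inr (Or.inr rfl)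
  · exact fun h1 => absurd rfl h1

theorem add_ok (hh : G.r h ≠ h) : Gr.Ok (add G j h) (Sum.inr 0) := by
  refine ⟨?_, ?_, ?_, ?_⟩
  · rw [add_r_0]
    exact fun h1 => absurd (Sum.inr.inj h1) (by decide)
  · rw [add_e_0, add_r]
    exact fun h1 => hh (Sum.inl.inj h1)
  · rw [add_e_0, add_r_0]
    exact Sum.inl_ne_inr
  · rw [add_e_0, add_r_0, add_r_1]
    exact Sum.inl_ne_inr

theorem flip_r_in {x v : V} (hv : G.vt x v) : (G.flip x).r v = G.r (G.r v) := Gr.fr_pos hv

theorem flip_r_out {x v : V} (hv : ¬ G.vt x v) : (G.flip x).r v = G.r v := Gr.fr_neg hv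

end

section

variable {G : Gr V n} {j : Fin (n + 1)} {h : V} {J X : Gr (V ⊕ Fin 4) (n + 1)}

open Classical in
/-- The second graph of the relation is the graph with the leg on the next edge, with the new vertex
reversed. -/
theorem sum_J (hh : G.r h ≠ h) (hl : ∀ u v, G.vt h u → G.vt h v → G.e u ≠ v)
    (hL : Gr.Loc (add G j h) J X (Sum.inr 0)) :
    J.map (Equiv.swap (Sum.inr 1) (Sum.inl h) * Equiv.swap (Sum.inl h) (Sum.inl (G.r h))) =
      (add G j (G.r h)).flip (Sum.inr 0) := by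
  obtain ⟨d1, d2⟩ := vt_ne G hh
  set ψ : Perm (V ⊕ Fin 4) :=
    Equiv.swap (Sum.inr 1) (Sum.inl h) * Equiv.swap (Sum.inl h) (Sum.inl (G.r h)) with hψ
  have v0 : G.vt h h := Or.inl rfl
  have v1 : G.vt h (G.r h) := Or.inr (Or.inl rfl)
  have v2 : G.vt h (G.r (G.r h)) := Or.inr (Or.inr rfl)
  have p1 : ψ (Sum.inr 1) = Sum.inl h := by
    rw [hψ, Perm.mul_apply]
    rw [swap_apply_of_ne_of_ne Sum.inr_ne_inl Sum.inr_ne_inl, swap_apply_left]
  have p2 : ψ (Sum.inl h) = Sum.inl (G.r h) := by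
    rw [hψ, Perm.mul_apply]
    rw [swap_apply_left, swap_apply_of_ne_of_ne Sum.inl_ne_inr fun h' => hh (Sum.inl.inj h')]
  have p3 : ψ (Sum.inl (G.r h)) = Sum.inr 1 := by
    rw [hψ, Perm.mul_apply]
    rw [swap_apply_right, swap_apply_right]
  have po : ∀ v, v ≠ h → v ≠ G.r h → ψ (Sum.inl v) = Sum.inl v := by
    intro v q1 q2
    rw [hψ, Perm.mul_apply]
    rw [swap_apply_of_ne_of_ne (fun h' => q1 (Sum.inl.inj h')) fun h' => q2 (Sum.inl.inj h'),
      swap_apply_of_ne_of_ne Sum.inl_ne_inr fun h' => q1 (Sum.inl.inj h')]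
  have pr : ∀ t : Fin 4, t ≠ 1 → ψ (Sum.inr t) = Sum.inr t := by
    intro t q1
    rw [hψ, Perm.mul_apply]
    rw [swap_apply_of_ne_of_ne Sum.inr_ne_inl Sum.inr_ne_inl,
      swap_apply_of_ne_of_ne (fun h' => q1 (Sum.inr.inj h')) Sum.inr_ne_inl]
  have eJ : ∀ v, J.e v = (add G j h).e v := fun v => by rw [hL.eJ]
  have n1 : G.e h ≠ G.r h := hl _ _ v0 v1
  have n2 : G.e (G.r h) ≠ h := hl _ _ v1 v0
  have half : ∀ v, ((add G j (G.r h)).flip (Sum.inr 0)).e (ψ v) = ψ (J.e v) →
      ((add G j (G.r h)).flip (Sum.inr 0)).e (ψ (J.e v)) = ψ (J.e (J.e v)) := by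
    intro v hv
    rw [← hv, Gr.e2, J.e2]
  have k0 : ((add G j (G.r h)).flip (Sum.inr 0)).e (ψ (Sum.inl h)) = ψ (J.e (Sum.inl h)) := by
    rw [p2, eJ, add_e_h, pr 0 (by decide)]
    exact add_e_h G j (G.r h)
  have k1 : ((add G j (G.r h)).flip (Sum.inr 0)).e (ψ (Sum.inl (G.r h))) =
      ψ (J.e (Sum.inl (G.r h))) := by
    rw [p3, eJ, add_e_o _ _ _ hh (fun h' => n1 h'.symm), po _ n2 (G.e1 _)]
    rfl
  have k2 : ((add G j (G.r h)).flip (Sum.inr 0)).e (ψ (Sum.inl (G.e h))) =
      ψ (J.e (Sum.inl (G.e h))) := by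
    rw [po _ (G.e1 h) n1, eJ, add_e_eh, p1]
    show (add G j (G.r h)).e (Sum.inl (G.e h)) = _
    rw [add_e_o _ _ _ n1 (fun h' => hh (G.e_inj h').symm), G.e2]
  have k3 : ((add G j (G.r h)).flip (Sum.inr 0)).e (ψ (Sum.inr 2)) = ψ (J.e (Sum.inr 2)) := by
    rw [pr 2 (by decide), eJ, add_e_2, pr 3 (by decide)]
    rfl
  refine Gr.map_eq ?_ ?_ ?_
  · rintro (v | t)
    · by_cases q1 : v = h
      · rw [q1]
        exact k0
      by_cases q2 : v = G.r h
      · rw [q2]
        exact k1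
      by_cases q3 : v = G.e h
      · rw [q3]
        exact k2
      by_cases q4 : v = G.e (G.r h)
      · have h1 := half _ k1
        rw [eJ, add_e_o _ _ _ hh (fun h' => n1 h'.symm)] at h1
        rw [q4]
        exact h1
      rw [po v q1 q2, eJ, add_e_o _ _ _ q1 q3, po]
      · exact add_e_o G j (G.r h) q2 q4
      · exact fun h' => q3 (by rw [← h', G.e2])
      · exact fun h' => q4 (by rw [← h', G.e2])
    · revert t
      refine fin4 ?_ ?_ k3 ?_
      · have h1 := half _ k0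
        rw [eJ, add_e_h] at h1
        exact h1
      · have h1 := half _ k2
        rw [eJ, add_e_eh] at h1
        exact h1
      · have h1 := half _ k3
        rw [eJ, add_e_2] at h1
        exact h1
  · have j1 := hL.j1
    have j2 := hL.j2
    have j3 := hL.j3
    have j4 := hL.j4
    have j5 := hL.j5
    have j6 := hL.j6
    rw [add_r_0, add_r_1] at j1
    rw [add_r_0, add_r_1, add_e_0, add_r] at j2
    rw [add_e_0, add_r] at j3
    rw [add_e_0, add_r, add_r] at j4
    rw [add_e_0, add_r, add_r, add_r_0] at j5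
    rw [add_e_0, add_r_0] at j6
    rintro (v | t)
    · by_cases q1 : v = h
      · rw [q1, p2, j4, po _ d1 d2]
        rw [flip_r_out _ (add_vt_old G j)]
        rfl
      by_cases q2 : v = G.r h
      · rw [q2, p3, j3, pr 0 (by decide), flip_r_in _ (add_vt_in G j (by decide)), add_r_1,
          add_r_2]
      by_cases q3 : v = G.r (G.r h)
      · rw [q3, po _ d1 d2, j5, p1, flip_r_out _ (add_vt_old G j), add_r, G.r3]
      have hv : ¬ G.vt h v := by
        rintro (h' | h' | h')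
        · exact q1 h'
        · exact q2 h'
        · exact q3 h'
      have h1 := (hL.oth (Sum.inl v) (add_vt_old G j)
        (fun h' => hv ((add_vt_inl G j).1 h'))).1
      rw [add_r] at h1
      rw [po v q1 q2, h1, flip_r_out _ (add_vt_old G j), add_r, po]
      · exact fun h' => hv (G.vt_r.1 (h' ▸ v0))
      · exact fun h' => hv (G.vt_r.1 (h' ▸ v1))
    · revert t
      refine fin4 ?_ ?_ ?_ ?_
      · rw [pr 0 (by decide), j1, pr 2 (by decide), flip_r_in _ (add_vt_in G j (by decide)),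
          add_r_0, add_r_1]
      · rw [p1, j6, p2, flip_r_out _ (add_vt_old G j), add_r]
      · rw [pr 2 (by decide), j2, p3, flip_r_in _ (add_vt_in G j (by decide)), add_r_2, add_r_0]
      · have h1 := (hL.oth (Sum.inr 3) (add_vt_3 G j) (add_vt_new G j 3)).1
        rw [add_r_3] at h1
        rw [h1, pr 3 (by decide), flip_r_out _ (add_vt_3 G j), add_r_3]
  · intro i
    have hn : ∀ i, G.leg i ≠ h ∧ G.leg i ≠ G.r h := by
      intro i
      refine ⟨fun h' => hh ?_, fun h' => ?_⟩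
      · rw [← h', G.r_leg]
      · have h1 := G.r_leg i
        rw [h'] at h1
        exact d2 h1
    rw [hL.lJ]
    show (add G j (G.r h)).leg i = _
    rcases Fin.eq_self_or_eq_succAbove j i with rfl | ⟨i, rfl⟩
    · rw [add_leg_new, add_leg_new, pr 3 (by decide)]
    · rw [add_leg_old, add_leg_old, po _ (hn i).1 (hn i).2]

open Classical in
/-- The third graph of the relation is the graph with the leg on the third edge. -/
theorem sum_X (hh : G.r h ≠ h) (hl : ∀ u v, G.vt h u → G.vt h v → G.e u ≠ v)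
    (hL : Gr.Loc (add G j h) J X (Sum.inr 0)) :
    X.map (Equiv.swap (Sum.inr 0) (Sum.inl (G.r (G.r h))) *
      (Equiv.swap (Sum.inl (G.r (G.r h))) (Sum.inr 1) * Equiv.swap (Sum.inr 1) (Sum.inl h))) =
      add G j (G.r (G.r h)) := by
  obtain ⟨d1, d2⟩ := vt_ne G hh
  set ψ : Perm (V ⊕ Fin 4) := Equiv.swap (Sum.inr 0) (Sum.inl (G.r (G.r h))) *
      (Equiv.swap (Sum.inl (G.r (G.r h))) (Sum.inr 1) * Equiv.swap (Sum.inr 1) (Sum.inl h)) with hψ
  have v0 : G.vt h h := Or.inl rfl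
  have v1 : G.vt h (G.r h) := Or.inr (Or.inl rfl)
  have v2 : G.vt h (G.r (G.r h)) := Or.inr (Or.inr rfl)
  have p0 : ψ (Sum.inr 0) = Sum.inl (G.r (G.r h)) := by
    rw [hψ, Perm.mul_apply, Perm.mul_apply]
    rw [swap_apply_of_ne_of_ne (fun h' => absurd (Sum.inr.inj h') (by decide)) Sum.inr_ne_inl,
      swap_apply_of_ne_of_ne Sum.inr_ne_inl (fun h' => absurd (Sum.inr.inj h') (by decide)),
      swap_apply_left]
  have p1 : ψ (Sum.inr 1) = Sum.inl h := by
    rw [hψ, Perm.mul_apply, Perm.mul_apply]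
    rw [swap_apply_left, swap_apply_of_ne_of_ne (fun h' => d1 (Sum.inl.inj h').symm)
      Sum.inl_ne_inr, swap_apply_of_ne_of_ne Sum.inl_ne_inr fun h' => d1 (Sum.inl.inj h').symm]
  have p2 : ψ (Sum.inl h) = Sum.inr 0 := by
    rw [hψ, Perm.mul_apply, Perm.mul_apply]
    rw [swap_apply_right, swap_apply_right, swap_apply_right]
  have p3 : ψ (Sum.inl (G.r (G.r h))) = Sum.inr 1 := by
    rw [hψ, Perm.mul_apply, Perm.mul_apply]
    rw [swap_apply_of_ne_of_ne Sum.inl_ne_inr fun h' => d1 (Sum.inl.inj h'), swap_apply_left,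
      swap_apply_of_ne_of_ne (fun h' => absurd (Sum.inr.inj h') (by decide)) Sum.inr_ne_inl]
  have po : ∀ v, v ≠ h → v ≠ G.r (G.r h) → ψ (Sum.inl v) = Sum.inl v := by
    intro v q1 q2
    rw [hψ, Perm.mul_apply, Perm.mul_apply]
    rw [swap_apply_of_ne_of_ne Sum.inl_ne_inr fun h' => q1 (Sum.inl.inj h'),
      swap_apply_of_ne_of_ne (fun h' => q2 (Sum.inl.inj h')) Sum.inl_ne_inr,
      swap_apply_of_ne_of_ne Sum.inl_ne_inr fun h' => q2 (Sum.inl.inj h')]
  have pr : ∀ t : Fin 4, t ≠ 0 → t ≠ 1 → ψ (Sum.inr t) = Sum.inr t := by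
    intro t q0 q1
    rw [hψ, Perm.mul_apply, Perm.mul_apply]
    rw [swap_apply_of_ne_of_ne (fun h' => q1 (Sum.inr.inj h')) Sum.inr_ne_inl,
      swap_apply_of_ne_of_ne Sum.inr_ne_inl (fun h' => q1 (Sum.inr.inj h')),
      swap_apply_of_ne_of_ne (fun h' => q0 (Sum.inr.inj h')) Sum.inr_ne_inl]
  have eX : ∀ v, X.e v = (add G j h).e v := fun v => by rw [hL.eX]
  have n1 : G.e h ≠ G.r (G.r h) := hl _ _ v0 v2
  have n2 : G.e (G.r (G.r h)) ≠ h := hl _ _ v2 v0
  have half : ∀ v, (add G j (G.r (G.r h))).e (ψ v) = ψ (X.e v) →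
      (add G j (G.r (G.r h))).e (ψ (X.e v)) = ψ (X.e (X.e v)) := by
    intro v hv
    rw [← hv, Gr.e2, X.e2]
  have k0 : (add G j (G.r (G.r h))).e (ψ (Sum.inl h)) = ψ (X.e (Sum.inl h)) := by
    rw [p2, eX, add_e_h, p0]
    exact add_e_0 _ _ _
  have k1 : (add G j (G.r (G.r h))).e (ψ (Sum.inl (G.r (G.r h)))) =
      ψ (X.e (Sum.inl (G.r (G.r h)))) := by
    rw [p3, eX, add_e_o _ _ _ d1 (fun h' => n1 h'.symm), po _ n2 (G.e1 _)]
    rfl
  have k2 : (add G j (G.r (G.r h))).e (ψ (Sum.inl (G.e h))) = ψ (X.e (Sum.inl (G.e h))) := by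
    rw [po _ (G.e1 h) n1, eX, add_e_eh, p1, add_e_o _ _ _ n1 (fun h' => d1 (G.e_inj h').symm),
      G.e2]
  have k3 : (add G j (G.r (G.r h))).e (ψ (Sum.inr 2)) = ψ (X.e (Sum.inr 2)) := by
    rw [pr 2 (by decide) (by decide), eX, add_e_2, add_e_2, pr 3 (by decide) (by decide)]
  refine Gr.map_eq ?_ ?_ ?_
  · rintro (v | t)
    · by_cases q1 : v = h
      · rw [q1]
        exact k0
      by_cases q2 : v = G.r (G.r h)
      · rw [q2]
        exact k1
      by_cases q3 : v = G.e h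
      · rw [q3]
        exact k2
      by_cases q4 : v = G.e (G.r (G.r h))
      · have h1 := half _ k1
        rw [eX, add_e_o _ _ _ d1 (fun h' => n1 h'.symm)] at h1
        rw [q4]
        exact h1
      rw [po v q1 q2, eX, add_e_o _ _ _ q1 q3, po]
      · exact add_e_o G j _ q2 q4
      · exact fun h' => q3 (by rw [← h', G.e2])
      · exact fun h' => q4 (by rw [← h', G.e2])
    · revert t
      refine fin4 ?_ ?_ k3 ?_
      · have h1 := half _ k0
        rw [eX, add_e_h] at h1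
        exact h1
      · have h1 := half _ k2
        rw [eX, add_e_eh] at h1
        exact h1
      · have h1 := half _ k3
        rw [eX, add_e_2] at h1
        exact h1
  · have j1 := hL.x1
    have j2 := hL.x2
    have j3 := hL.x3
    have j4 := hL.x4
    have j5 := hL.x5
    have j6 := hL.x6
    rw [add_r_0] at j1
    rw [add_r_0, add_e_0, add_r] at j2
    rw [add_e_0, add_r] at j3
    rw [add_e_0, add_r, add_r] at j4
    rw [add_e_0, add_r, add_r, add_r_0, add_r_1] at j5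
    rw [add_e_0, add_r_0, add_r_1] at j6
    rintro (v | t)
    · by_cases q1 : v = h
      · rw [q1, p2, j4, p3, add_r_0]
      by_cases q2 : v = G.r (G.r h)
      · rw [q2, p3, j5, pr 2 (by decide) (by decide), add_r_1]
      by_cases q3 : v = G.r h
      · rw [q3, po _ hh d2.symm, j3, p0, add_r]
      have hv : ¬ G.vt h v := by
        rintro (h' | h' | h')
        · exact q1 h'
        · exact q3 h'
        · exact q2 h'
      have h1 := (hL.oth (Sum.inl v) (add_vt_old G j)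
        (fun h' => hv ((add_vt_inl G j).1 h'))).2
      rw [add_r] at h1
      rw [po v q1 q2, h1, add_r, po]
      · exact fun h' => hv (G.vt_r.1 (h' ▸ v0))
      · exact fun h' => hv (G.vt_r.1 (h' ▸ v2))
    · revert t
      refine fin4 ?_ ?_ ?_ ?_
      · rw [p0, j1, p1, add_r, G.r3]
      · rw [p1, j2, po _ hh d2.symm, add_r]
      · rw [pr 2 (by decide) (by decide), j6, p2, add_r_2]
      · have h1 := (hL.oth (Sum.inr 3) (add_vt_3 G j) (add_vt_new G j 3)).2
        rw [add_r_3] at h1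
        rw [h1, pr 3 (by decide) (by decide), add_r_3]
  · intro i
    have hn : ∀ i, G.leg i ≠ h ∧ G.leg i ≠ G.r (G.r h) := by
      intro i
      refine ⟨fun h' => hh ?_, fun h' => ?_⟩
      · rw [← h', G.r_leg]
      · have h1 := G.r_leg i
        rw [h', G.r3] at h1
        exact d1 h1.symm
    rw [hL.lX]
    rcases Fin.eq_self_or_eq_succAbove j i with rfl | ⟨i, rfl⟩
    · rw [add_leg_new, add_leg_new, pr 3 (by decide) (by decide)]
    · rw [add_leg_old, add_leg_old, po _ (hn i).1 (hn i).2]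

end

/-- The sum over the three edges at a vertex. -/
theorem add_sum [AddCommGroup M] {F : (V : Type) → Gr V (n + 1) → M} (hF : Rel F) [Finite V]
    (G : Gr V n) (j : Fin (n + 1)) (h : V) (hh : G.r h ≠ h)
    (hl : ∀ u v, G.vt h u → G.vt h v → G.e u ≠ v) :
    F _ (add G j h) + F _ (add G j (G.r h)) + F _ (add G j (G.r (G.r h))) = 0 := by
  classical
  obtain ⟨J, X, hL⟩ := SWT36.exists_loc (add_ok G j hh)
  have h1 : F _ J = - F _ (add G j (G.r h)) := by
    rw [← hF.as _ (add G j (G.r h)) (Sum.inr 0), ← sum_J hh hl hL, hF.iso]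
    rw [add_r_0]
    exact fun h' => absurd (Sum.inr.inj h') (by decide)
  have h2 : F _ X = F _ (add G j (G.r (G.r h))) := by
    rw [← sum_X hh hl hL, hF.iso]
  rw [hF.ihx _ _ _ _ _ hL, h1, h2]
  abel

end Pool.Agent.SWT67
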