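import Pool.Agent.SWT67.Map

/-!
# State sums and reversal of a cyclic order
-/

set_option autoImplicit false

namespace Pool.Agent.SWT67

open Equiv Pool.Agent.SWT80 Pool.Agent.SWT45
open scoped Classical

variable {L V : Type} {n : ℕ}

theorem vt_iff_r2 (G : Gr V n) {x v : V} : G.vt x (G.r (G.r v)) ↔ G.vt x v :=
  G.vt_r.trans G.vt_r

theorem rep_flip {G : Gr V n} {x : V} {Q : Finset V} (hQ : IsRep G.r Q) :
    IsRep (G.flip x).r Q := by
  have a : ∀ v, G.vt x v → (G.flip x).r v = G.r (G.r v) := fun v hv => Gr.fr_pos hv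
  have b : ∀ v, ¬ G.vt x v → (G.flip x).r v = G.r v := fun v hv => Gr.fr_neg hv
  constructor
  · intro v hv
    by_cases hx : G.vt x v
    · rw [a v hx]
      exact fun h' => hQ.nf v hv (G.r2 h')
    · rw [b v hx]
      exact hQ.nf v hv
  · intro v hv
    by_cases hx : G.vt x v
    · have h1 : G.r v ≠ v := fun h' => hv (by rw [a v hx, h', h'])
      rw [a v hx, a _ ((vt_iff_r2 G).2 hx), G.r3]
      rcases hQ.ex v h1 with h2 | h2 | h2
      · exact Or.inl h2
      · exact Or.inr (Or.inr h2)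
      · exact Or.inr (Or.inl h2)
    · rw [b v hx] at hv ⊢
      rw [b _ (fun h' => hx (G.vt_r.1 h'))]
      exact hQ.ex v hv
  · intro v hv
    by_cases hx : G.vt x v
    · rw [a v hx, a _ ((vt_iff_r2 G).2 hx), G.r3]
      exact ⟨(hQ.un v hv).2, (hQ.un v hv).1⟩
    · rw [b v hx, b _ (fun h' => hx (G.vt_r.1 h'))]
      exact hQ.un v hv

theorem rep_with {G : Gr V n} {x : V} (hx : G.r x ≠ x) {Q : Finset V} (hQ : IsRep G.r Q) :
    IsRep G.r (insert x (Q.filter fun v => ¬ G.vt x v)) := by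
  have vx : G.vt x x := Or.inl rfl
  have m : ∀ v, ¬ G.vt x v → (v ∈ insert x (Q.filter fun v => ¬ G.vt x v) ↔ v ∈ Q) := by
    intro v hv
    rw [Finset.mem_insert, Finset.mem_filter]
    constructor
    · rintro (h1 | h1)
      · exact (hv (Or.inl h1)).elim
      · exact h1.1
    · intro h1
      exact Or.inr ⟨h1, hv⟩
  have m' : ∀ v, G.vt x v → v ∈ insert x (Q.filter fun v => ¬ G.vt x v) → v = x := by
    intro v hv h1
    rw [Finset.mem_insert, Finset.mem_filter] at h1
    exact h1.elim id fun h2 => (h2.2 hv).elim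
  constructor
  · intro v hv
    by_cases h1 : G.vt x v
    · rw [m' v h1 hv]
      exact hx
    · exact hQ.nf v ((m v h1).1 hv)
  · intro v hv
    by_cases h1 : G.vt x v
    · rcases h1 with h2 | h2 | h2
      · left
        rw [h2]
        exact Finset.mem_insert_self _ _
      · right; right
        rw [h2, G.r3]
        exact Finset.mem_insert_self _ _
      · right; left
        rw [h2, G.r3]
        exact Finset.mem_insert_self _ _
    · rw [m v h1, m _ (fun h' => h1 (G.vt_r.1 h')), m _ (fun h' => h1 ((vt_iff_r2 G).1 h'))]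
      exact hQ.ex v hv
  · intro v hv
    by_cases h1 : G.vt x v
    · rw [m' v h1 hv]
      constructor
      · intro h2
        exact hx (m' _ (G.vt_r.2 vx) h2)
      · intro h2
        exact hx (G.r2 (m' _ ((vt_iff_r2 G).2 vx) h2))
    · rw [m _ (fun h' => h1 (G.vt_r.1 h')), m _ (fun h' => h1 ((vt_iff_r2 G).1 h'))]
      exact hQ.un v ((m v h1).1 hv)

theorem cst' {S : LS L} (hS : S.Ok) (G : Gr V n) (s : V → L) (v : V) :
    S.T (s (G.r v)) (s (G.r (G.r v))) (s (G.r (G.r (G.r v)))) =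
      S.T (s v) (s (G.r v)) (s (G.r (G.r v))) := by
  rw [G.r3, ← hS.cyc]

theorem par_of_rep {S : LS L} (hS : S.Ok) {G : Gr V n} {s : V → L} {Q : Finset V}
    (hQ : IsRep G.r Q) (h0 : ∏ v ∈ Q, S.T (s v) (s (G.r v)) (s (G.r (G.r v))) ≠ 0)
    (hl : ∀ v, G.r v = v → S.odd (s v) = false) (v : V) :
    (S.odd (s v) ^^ (S.odd (s (G.r v)) ^^ S.odd (s (G.r (G.r v))))) = false := by
  by_cases hv : G.r v = v
  · rw [hv, hv, hl v hv]
    rfl
  have key : ∀ w ∈ Q, S.T (s w) (s (G.r w)) (s (G.r (G.r w))) ≠ 0 := by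
    intro w hw h3
    exact h0 (Finset.prod_eq_zero hw h3)
  apply hS.par
  rcases hQ.ex v hv with h3 | h3 | h3
  · exact key v h3
  · have h4 := key _ h3
    rw [cst' hS G s v] at h4
    exact h4
  · have h4 := key _ h3
    rw [cst' hS G s (G.r v), cst' hS G s v] at h4
    exact h4

theorem wt_flip [Fintype V] {S : LS L} (hS : S.Ok) {G : Gr V n} {x : V} {s : V → L}
    (hx : G.r x ≠ x) (he : ∀ v, s (G.e v) = S.du (s v))
    (hl : ∀ v, G.r v = v → S.odd (s v) = false)
    (hT : S.T (s x) (s (G.r (G.r x))) (s (G.r x)) =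
      if S.odd (s x) || (S.odd (s (G.r x)) || S.odd (s (G.r (G.r x)))) then
        S.T (s x) (s (G.r x)) (s (G.r (G.r x))) else - S.T (s x) (s (G.r x)) (s (G.r (G.r x)))) :
    wt S (G.flip x) s = - wt S G s := by
  have a : ∀ v, G.vt x v → (G.flip x).r v = G.r (G.r v) := fun v hv => Gr.fr_pos hv
  have b : ∀ v, ¬ G.vt x v → (G.flip x).r v = G.r v := fun v hv => Gr.fr_neg hv
  have vx : G.vt x x := Or.inl rfl
  obtain ⟨Q, hQ⟩ := rep V G.r G.r3
  have hQ1 := rep_with hx hQ
  have hQ2 := rep_flip (x := x) hQ1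
  have hn : x ∉ Q.filter fun v => ¬ G.vt x v := fun h' => (Finset.mem_filter.1 h').2 vx
  obtain ⟨P, hP⟩ : ∃ P, P = ∏ v ∈ Q.filter (fun v => ¬ G.vt x v),
      S.T (s v) (s (G.r v)) (s (G.r (G.r v))) := ⟨_, rfl⟩
  obtain ⟨T0, hT0⟩ : ∃ T0, T0 = S.T (s x) (s (G.r x)) (s (G.r (G.r x))) := ⟨_, rfl⟩
  have v1 : (vp G.r fun v => S.T (s v) (s (G.r v)) (s (G.r (G.r v)))) = T0 * P := by
    rw [vp_eq V G.r _ _ G.r3 hQ1 (fun v => cst' hS G s v), Finset.prod_insert hn, hP, hT0]
  have v2 : (vp (G.flip x).r fun v => S.T (s v) (s ((G.flip x).r v))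
      (s ((G.flip x).r ((G.flip x).r v)))) =
      S.T (s x) (s (G.r (G.r x))) (s (G.r x)) * P := by
    rw [vp_eq V (G.flip x).r _ _ (G.flip x).r3 hQ2 (fun v => cst' hS (G.flip x) s v),
      Finset.prod_insert hn, hP, a x vx, a _ ((vt_iff_r2 G).2 vx), G.r3]
    congr 1
    refine Finset.prod_congr rfl fun v hv => ?_
    have h1 := (Finset.mem_filter.1 hv).2
    rw [b v h1, b _ (fun h' => h1 (G.vt_r.1 h'))]
  unfold wt
  rw [v1, v2, hT, ← hT0]
  by_cases h0 : T0 * P = 0
  · rw [h0]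
    have h1 : (if (S.odd (s x) || (S.odd (s (G.r x)) || S.odd (s (G.r (G.r x))))) = true then T0
        else -T0) * P = 0 := by
      split_ifs
      · exact h0
      · rw [neg_mul, h0, neg_zero]
    rw [h1]
    simp
  obtain ⟨o, ho⟩ : ∃ o : V → Bool, o = fun v => S.odd (s v) := ⟨_, rfl⟩
  obtain ⟨p, hp⟩ : ∃ p : V → Bool, p = fun v => S.pos (s v) := ⟨_, rfl⟩
  have oe : ∀ v, o (G.e v) = o v := by
    intro v
    rw [ho]
    show S.odd (s (G.e v)) = S.odd (s v)
    rw [he, hS.odd_du]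
  have pe : ∀ v, o v = true → p (G.e v) = !(p v) := by
    intro v hv
    rw [ho] at hv
    rw [hp]
    show S.pos (s (G.e v)) = !(S.pos (s v))
    rw [he]
    exact hS.pos_du _ hv
  have par : Par2 G.e G.r o p := by
    refine ⟨oe, pe, fun v hv => ?_, fun v => ?_⟩
    · rw [ho]
      exact hl v hv
    · rw [ho]
      refine par_of_rep hS hQ1 ?_ hl v
      rw [Finset.prod_insert hn, ← hP, ← hT0]
      exact h0
  obtain ⟨κ, hκ⟩ := exists_isK V G.e G.r o p G.e2 G.r3 par
  have e1 : (fun v => S.odd (s v)) = o := ho.symm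
  have e2 : (fun v => S.pos (s v)) = p := hp.symm
  have e3 : (S.odd (s x) || (S.odd (s (G.r x)) || S.odd (s (G.r (G.r x))))) =
      (o x || (o (G.r x) || o (G.r (G.r x)))) := by rw [ho]
  rw [e1, e2, e3, sg_eq' G.e2 G.r3 oe pe hκ]
  by_cases hodd : (o x || (o (G.r x) || o (G.r (G.r x)))) = true
  · rw [if_pos hodd]
    obtain ⟨w, hw1, hw2⟩ : ∃ w, G.vt x w ∧ o w = true := by
      rw [Bool.or_eq_true, Bool.or_eq_true] at hodd
      rcases hodd with h1 | h1 | h1
      · exact ⟨_, Or.inl rfl, h1⟩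
      · exact ⟨_, Or.inr (Or.inl rfl), h1⟩
      · exact ⟨_, Or.inr (Or.inr rfl), h1⟩
    obtain ⟨u, hu1, hu2⟩ : ∃ u, G.vt x u ∧ fst G.r o u := by
      rcases fst_or G.r3 par hw2 with h1 | ⟨u, h1, h2⟩
      · exact ⟨w, hw1, h1⟩
      · refine ⟨u, ?_, h1⟩
        rw [← G.vt_r, h2]
        exact hw1
    have hru : G.r u ≠ u := par_ne par hu2.1
    have hun : ∀ w, fst G.r o w → G.vt x w → w = u := by
      intro w hw hwx
      have h1 : w = u ∨ w = G.r u ∨ w = G.r (G.r u) := by
        have h3 := G.r3 x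
        rcases hwx with h1 | h1 | h1 <;> rcases hu1 with h2 | h2 | h2 <;> rw [h1, h2]
        · exact Or.inl rfl
        · exact Or.inr (Or.inr h3.symm)
        · exact Or.inr (Or.inl h3.symm)
        · exact Or.inr (Or.inl rfl)
        · exact Or.inl rfl
        · refine Or.inr (Or.inr ?_)
          rw [h3]
        · exact Or.inr (Or.inr rfl)
        · exact Or.inr (Or.inl rfl)
        · exact Or.inl rfl
      rcases h1 with h1 | h1 | h1
      · exact h1
      · rw [h1] at hw
        exact (fst_r par hu2 hw).elim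
      · rw [h1] at hw
        have h2 := fst_r par hw
        rw [G.r3] at h2
        exact (h2 hu2).elim
    have hK : IsK (G.flip x).e (G.flip x).r o p (swap u (G.r u) * κ) := by
      constructor
      · intro v hv
        rw [Perm.mul_apply, hκ.fix v hv, swap_apply_of_ne_of_ne]
        · intro h'
          rw [h', hu2.1] at hv
          cases hv
        · intro h'
          rw [h', hu2.2] at hv
          cases hv
      · intro v hv hpv
        have h4 := hκ.map v hv hpv
        rw [Perm.mul_apply, Perm.mul_apply]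
        show _ ∧ _ ∧ swap u (G.r u) (κ (G.e v)) = _
        rw [h4.2.2]
        by_cases hwu : κ v = u
        · rw [hwu, swap_apply_left, swap_apply_right, a _ (G.vt_r.2 hu1), G.r3]
          exact ⟨hu2.2, hu2.1, rfl⟩
        · have hf : fst G.r o (κ v) := ⟨h4.1, h4.2.1⟩
          have n1 : κ v ≠ G.r u := fun h' => fst_r par hu2 (by rw [← h']; exact hf)
          have n2 : G.r (κ v) ≠ u := fun h' => fst_r par hf (by rw [h']; exact hu2)
          have n3 : G.r (κ v) ≠ G.r u := fun h' => hwu (G.r_inj h')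
          have n4 : ¬ G.vt x (κ v) := fun h' => hwu (hun _ hf h')
          rw [swap_apply_of_ne_of_ne hwu n1, swap_apply_of_ne_of_ne n2 n3, b _ n4]
          exact ⟨h4.1, h4.2.1, rfl⟩
    have oe' : ∀ v, o ((G.flip x).e v) = o v := oe
    have pe' : ∀ v, o v = true → p ((G.flip x).e v) = !(p v) := pe
    rw [sg_eq' (G.flip x).e2 (G.flip x).r3 oe' pe' hK, map_mul, Perm.sign_swap hru.symm]
    simp
  · rw [if_neg hodd]
    rw [Bool.or_eq_true, Bool.or_eq_true, not_or, not_or] at hodd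
    have hev : ∀ w, G.vt x w → ¬ o w = true := by
      rintro w (h1 | h1 | h1)
      · rw [h1]; exact hodd.1
      · rw [h1]; exact hodd.2.1
      · rw [h1]; exact hodd.2.2
    have hK : IsK (G.flip x).e (G.flip x).r o p κ := by
      constructor
      · exact hκ.fix
      · intro v hv hpv
        have h4 := hκ.map v hv hpv
        have h5 : ¬ G.vt x (κ v) := fun h' => hev _ h' h4.1
        rw [b _ h5]
        exact h4
    have oe' : ∀ v, o ((G.flip x).e v) = o v := oe
    have pe' : ∀ v, o v = true → p ((G.flip x).e v) = !(p v) := pe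
    rw [sg_eq' (G.flip x).e2 (G.flip x).r3 oe' pe' hK]
    ring

theorem flip : S_flip := by
  intro L _ S hS V _ n G x A hx _ hl hT
  unfold Z
  rw [← Finset.sum_neg_distrib]
  refine Finset.sum_congr ?_ fun s hs => ?_
  · ext s
    simp only [Finset.mem_filter, Finset.mem_univ, true_and]
    rfl
  · have hs' := (Finset.mem_filter.1 hs).2
    exact wt_flip hS hx hs'.2 (fun v hv => hl v _ hv (hs'.1 v))
      (hT _ _ _ (hs'.1 x) (hs'.1 _) (hs'.1 _))

end Pool.Agent.SWT67
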