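import Pool.Agent.SWT67.LocK
import Pool.Agent.SWT67.Rep

/-!
# The weights of the labellings at an edge
-/

set_option autoImplicit false

namespace Pool.Agent.SWT67

open Equiv Pool.Agent.SWT80 Pool.Agent.SWT45
open scoped Classical

/-- The labelling `s` with the label `l` at `x` and its dual at `y`. -/
noncomputable def up {L V : Type} (S : LS L) (x y : V) (s : V → L) (l : L) : V → L := fun v =>
  if v = x then l else if v = y then S.du l else s v

/-- Three graphs which differ only by the cyclic orders at six half-edges. -/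
structure At {V : Type} {n : ℕ} (ι : Fin 6 ↪ V) (G : Fin 3 → Gr V n) : Prop where
  he : ∀ D, (G D).e = (G 0).e
  e0 : (G 0).e (ι 0) = ι 3
  hr : ∀ D i, (G D).r (ι i) = ι (ro D i)
  out : ∀ D v, v ∉ Set.range ι → (G D).r v = (G 0).r v

theorem ref_par : ∀ oa ob oc od : Bool, (oa ^^ (ob ^^ (oc ^^ od))) = false → ∀ i,
    (ov false oa ob oc od i ^^ (ov false oa ob oc od (ro (rf oa ob oc) i) ^^
      ov false oa ob oc od (ro (rf oa ob oc) (ro (rf oa ob oc) i)))) = false := by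
  decide +kernel

theorem q_par : ∀ (D : Fin 3) (oa ob oc od : Bool), (oa ^^ (ob ^^ (oc ^^ od))) = false → ∀ i,
    (ov (qx D oa ob oc) oa ob oc od i ^^ (ov (qx D oa ob oc) oa ob oc od (ro D i) ^^
      ov (qx D oa ob oc) oa ob oc od (ro D (ro D i)))) = false := by
  decide +kernel

theorem q_only : ∀ (D : Fin 3) (q oa ob oc od : Bool),
    (ov q oa ob oc od 0 ^^ (ov q oa ob oc od (ro D 0) ^^ ov q oa ob oc od (ro D (ro D 0)))) = false →
    q = qx D oa ob oc := by
  decide +kernel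

theorem q_sum : ∀ (D : Fin 3) (q oa ob oc od : Bool),
    (ov q oa ob oc od 0 ^^ (ov q oa ob oc od (ro D 0) ^^ ov q oa ob oc od (ro D (ro D 0)))) = false →
    (ov q oa ob oc od 3 ^^ (ov q oa ob oc od (ro D 3) ^^ ov q oa ob oc od (ro D (ro D 3)))) = false →
    (oa ^^ (ob ^^ (oc ^^ od))) = false := by
  decide +kernel

theorem ro_ne : ∀ (D : Fin 3) (i : Fin 6), ro D i ≠ i := by decide +kernel

theorem ro_ex : ∀ (D : Fin 3) (i : Fin 6), (i = 0 ∨ i = 3) ∨ (ro D i = 0 ∨ ro D i = 3) ∨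
    (ro D (ro D i) = 0 ∨ ro D (ro D i) = 3) := by decide +kernel

theorem ro_un : ∀ (D : Fin 3), ro D 0 ≠ 0 ∧ ro D 0 ≠ 3 ∧ ro D (ro D 0) ≠ 0 ∧ ro D (ro D 0) ≠ 3 ∧
    ro D 3 ≠ 0 ∧ ro D 3 ≠ 3 ∧ ro D (ro D 3) ≠ 0 ∧ ro D (ro D 3) ≠ 3 := by decide +kernel

section At

variable {L V : Type} {n : ℕ} {ι : Fin 6 ↪ V} {G : Fin 3 → Gr V n}

theorem At.e3 (h : At ι G) : (G 0).e (ι 3) = ι 0 := by
  rw [← h.e0, (G 0).e2]

theorem At.outr (h : At ι G) {v : V} (hv : v ∉ Set.range ι) : (G 0).r v ∉ Set.range ι := by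
  rintro ⟨j, hj⟩
  apply hv
  refine ⟨ro 0 (ro 0 j), ?_⟩
  rw [← h.hr, ← h.hr, hj, (G 0).r3]

theorem At.oute (h : At ι G) {v : V} (h0 : v ≠ ι 0) (h3 : v ≠ ι 3) :
    (G 0).e v ≠ ι 0 ∧ (G 0).e v ≠ ι 3 := by
  constructor
  · intro h'
    apply h3
    rw [← h.e0, ← h', (G 0).e2]
  · intro h'
    apply h0
    rw [← h.e3, ← h', (G 0).e2]

theorem At.rep (h : At ι G) {Q : Finset V} (hQ : IsRep (G 0).r Q) (D : Fin 3) :
    IsRep (G D).r (insert (ι 0) (insert (ι 3) (Q.filter fun v => v ∉ Set.range ι))) := by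
  have hu := ro_un D
  have hn : ∀ i : Fin 6, i ≠ 0 → i ≠ 3 →
      ι i ∉ (insert (ι 0) (insert (ι 3) (Q.filter fun v => v ∉ Set.range ι)) : Finset V) := by
    intro i h0 h3 hi
    rw [Finset.mem_insert, Finset.mem_insert, Finset.mem_filter] at hi
    rcases hi with hi | hi | hi
    · exact h0 (ι.injective hi)
    · exact h3 (ι.injective hi)
    · exact hi.2 ⟨i, rfl⟩
  have ho : ∀ v, v ∉ Set.range ι →
      (v ∈ (insert (ι 0) (insert (ι 3) (Q.filter fun v => v ∉ Set.range ι)) : Finset V) ↔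
        v ∈ Q) := by
    intro v hv
    rw [Finset.mem_insert, Finset.mem_insert, Finset.mem_filter]
    constructor
    · rintro (hi | hi | hi)
      · exact (hv ⟨0, hi.symm⟩).elim
      · exact (hv ⟨3, hi.symm⟩).elim
      · exact hi.1
    · intro hi
      exact Or.inr (Or.inr ⟨hi, hv⟩)
  constructor
  · intro v hv
    by_cases hr : v ∈ Set.range ι
    · obtain ⟨i, rfl⟩ := hr
      rw [h.hr]
      exact fun h' => ro_ne D i (ι.injective h')
    · rw [h.out D v hr]
      exact hQ.nf v ((ho v hr).1 hv)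
  · intro v hv
    by_cases hr : v ∈ Set.range ι
    · obtain ⟨i, rfl⟩ := hr
      rw [h.hr, h.hr]
      rcases ro_ex D i with (h1 | h1) | (h1 | h1) | (h1 | h1)
      · left; rw [h1]; simp
      · left; rw [h1]; simp
      · right; left; rw [h1]; simp
      · right; left; rw [h1]; simp
      · right; right; rw [h1]; simp
      · right; right; rw [h1]; simp
    · have h1 := h.outr hr
      have h2 := h.outr h1
      rw [h.out D v hr] at hv ⊢
      rw [h.out D _ h1, ho v hr, ho _ h1, ho _ h2]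
      exact hQ.ex v hv
  · intro v hv
    by_cases hr : v ∈ Set.range ι
    · obtain ⟨i, rfl⟩ := hr
      have hi : i = 0 ∨ i = 3 := by
        by_contra hc
        push Not at hc
        exact hn i hc.1 hc.2 hv
      rw [h.hr, h.hr]
      rcases hi with rfl | rfl
      · exact ⟨hn _ hu.1 hu.2.1, hn _ hu.2.2.1 hu.2.2.2.1⟩
      · exact ⟨hn _ hu.2.2.2.2.1 hu.2.2.2.2.2.1, hn _ hu.2.2.2.2.2.2.1 hu.2.2.2.2.2.2.2⟩
    · have h1 := h.outr hr
      have h2 := h.outr h1
      rw [h.out D v hr, h.out D _ h1, ho _ h1, ho _ h2]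
      exact hQ.un v ((ho v hr).1 hv)

variable {S : LS L} {s : V → L}

theorem up0 (l : L) : up S (ι 0) (ι 3) s l (ι 0) = l := if_pos rfl

theorem up3 (l : L) : up S (ι 0) (ι 3) s l (ι 3) = S.du l := by
  unfold up
  rw [if_neg (fun h' => absurd (ι.injective h') (by decide)), if_pos rfl]

theorem up_out (l : L) {v : V} (h0 : v ≠ ι 0) (h3 : v ≠ ι 3) :
    up S (ι 0) (ι 3) s l v = s v := by
  unfold up
  rw [if_neg h0, if_neg h3]

theorem cst (hS : S.Ok) (G : Gr V n) (s : V → L) (v : V) :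
    S.T (s (G.r v)) (s (G.r (G.r v))) (s (G.r (G.r (G.r v)))) =
      S.T (s v) (s (G.r v)) (s (G.r (G.r v))) := by
  rw [G.r3, ← hS.cyc]

/-- The labels at the six half-edges. -/
def lab (S : LS L) (ι : Fin 6 ↪ V) (s : V → L) (l : L) : Fin 6 → L :=
  ![l, s (ι 1), s (ι 2), S.du l, s (ι 4), s (ι 5)]

theorem up_lab (l : L) (i : Fin 6) : up S (ι 0) (ι 3) s l (ι i) = lab S ι s l i := by
  have key : ∀ j : Fin 6, j ≠ 0 → j ≠ 3 → up S (ι 0) (ι 3) s l (ι j) = s (ι j) := fun j h0 h3 =>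
    up_out l (fun h' => h0 (ι.injective h')) (fun h' => h3 (ι.injective h'))
  fin_cases i
  · exact up0 l
  · exact key 1 (by decide) (by decide)
  · exact key 2 (by decide) (by decide)
  · exact up3 l
  · exact key 4 (by decide) (by decide)
  · exact key 5 (by decide) (by decide)

/-- The product of the two local structure constants. -/
def TT (S : LS L) (ι : Fin 6 ↪ V) (s : V → L) (D : Fin 3) (l : L) : ℤ :=
  S.T (lab S ι s l 0) (lab S ι s l (ro D 0)) (lab S ι s l (ro D (ro D 0))) *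
    S.T (lab S ι s l 3) (lab S ι s l (ro D 3)) (lab S ι s l (ro D (ro D 3)))

theorem vp_up [Fintype V] (hS : S.Ok) (h : At ι G) {Q : Finset V} (hQ : IsRep (G 0).r Q)
    (D : Fin 3) (l : L) :
    (vp (G D).r fun v => S.T (up S (ι 0) (ι 3) s l v) (up S (ι 0) (ι 3) s l ((G D).r v))
      (up S (ι 0) (ι 3) s l ((G D).r ((G D).r v)))) =
    TT S ι s D l * ∏ v ∈ Q.filter (fun v => v ∉ Set.range ι),
      S.T (s v) (s ((G 0).r v)) (s ((G 0).r ((G 0).r v))) := by
  rw [vp_eq V (G D).r _ _ (G D).r3 (h.rep hQ D) (fun v => cst hS (G D) _ v)]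
  rw [Finset.prod_insert, Finset.prod_insert, ← mul_assoc]
  · congr 1
    · simp only [h.hr, up_lab]
      rfl
    · refine Finset.prod_congr rfl fun v hv => ?_
      have hr := (Finset.mem_filter.1 hv).2
      have h1 := h.outr hr
      have h2 := h.outr h1
      have key : ∀ w, w ∉ Set.range ι → up S (ι 0) (ι 3) s l w = s w := fun w hw =>
        up_out l (fun h' => hw ⟨0, h'.symm⟩) (fun h' => hw ⟨3, h'.symm⟩)
      rw [h.out D v hr, h.out D _ h1, key _ hr, key _ h1, key _ h2]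
  · intro h'
    exact (Finset.mem_filter.1 h').2 ⟨3, rfl⟩
  · intro h'
    rw [Finset.mem_insert] at h'
    rcases h' with h' | h'
    · exact absurd (ι.injective h') (by decide)
    · exact (Finset.mem_filter.1 h').2 ⟨0, rfl⟩

end At

end Pool.Agent.SWT67
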