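import Pool.Agent.SWT67.Kc

/-!
# The common constant of the weights at an edge
-/

set_option autoImplicit false

namespace Pool.Agent.SWT67

open Equiv Pool.Agent.SWT80 Pool.Agent.SWT45
open scoped Classical

variable {L V : Type} {n : ℕ} {ι : Fin 6 ↪ V} {G : Fin 3 → Gr V n} {S : LS L} {s : V → L}

/-- The conditions on the labelling outside the edge. -/
structure Sok (S : LS L) (ι : Fin 6 ↪ V) (G : Gr V n) (s : V → L) : Prop where
  e : ∀ v, v ≠ ι 0 → v ≠ ι 3 → s (G.e v) = S.du (s v)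
  leg : ∀ v, G.r v = v → S.odd (s v) = false

theorem lab_odd (hS : S.Ok) (l : L) (i : Fin 6) :
    S.odd (lab S ι s l i) = ov (S.odd l) (S.odd (s (ι 1))) (S.odd (s (ι 2))) (S.odd (s (ι 4)))
      (S.odd (s (ι 5))) i := by
  fin_cases i
  · rfl
  · rfl
  · rfl
  · exact hS.odd_du l
  · rfl
  · rfl

theorem par_of_T (hS : S.Ok) (h : At ι G) {Q : Finset V} (hQ : IsRep (G 0).r Q)
    (h0 : ∏ v ∈ Q.filter (fun v => v ∉ Set.range ι),
      S.T (s v) (s ((G 0).r v)) (s ((G 0).r ((G 0).r v))) ≠ 0) {v : V} (hv : v ∉ Set.range ι)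
    (hl : (G 0).r v ≠ v) :
    (S.odd (s v) ^^ (S.odd (s ((G 0).r v)) ^^ S.odd (s ((G 0).r ((G 0).r v))))) = false := by
  have h1 := h.outr hv
  have h2 := h.outr h1
  have key : ∀ w ∈ Q, w ∉ Set.range ι →
      S.T (s w) (s ((G 0).r w)) (s ((G 0).r ((G 0).r w))) ≠ 0 := by
    intro w hw hw' h3
    exact h0 (Finset.prod_eq_zero (Finset.mem_filter.2 ⟨hw, hw'⟩) h3)
  apply hS.par
  rcases hQ.ex v hl with h3 | h3 | h3
  · exact key v h3 hv
  · have h4 := key _ h3 h1
    rw [cst hS (G 0) s v] at h4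
    exact h4
  · have h4 := key _ h3 h2
    rw [cst hS (G 0) s ((G 0).r v), cst hS (G 0) s v] at h4
    exact h4

theorem kconst [Fintype V] (hS : S.Ok) (h : At ι G) (hs : Sok S ι (G 0) s) :
    ∃ K : ℤ, ∀ (D : Fin 3) (l : L), wt S (G D) (up S (ι 0) (ι 3) s l) =
      K * (sD D (S.odd (s (ι 1))) (S.odd (s (ι 2))) (S.odd (s (ι 4))) (S.odd (s (ι 5)))
        (S.pos l) * TT S ι s D l) := by
  obtain ⟨Q, hQ⟩ := rep V (G 0).r (G 0).r3
  obtain ⟨P, hP⟩ : ∃ P, P = ∏ v ∈ Q.filter (fun v => v ∉ Set.range ι),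
      S.T (s v) (s ((G 0).r v)) (s ((G 0).r ((G 0).r v))) := ⟨_, rfl⟩
  have hw : ∀ D l, wt S (G D) (up S (ι 0) (ι 3) s l) =
      sg (G D).e (G D).r (fun v => S.odd (up S (ι 0) (ι 3) s l v))
        (fun v => S.pos (up S (ι 0) (ι 3) s l v)) * (TT S ι s D l * P) := by
    intro D l
    unfold wt
    rw [vp_up hS h hQ, hP]
  by_cases hP0 : P = 0
  · refine ⟨0, fun D l => ?_⟩
    rw [hw, hP0, mul_zero, mul_zero, zero_mul]
  obtain ⟨oa, hoa⟩ : ∃ oa, oa = S.odd (s (ι 1)) := ⟨_, rfl⟩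
  obtain ⟨ob, hob⟩ : ∃ ob, ob = S.odd (s (ι 2)) := ⟨_, rfl⟩
  obtain ⟨oc, hoc⟩ : ∃ oc, oc = S.odd (s (ι 4)) := ⟨_, rfl⟩
  obtain ⟨od, hod⟩ : ∃ od, od = S.odd (s (ι 5)) := ⟨_, rfl⟩
  have hlab : ∀ l i, S.odd (lab S ι s l i) = ov (S.odd l) oa ob oc od i := by
    intro l i
    rw [lab_odd hS, hoa, hob, hoc, hod]
  rw [← hoa, ← hob, ← hoc, ← hod]
  -- the local parities if the local product is not zero
  have hT0 : ∀ D l, TT S ι s D l ≠ 0 → S.odd l = qx D oa ob oc ∧
      (oa ^^ (ob ^^ (oc ^^ od))) = false := by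
    intro D l hT
    have h1 := hS.par _ _ _ (left_ne_zero_of_mul hT)
    have h2 := hS.par _ _ _ (right_ne_zero_of_mul hT)
    simp only [hlab] at h1 h2
    exact ⟨q_only D _ oa ob oc od h1, q_sum D _ oa ob oc od h1 h2⟩
  by_cases hx : (oa ^^ (ob ^^ (oc ^^ od))) = false
  swap
  · refine ⟨0, fun D l => ?_⟩
    have h1 : TT S ι s D l = 0 := by
      by_contra h2
      exact hx (hT0 D l h2).2
    rw [hw, h1]
    simp
  -- the reference diagram
  obtain ⟨R, hR⟩ : ∃ R, R = rf oa ob oc := ⟨_, rfl⟩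
  obtain ⟨oR, hoR⟩ : ∃ oR : V → Bool, oR = fun v => if v = ι 0 ∨ v = ι 3 then false
      else S.odd (s v) := ⟨_, rfl⟩
  have or1 : ∀ v, v ≠ ι 0 → v ≠ ι 3 → oR v = S.odd (s v) := by
    intro v h0 h3
    rw [hoR]
    exact if_neg fun h' => h'.elim h0 h3
  have or0 : oR (ι 0) = false := by
    rw [hoR]
    exact if_pos (Or.inl rfl)
  have or3 : oR (ι 3) = false := by
    rw [hoR]
    exact if_pos (Or.inr rfl)
  have orl : ∀ i, oR (ι i) = ov false oa ob oc od i := by
    have key : ∀ j : Fin 6, j ≠ 0 → j ≠ 3 → oR (ι j) = S.odd (s (ι j)) := fun j h0 h3 =>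
      or1 _ (fun h' => h0 (ι.injective h')) (fun h' => h3 (ι.injective h'))
    intro i
    fin_cases i
    · exact or0
    · exact (key 1 (by decide) (by decide)).trans hoa.symm
    · exact (key 2 (by decide) (by decide)).trans hob.symm
    · exact or3
    · exact (key 4 (by decide) (by decide)).trans hoc.symm
    · exact (key 5 (by decide) (by decide)).trans hod.symm
  have nr0 : ∀ v, v ∉ Set.range ι → v ≠ ι 0 := fun v hv h' => hv ⟨0, h'.symm⟩
  have nr3 : ∀ v, v ∉ Set.range ι → v ≠ ι 3 := fun v hv h' => hv ⟨3, h'.symm⟩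
  -- the outer vertices
  have outer : ∀ v, v ∉ Set.range ι →
      (S.odd (s v) ^^ (S.odd (s ((G 0).r v)) ^^ S.odd (s ((G 0).r ((G 0).r v))))) = false := by
    intro v hv
    by_cases hl : (G 0).r v = v
    · rw [hl, hl, hs.leg v hl]
      rfl
    · exact par_of_T hS h hQ (by rw [← hP]; exact hP0) hv hl
  have parR : Par2 (G R).e (G R).r oR (fun v => S.pos (s v)) := by
    constructor
    · intro v
      rw [h.he R]
      by_cases h0 : v = ι 0
      · rw [h0, h.e0, or0, or3]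
      · by_cases h3 : v = ι 3
        · rw [h3, h.e3, or0, or3]
        · rw [or1 v h0 h3, or1 _ (h.oute h0 h3).1 (h.oute h0 h3).2, hs.e v h0 h3, hS.odd_du]
    · intro v hv
      have h0 : v ≠ ι 0 := fun h' => by rw [h', or0] at hv; cases hv
      have h3 : v ≠ ι 3 := fun h' => by rw [h', or3] at hv; cases hv
      rw [or1 v h0 h3] at hv
      show S.pos (s ((G R).e v)) = _
      rw [h.he R, hs.e v h0 h3]
      exact hS.pos_du _ hv
    · intro v hv
      by_cases hr : v ∈ Set.range ι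
      · obtain ⟨i, rfl⟩ := hr
        rw [h.hr] at hv
        exact (ro_ne R i (ι.injective hv)).elim
      · rw [h.out R v hr] at hv
        rw [or1 v (nr0 v hr) (nr3 v hr)]
        exact hs.leg v hv
    · intro v
      by_cases hr : v ∈ Set.range ι
      · obtain ⟨i, rfl⟩ := hr
        rw [h.hr, h.hr, orl, orl, orl, hR]
        exact ref_par oa ob oc od hx i
      · have h1 := h.outr hr
        have h2 := h.outr h1
        rw [h.out R v hr, h.out R _ h1, or1 v (nr0 v hr) (nr3 v hr), or1 _ (nr0 _ h1) (nr3 _ h1),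
          or1 _ (nr0 _ h2) (nr3 _ h2)]
        exact outer v hr
  obtain ⟨κ, hκ⟩ := exists_isK V (G R).e (G R).r oR _ (G R).e2 (G R).r3 parR
  refine ⟨((Perm.sign κ : ℤˣ) : ℤ) * P, fun D l => ?_⟩
  rw [hw]
  by_cases hT : TT S ι s D l = 0
  · rw [hT]
    simp
  obtain ⟨hq, -⟩ := hT0 D l hT
  obtain ⟨oD, hoD⟩ : ∃ oD : V → Bool, oD = fun v => S.odd (up S (ι 0) (ι 3) s l v) := ⟨_, rfl⟩
  obtain ⟨pD, hpD⟩ : ∃ pD : V → Bool, pD = fun v => S.pos (up S (ι 0) (ι 3) s l v) := ⟨_, rfl⟩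
  rw [← hoD, ← hpD]
  have ol : ∀ i, oD (ι i) = ov (qx D oa ob oc) oa ob oc od i := by
    intro i
    rw [hoD]
    show S.odd (up S (ι 0) (ι 3) s l (ι i)) = _
    rw [up_lab, hlab, hq]
  have oo : ∀ v, v ≠ ι 0 → v ≠ ι 3 → oD v = S.odd (s v) := by
    intro v h0 h3
    rw [hoD]
    show S.odd (up S (ι 0) (ι 3) s l v) = _
    rw [up_out l h0 h3]
  have po : ∀ v, v ≠ ι 0 → v ≠ ι 3 → pD v = S.pos (s v) := by
    intro v h0 h3
    rw [hpD]
    show S.pos (up S (ι 0) (ι 3) s l v) = _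
    rw [up_out l h0 h3]
  have p0 : pD (ι 0) = S.pos l := by
    rw [hpD]
    show S.pos (up S (ι 0) (ι 3) s l (ι 0)) = _
    rw [up0]
  have p3 : pD (ι 3) = S.pos (S.du l) := by
    rw [hpD]
    show S.pos (up S (ι 0) (ι 3) s l (ι 3)) = _
    rw [up3]
  have o00 : oD (ι 0) = S.odd l := by
    rw [hoD]
    show S.odd (up S (ι 0) (ι 3) s l (ι 0)) = _
    rw [up0]
  have o33 : oD (ι 3) = S.odd l := by
    rw [hoD]
    show S.odd (up S (ι 0) (ι 3) s l (ι 3)) = _
    rw [up3, hS.odd_du]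
  have parD : Par2 (G D).e (G D).r oD pD := by
    constructor
    · intro v
      rw [h.he D]
      by_cases h0 : v = ι 0
      · rw [h0, h.e0, o00, o33]
      · by_cases h3 : v = ι 3
        · rw [h3, h.e3, o00, o33]
        · rw [oo v h0 h3, oo _ (h.oute h0 h3).1 (h.oute h0 h3).2, hs.e v h0 h3, hS.odd_du]
    · intro v hv
      rw [h.he D]
      by_cases h0 : v = ι 0
      · rw [h0, o00] at hv
        rw [h0, h.e0, p0, p3, hS.pos_du _ hv]
      · by_cases h3 : v = ι 3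
        · rw [h3, o33] at hv
          rw [h3, h.e3, p0, p3, hS.pos_du _ hv, Bool.not_not]
        · rw [oo v h0 h3] at hv
          rw [po v h0 h3, po _ (h.oute h0 h3).1 (h.oute h0 h3).2, hs.e v h0 h3, hS.pos_du _ hv]
    · intro v hv
      by_cases hr : v ∈ Set.range ι
      · obtain ⟨i, rfl⟩ := hr
        rw [h.hr] at hv
        exact (ro_ne D i (ι.injective hv)).elim
      · rw [h.out D v hr] at hv
        rw [oo v (nr0 v hr) (nr3 v hr)]
        exact hs.leg v hv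
    · intro v
      by_cases hr : v ∈ Set.range ι
      · obtain ⟨i, rfl⟩ := hr
        rw [h.hr, h.hr, ol, ol, ol]
        exact q_par D oa ob oc od hx i
      · have h1 := h.outr hr
        have h2 := h.outr h1
        rw [h.out D v hr, h.out D _ h1, oo v (nr0 v hr) (nr3 v hr), oo _ (nr0 _ h1) (nr3 _ h1),
          oo _ (nr0 _ h2) (nr3 _ h2)]
        exact outer v hr
  have ht := tab_ok D oa ob oc od (S.pos l) hx
  have hK : IsK (G D).e (G D).r oD pD
      ((sw (tab D oa ob oc od (S.pos l))).viaFintypeEmbedding ι * κ) := by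
    rw [h.he R] at hκ
    rw [h.he D]
    refine isK_local (ρD := ro D) (ρR := ro R) (rR := (G R).r) (oR := oR)
      (pR := fun v => S.pos (s v)) (G R).r3 (h.hr D) (h.hr R) ?_ h.e0 h.e3 ?_ ?_ or0 or3 ?_ ?_ ?_ hκ
    · intro v hv
      rw [h.out D v hv, h.out R v hv]
    · intro v h0 h3
      rw [oo v h0 h3, or1 v h0 h3]
    · intro v h0 h3
      exact po v h0 h3
    · rw [o00, o33]
    · intro hv
      rw [o00] at hv
      rw [p0, p3, hS.pos_du _ hv]
    · have e1 : (fun i => oD (ι i)) = ov (qx D oa ob oc) oa ob oc od := funext ol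
      have e2 : (fun i => oR (ι i)) = ov false oa ob oc od := funext orl
      rw [e1, e2, p0, hR]
      exact ht.1
  rw [sg_eq V (G D).e (G D).r _ oD pD (G D).e2 (G D).r3 parD hK, map_mul, Units.val_mul,
    Perm.viaFintypeEmbedding_sign, sign_sw _ ht.2.1, ht.2.2]
  ring

end Pool.Agent.SWT67
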