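import Pool.Agent.SWT67.Sgn

/-!
# The sign under a local change at an edge
-/

set_option autoImplicit false

namespace Pool.Agent.SWT67

open Equiv Pool.Agent.SWT80 Pool.Agent.SWT45

/-- The cyclic orders at the half-edges `x, a, b, y, c, d` of `I`, `J`, `X`. -/
def ro (D : Fin 3) (i : Fin 6) : Fin 6 :=
  match D with
  | 0 => (![1, 2, 0, 4, 5, 3] : Fin 6 → Fin 6) i
  | 1 => (![2, 3, 4, 5, 0, 1] : Fin 6 → Fin 6) i
  | 2 => (![1, 4, 3, 5, 0, 2] : Fin 6 → Fin 6) i

/-- The parity of `x`. -/
def qx (D : Fin 3) (oa ob oc : Bool) : Bool :=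
  match D with
  | 0 => oa ^^ ob
  | 1 => ob ^^ oc
  | 2 => oa ^^ oc

/-- The diagram in which `x` is even. -/
def rf (oa ob oc : Bool) : Fin 3 := if oa = ob then 0 else if ob = oc then 1 else 2

def ov (q oa ob oc od : Bool) : Fin 6 → Bool := ![q, oa, ob, q, oc, od]

def sD (D : Fin 3) (oa ob oc od p : Bool) : ℤ :=
  match D with
  | 0 => sI oa ob oc od p
  | 1 => sJ oa ob oc od p
  | 2 => sX oa ob oc od p

/-- Local conditions on the permutation `π`. -/
def LK (rD rR : Fin 6 → Fin 6) (oD oR : Fin 6 → Bool) (p : Bool) (π : Fin 6 → Fin 6) : Prop :=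
  (∀ i, oD i = false → π i = i) ∧
    (∀ i, oR i = true → oR (rR i) = true →
      oD (π i) = true ∧ oD (rD (π i)) = true ∧ π (rR i) = rD (π i)) ∧
    (oD 0 = true → oD (π (if p then 0 else 3)) = true ∧
      oD (rD (π (if p then 0 else 3))) = true ∧
      π (if p then 3 else 0) = rD (π (if p then 0 else 3)))

instance (rD rR : Fin 6 → Fin 6) (oD oR : Fin 6 → Bool) (p : Bool) (π : Fin 6 → Fin 6) :
    Decidable (LK rD rR oD oR p π) := by
  unfold LK
  infer_instance

/-- A product of transpositions. -/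
def sw (l : List (Fin 6 × Fin 6)) : Perm (Fin 6) := (l.map fun q => swap q.1 q.2).prod

theorem sign_sw (l : List (Fin 6 × Fin 6)) (h : ∀ q ∈ l, q.1 ≠ q.2) :
    ((Perm.sign (sw l) : ℤˣ) : ℤ) = (-1) ^ l.length := by
  induction l with
  | nil => simp [sw]
  | cons q l ih =>
    have h1 : sw (q :: l) = swap q.1 q.2 * sw l := by simp [sw]
    rw [h1, map_mul, Perm.sign_swap (h q (by simp)), Units.val_mul,
      ih fun q' hq' => h q' (by simp [hq'])]
    simp [pow_succ]

/-- The transpositions. -/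
def tab (D : Fin 3) (oa ob oc od p : Bool) : List (Fin 6 × Fin 6) :=
  match oa, ob, oc, od, D, p with
  | false, false, true, true, 1, false => [(3, 4)]
  | false, false, true, true, 1, true => [(0, 3), (3, 5)]
  | false, false, true, true, 2, false => [(3, 4)]
  | false, false, true, true, 2, true => [(0, 3), (3, 5)]
  | false, true, false, true, 0, false => [(2, 3)]
  | false, true, false, true, 0, true => [(0, 2), (2, 3)]
  | false, true, false, true, 1, false => [(0, 5)]
  | false, true, false, true, 1, true => [(2, 5), (5, 3)]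
  | false, true, true, false, 0, false => [(2, 3)]
  | false, true, true, false, 0, true => [(0, 2), (2, 3)]
  | false, true, true, false, 2, false => [(3, 4)]
  | false, true, true, false, 2, true => [(0, 2), (2, 4)]
  | true, false, false, true, 0, false => [(0, 1), (1, 3)]
  | true, false, false, true, 0, true => [(1, 3)]
  | true, false, false, true, 2, false => [(0, 5)]
  | true, false, false, true, 2, true => [(1, 5), (5, 3)]
  | true, false, true, false, 0, false => [(0, 1), (1, 3)]
  | true, false, true, false, 0, true => [(1, 3)]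
  | true, false, true, false, 1, false => [(3, 4)]
  | true, false, true, false, 1, true => [(0, 1), (1, 4)]
  | true, true, false, false, 1, false => [(0, 2), (2, 3)]
  | true, true, false, false, 1, true => [(2, 3)]
  | true, true, false, false, 2, false => [(0, 1), (1, 2), (2, 3)]
  | true, true, false, false, 2, true => [(1, 2), (2, 3)]
  | true, true, true, true, 1, _ => [(1, 2), (2, 4), (4, 5)]
  | true, true, true, true, 2, _ => [(2, 4), (4, 5)]
  | _, _, _, _, _, _ => []

theorem tab_ok : ∀ (D : Fin 3) (oa ob oc od p : Bool), (oa ^^ (ob ^^ (oc ^^ od))) = false →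
    LK (ro D) (ro (rf oa ob oc)) (ov (qx D oa ob oc) oa ob oc od) (ov false oa ob oc od) p
      (sw (tab D oa ob oc od p)) ∧ (∀ q ∈ tab D oa ob oc od p, q.1 ≠ q.2) ∧
      ((-1 : ℤ)) ^ (tab D oa ob oc od p).length = sD D oa ob oc od p := by
  decide +kernel

section Lift

variable {V : Type} {e rD rR κ : Perm V} {oD oR pD pR : V → Bool} {ι : Fin 6 ↪ V}
  {ρD ρR : Fin 6 → Fin 6} {π : Perm (Fin 6)}

open scoped Classical in
theorem isK_local [Fintype V] (h3 : ∀ v, rR (rR (rR v)) = v)
    (hD : ∀ i, rD (ι i) = ι (ρD i)) (hR : ∀ i, rR (ι i) = ι (ρR i))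
    (hout : ∀ v, v ∉ Set.range ι → rD v = rR v) (e0 : e (ι 0) = ι 3) (e3 : e (ι 3) = ι 0)
    (ho : ∀ v, v ≠ ι 0 → v ≠ ι 3 → oD v = oR v) (hp : ∀ v, v ≠ ι 0 → v ≠ ι 3 → pD v = pR v)
    (o0 : oR (ι 0) = false) (o3 : oR (ι 3) = false) (oo : oD (ι 3) = oD (ι 0))
    (pp : oD (ι 0) = true → pD (ι 3) = !(pD (ι 0)))
    (hL : LK ρD ρR (fun i => oD (ι i)) (fun i => oR (ι i)) (pD (ι 0)) π)
    (hκ : IsK e rR oR pR κ) : IsK e rD oD pD (π.viaFintypeEmbedding ι * κ) := by
  have c1 : ∀ i, π.viaFintypeEmbedding ι (ι i) = ι (π i) := fun i =>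
    Perm.viaFintypeEmbedding_apply_image π ι i
  have c2 : ∀ v, v ∉ Set.range ι → π.viaFintypeEmbedding ι v = v := fun v hv =>
    Perm.viaFintypeEmbedding_apply_notMem_range π ι hv
  have out : ∀ v, v ∉ Set.range ι → rR v ∉ Set.range ι := by
    rintro v hv ⟨j, hj⟩
    apply hv
    refine ⟨ρR (ρR j), ?_⟩
    rw [← hR, ← hR, hj, h3]
  have ne0 : ∀ v, v ∉ Set.range ι → v ≠ ι 0 := fun v hv h => hv ⟨0, h.symm⟩
  have ne3 : ∀ v, v ∉ Set.range ι → v ≠ ι 3 := fun v hv h => hv ⟨3, h.symm⟩
  have pair : ∀ u, oR u = true → oR (rR u) = true →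
      oD (π.viaFintypeEmbedding ι u) = true ∧ oD (rD (π.viaFintypeEmbedding ι u)) = true ∧
      π.viaFintypeEmbedding ι (rR u) = rD (π.viaFintypeEmbedding ι u) := by
    intro u h1 h2
    by_cases hu : u ∈ Set.range ι
    · obtain ⟨i, rfl⟩ := hu
      rw [hR] at h2
      have h4 := hL.2.1 i h1 h2
      rw [hR, c1, c1, hD]
      exact ⟨h4.1, h4.2.1, congrArg ι h4.2.2⟩
    · have h5 := out u hu
      rw [c2 u hu, c2 _ h5, hout u hu, ho u (ne0 u hu) (ne3 u hu), ho _ (ne0 _ h5) (ne3 _ h5)]
      exact ⟨h1, h2, rfl⟩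
  constructor
  · intro v hv
    rw [Perm.mul_apply]
    by_cases hu : v ∈ Set.range ι
    · obtain ⟨i, rfl⟩ := hu
      have h4 : oR (ι i) = false := by
        by_cases hi : i = 0
        · rw [hi]; exact o0
        · by_cases hi3 : i = 3
          · rw [hi3]; exact o3
          · rw [← ho _ (fun h => hi (ι.injective h)) (fun h => hi3 (ι.injective h))]
            exact hv
      rw [hκ.fix _ h4, c1]
      exact congrArg ι (hL.1 i hv)
    · have h4 : oR v = false := by rw [← ho v (ne0 v hu) (ne3 v hu)]; exact hv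
      rw [hκ.fix v h4, c2 v hu]
  · intro v h1 h2
    rw [Perm.mul_apply, Perm.mul_apply]
    by_cases v0 : v = ι 0
    · subst v0
      rw [hκ.fix _ o0, e0, hκ.fix _ o3, c1, c1, hD]
      have h4 := hL.2.2 h1
      rw [h2] at h4
      exact ⟨h4.1, h4.2.1, congrArg ι h4.2.2⟩
    · by_cases v3 : v = ι 3
      · subst v3
        rw [oo] at h1
        have h5 := pp h1
        rw [h2] at h5
        have h6 : pD (ι 0) = false := by
          cases h7 : pD (ι 0)
          · rfl
          · rw [h7] at h5; cases h5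
        rw [hκ.fix _ o3, e3, hκ.fix _ o0, c1, c1, hD]
        have h4 := hL.2.2 h1
        rw [h6] at h4
        exact ⟨h4.1, h4.2.1, congrArg ι h4.2.2⟩
      · rw [ho v v0 v3] at h1
        rw [hp v v0 v3] at h2
        have h4 := hκ.map v h1 h2
        rw [h4.2.2]
        exact pair _ h4.1 h4.2.1

end Lift

end Pool.Agent.SWT67
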