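import Pool.Agent.SWT67.Sgn
import Pool.Agent.SWT67.Rep

/-!
# State sums and renaming of the half-edges
-/

set_option autoImplicit false

namespace Pool.Agent.SWT67

open Equiv Pool.Agent.SWT80 Pool.Agent.SWT45
open scoped Classical

variable {L V W : Type} {n : ℕ}

/-- The existence of `κ` implies the conditions at the vertices. -/
theorem par_of_isK {e r κ : Perm V} {o p : V → Bool} (h2 : ∀ v, e (e v) = v)
    (h3 : ∀ v, r (r (r v)) = v) (oe : ∀ v, o (e v) = o v)
    (pe : ∀ v, o v = true → p (e v) = !(p v)) (hκ : IsK e r o p κ) : Par2 e r o p := by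
  have ne : ∀ v, o v = true → e v ≠ v := by
    intro v hv h'
    have h4 := pe v hv
    rw [h'] at h4
    cases h5 : p v <;> rw [h5] at h4 <;> cases h4
  have neg : ∀ v, o v = true → p v = false →
      o (κ (e v)) = true ∧ κ v = r (κ (e v)) := by
    intro v hv hp
    have h4 := hκ.map (e v) (by rw [oe]; exact hv) (by rw [pe v hv, hp]; rfl)
    rw [h2] at h4
    exact ⟨h4.1, h4.2.2⟩
  have pre : ∀ w, o w = true → o (κ⁻¹ w) = true := by
    intro w hw
    by_contra h4
    have h5 := hκ.fix (κ⁻¹ w) (by simpa using h4)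
    rw [ap_inv] at h5
    rw [← h5] at h4
    exact h4 hw
  -- first half-edges
  have F1 : ∀ w, o w = true → p (κ⁻¹ w) = true → o (r w) = true ∧ p (κ⁻¹ (r w)) = false := by
    intro w hw hp
    have h4 := hκ.map _ (pre w hw) hp
    rw [ap_inv] at h4
    refine ⟨h4.2.1, ?_⟩
    rw [← h4.2.2, inv_ap, pe _ (pre w hw), hp]
    rfl
  have F2 : ∀ w, o w = true → p (κ⁻¹ w) = false →
      o (r (r w)) = true ∧ p (κ⁻¹ (r (r w))) = true := by
    intro w hw hp
    have h4 := neg _ (pre w hw) hp
    rw [ap_inv] at h4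
    have h5 : r (r (r (κ (e (κ⁻¹ w))))) = κ (e (κ⁻¹ w)) := h3 _
    rw [← h4.2] at h5
    rw [h5, inv_ap, pe _ (pre w hw), hp]
    exact ⟨h4.1, rfl⟩
  have ol : ∀ v, r v = v → o v = false := by
    intro w hw
    by_contra h4
    have h4 : o w = true := by simpa using h4
    cases hp : p (κ⁻¹ w) with
    | true =>
      have h5 := (F1 w h4 hp).2
      rw [hw, hp] at h5
      cases h5
    | false =>
      have h5 := (F2 w h4 hp).2
      rw [hw, hw, hp] at h5
      cases h5
  have two : ∀ w, o w = true → o (r w) = true → o (r (r w)) = true → False := by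
    have key : ∀ w, o w = true → o (r w) = true → o (r (r w)) = true →
        p (κ⁻¹ w) = true → False := by
      intro w h4 h5 h6 hp
      have h7 := F1 w h4 hp
      cases hq : p (κ⁻¹ (r (r w))) with
      | true =>
        have h8 := (F1 _ h6 hq).2
        rw [h3, hp] at h8
        cases h8
      | false =>
        have h8 := (F2 _ h6 hq).2
        rw [h3, h7.2] at h8
        cases h8
    intro w h4 h5 h6
    cases hp : p (κ⁻¹ w) with
    | true => exact key w h4 h5 h6 hp
    | false =>
      have h7 := F2 w h4 hp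
      exact key (r (r w)) h6 (by rw [h3]; exact h4) (by rw [h3]; exact h5) h7.2
  have one : ∀ w, o w = true → o (r w) = true ∨ o (r (r w)) = true := by
    intro w h4
    cases hp : p (κ⁻¹ w) with
    | true => exact Or.inl (F1 w h4 hp).1
    | false => exact Or.inr (F2 w h4 hp).1
  refine ⟨oe, pe, ol, fun v => ?_⟩
  have a1 := one v
  have a2 := one (r v)
  have a3 := one (r (r v))
  have a4 := two v
  rw [h3] at a2 a3
  revert a1 a2 a3 a4
  cases o v <;> cases o (r v) <;> cases o (r (r v)) <;> simp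

theorem sg_eq' [Fintype V] {e r κ : Perm V} {o p : V → Bool} (h2 : ∀ v, e (e v) = v)
    (h3 : ∀ v, r (r (r v)) = v) (oe : ∀ v, o (e v) = o v)
    (pe : ∀ v, o v = true → p (e v) = !(p v)) (hκ : IsK e r o p κ) :
    sg e r o p = ((Perm.sign κ : ℤˣ) : ℤ) :=
  sg_eq V e r κ o p h2 h3 (par_of_isK h2 h3 oe pe hκ) hκ

theorem isK_map (f : V ≃ W) (G : Gr V n) {o p : W → Bool} {κ : Perm V}
    (hκ : IsK G.e G.r (fun v => o (f v)) (fun v => p (f v)) κ) :
    IsK (G.map f).e (G.map f).r o p ((f.symm.trans κ).trans f) := by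
  have c : ∀ v, ((f.symm.trans κ).trans f) (f v) = f (κ v) := fun v => by simp
  constructor
  · intro w hw
    obtain ⟨v, rfl⟩ := f.surjective w
    rw [c, hκ.fix v hw]
  · intro w hw hp
    obtain ⟨v, rfl⟩ := f.surjective w
    have h4 := hκ.map v hw hp
    rw [c, G.map_e, c, G.map_r]
    exact ⟨h4.1, h4.2.1, congrArg f h4.2.2⟩

theorem isK_unmap (f : V ≃ W) (G : Gr V n) {o p : W → Bool} {κ : Perm W}
    (hκ : IsK (G.map f).e (G.map f).r o p κ) :
    IsK G.e G.r (fun v => o (f v)) (fun v => p (f v)) ((f.trans κ).trans f.symm) := by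
  have c : ∀ v, ((f.trans κ).trans f.symm) v = f.symm (κ (f v)) := fun v => rfl
  constructor
  · intro v hv
    rw [c, hκ.fix (f v) hv, f.symm_apply_apply]
  · intro v hv hp
    have h4 := hκ.map (f v) hv hp
    obtain ⟨u, hu⟩ := f.surjective (κ (f v))
    rw [← hu, G.map_e, G.map_r] at h4
    rw [c, c, ← hu, h4.2.2, f.symm_apply_apply, f.symm_apply_apply]
    exact ⟨h4.1, h4.2.1, rfl⟩

theorem sg_map [Fintype V] [Fintype W] (f : V ≃ W) (G : Gr V n) {o p : W → Bool}
    (oe : ∀ v, o (f (G.e v)) = o (f v))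
    (pe : ∀ v, o (f v) = true → p (f (G.e v)) = !(p (f v))) :
    sg (G.map f).e (G.map f).r o p = sg G.e G.r (fun v => o (f v)) (fun v => p (f v)) := by
  have oe' : ∀ w, o ((G.map f).e w) = o w := by
    intro w
    obtain ⟨v, rfl⟩ := f.surjective w
    rw [G.map_e]
    exact oe v
  have pe' : ∀ w, o w = true → p ((G.map f).e w) = !(p w) := by
    intro w
    obtain ⟨v, rfl⟩ := f.surjective w
    rw [G.map_e]
    exact pe v
  by_cases h : ∃ κ, IsK G.e G.r (fun v => o (f v)) (fun v => p (f v)) κ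
  · obtain ⟨κ, hκ⟩ := h
    rw [sg_eq' G.e2 G.r3 oe pe hκ, sg_eq' (G.map f).e2 (G.map f).r3 oe' pe' (isK_map f G hκ),
      Perm.sign_symm_trans_trans]
  · have h' : ¬ ∃ κ, IsK (G.map f).e (G.map f).r o p κ := by
      rintro ⟨κ, hκ⟩
      exact h ⟨_, isK_unmap f G hκ⟩
    unfold sg
    rw [dif_neg h, dif_neg h']

theorem vp_map [Fintype V] [Fintype W] (f : V ≃ W) (G : Gr V n) {F : W → ℤ}
    (hF : ∀ v, F (f (G.r v)) = F (f v)) :
    vp (G.map f).r F = vp G.r fun v => F (f v) := by
  obtain ⟨Q, hQ⟩ := rep V G.r G.r3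
  have hQ' : IsRep (G.map f).r (Q.map f.toEmbedding) := by
    have hm : ∀ v, f v ∈ Q.map f.toEmbedding ↔ v ∈ Q := fun v => by
      rw [Finset.mem_map_equiv, f.symm_apply_apply]
    constructor
    · intro w hw
      obtain ⟨v, rfl⟩ := f.surjective w
      rw [hm] at hw
      rw [G.map_r]
      exact fun h' => hQ.nf v hw (f.injective h')
    · intro w hw
      obtain ⟨v, rfl⟩ := f.surjective w
      rw [G.map_r] at hw ⊢
      rw [G.map_r, hm, hm, hm]
      exact hQ.ex v fun h' => hw (congrArg f h')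
    · intro w hw
      obtain ⟨v, rfl⟩ := f.surjective w
      rw [hm] at hw
      rw [G.map_r, G.map_r, hm, hm]
      exact hQ.un v hw
  have hF' : ∀ w, F ((G.map f).r w) = F w := by
    intro w
    obtain ⟨v, rfl⟩ := f.surjective w
    rw [G.map_r]
    exact hF v
  rw [vp_eq V G.r Q _ G.r3 hQ hF, vp_eq W (G.map f).r _ F (G.map f).r3 hQ' hF', Finset.prod_map]
  rfl

theorem map : S_map := by
  intro L _ S hS V W _ _ n f G A B hAB
  unfold Z
  refine Finset.sum_bij' (fun s _ => fun v => s (f v)) (fun t _ => fun w => t (f.symm w))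
    ?_ ?_ ?_ ?_ ?_
  · intro s hs
    have hs' := (Finset.mem_filter.1 hs).2
    refine Finset.mem_filter.2 ⟨Finset.mem_univ _, fun v => (hAB v _).1 (hs'.1 (f v)), fun v => ?_⟩
    show s (f (G.e v)) = S.du (s (f v))
    rw [← G.map_e]
    exact hs'.2 (f v)
  · intro t ht
    have ht' := (Finset.mem_filter.1 ht).2
    refine Finset.mem_filter.2 ⟨Finset.mem_univ _, fun w => ?_, fun w => ?_⟩
    · obtain ⟨v, rfl⟩ := f.surjective w
      show B (f v) (t (f.symm (f v)))
      rw [f.symm_apply_apply, hAB]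
      exact ht'.1 v
    · obtain ⟨v, rfl⟩ := f.surjective w
      show t (f.symm ((G.map f).e (f v))) = S.du (t (f.symm (f v)))
      rw [G.map_e, f.symm_apply_apply, f.symm_apply_apply]
      exact ht'.2 v
  · intro s _
    funext w
    show s (f (f.symm w)) = s w
    rw [f.apply_symm_apply]
  · intro t _
    funext v
    show t (f.symm (f v)) = t v
    rw [f.symm_apply_apply]
  · intro s hs
    have hs' := (Finset.mem_filter.1 hs).2
    have he : ∀ v, s (f (G.e v)) = S.du (s (f v)) := by
      intro v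
      rw [← G.map_e]
      exact hs'.2 (f v)
    unfold wt
    congr 1
    · refine sg_map f G ?_ ?_
      · intro v
        show S.odd (s (f (G.e v))) = S.odd (s (f v))
        rw [he, hS.odd_du]
      · intro v hv
        show S.pos (s (f (G.e v))) = !(S.pos (s (f v)))
        rw [he]
        exact hS.pos_du _ hv
    · rw [vp_map f G]
      · simp only [G.map_r]
      · intro v
        show S.T (s (f (G.r v))) (s ((G.map f).r (f (G.r v))))
          (s ((G.map f).r ((G.map f).r (f (G.r v))))) = S.T (s (f v)) (s ((G.map f).r (f v)))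
            (s ((G.map f).r ((G.map f).r (f v))))
        simp only [G.map_r]
        rw [G.r3, ← hS.cyc]

end Pool.Agent.SWT67
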